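import Pool.Agent.Lib.MP_ba72f5_co.Join

set_option autoImplicit false

open Finset

namespace Pool.Agent.Lib.MP_ba72f5_co

open MG

section Types

variable {l r t : ℕ} {V κ : Type} [Fintype V] [DecidableEq V] [Fintype κ] [DecidableEq κ]
  {τ : κ → V → V} (h1 : ∀ k a, τ k (τ k a) = a) (w : κ → ℕ) (hw : ∑ k, w k = l * r)
  {m : V → V → ℕ} (h2 : ∀ a, m a a = 0)
  (h3 : ∀ a b, ∑ k, (if τ k a = b then w k else 0) = l * m a b) (hr : 0 < l * r)
  (hτ : ∀ f : V → V, (∀ a, f (f a) = a) → (∀ a, 0 < m a (f a)) → ∃ k, f = τ k)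
  (P : V × V → ℕ → Prop) (L : Finset (V × V)) (L1 : ∀ p ∈ L, p.swap ∉ L)
  (L2 : ∀ p ∈ L, 0 < m p.1 p.2) (L3 : ∀ p ∈ L, Gad l r t (m p.1 p.2) (P p))

include h1 hw h2 h3 hr hτ L1 L2 L3

lemma types_gad (u v : V) (hu : (u, v) ∉ L) (hv : (v, u) ∉ L) (Q : ℕ → Prop)
    (hQ : ∀ (n : κ → ℕ) (c : V → Bool), ∑ k, n k = t →
      (∀ a b, ¬ ((a = u ∧ b = v) ∨ (a, b) ∈ L) → ¬ ((b = u ∧ a = v) ∨ (b, a) ∈ L) →
        (∑ k, if τ k a = b then n k else 0) < m a b → c a ≠ c b) →
      (∀ p ∈ L, P p (∑ k, if τ k p.1 = p.2 then n k else 0)) →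
      Q (∑ k, if τ k u = v then n k else 0)) : Gad l r t (m u v) Q :=
  (realiz (t := t) (ofTypes τ h1 w hw m h2 h3) ⟨0, hr⟩ P L L1 L2 L3).gad hu hv fun U hU hΦ => by
    obtain ⟨n, e1, e2, c, e3⟩ := hU.classify τ hτ
    simp only [e2] at hΦ e3 ⊢
    exact hQ n c e1 e3 hΦ

lemma types_unsat (hQ : ∀ n : κ → ℕ, ∑ k, n k = t →
      ¬ ∀ p ∈ L, P p (∑ k, if τ k p.1 = p.2 then n k else 0)) :
    ∃ G : MG l r, ∀ U, ¬ G.Sol t (fun _ _ => False) U :=
  (realiz (t := t) (ofTypes τ h1 w hw m h2 h3) ⟨0, hr⟩ P L L1 L2 L3).unsat fun U hU hΦ => by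
    obtain ⟨n, e1, e2, -⟩ := hU.classify τ hτ
    simp only [e2] at hΦ
    exact hQ n e1 hΦ

end Types

lemma odd3 : ∀ a b c : Bool, a ≠ b → b ≠ c → a ≠ c → False := by decide

lemma odd5 : ∀ a b c d e : Bool, a ≠ b → b ≠ c → c ≠ d → d ≠ e → e ≠ a → False := by
  intro a b c d e
  cases a <;> cases b <;> cases c <;> cases d <;> cases e <;> simp

/-- the four perfect matchings of the six-vertex graph; `u v p s q w = 0 1 2 3 4 5` -/
def τ6 : Fin 4 → Fin 6 → Fin 6 :=
  ![![1, 0, 3, 2, 5, 4], ![5, 4, 3, 2, 1, 0], ![3, 2, 1, 0, 5, 4], ![4, 2, 1, 5, 0, 3]]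

def m6 (ν k : ℕ) (a b : Fin 6) : ℕ := ∑ i, if τ6 i a = b then ![ν, 1, 1, k] i else 0

lemma B6_class (ν k : ℕ) (f : Fin 6 → Fin 6) (h : ∀ a, f (f a) = a)
    (h' : ∀ a, 0 < m6 ν k a (f a)) : ∃ i, f = τ6 i := by
  have h1 : ∀ a, ∃ i, τ6 i a = f a := fun a => by
    by_contra h2
    have := h' a
    rw [m6, sum_eq_zero fun i _ => if_neg fun e => h2 ⟨i, e⟩] at this
    exact lt_irrefl _ this
  have a0 := h1 0
  have a1 := h1 1
  have a2 := h1 2
  have a3 := h1 3
  have a4 := h1 4
  have a5 := h1 5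
  simp only [Fin.exists_fin_succ, τ6, Fin.exists_fin_zero] at a0 a1 a2 a3 a4 a5
  simp at a0 a1 a2 a3 a4 a5
  have b0 := h 0
  have b1 := h 1
  have b2 := h 2
  have b3 := h 3
  have b4 := h 4
  have b5 := h 5
  simp only [Fin.exists_fin_succ, τ6, Fin.exists_fin_zero, funext_iff, Fin.forall_fin_succ]
  simp
  clear h h' h1
  grind (splits := 40)

/-- the gadgets `Z ν` -/
lemma gadZ (k : ℕ) : ∀ ν r t : ℕ, r = ν + k + 2 → t + 2 ≤ r → Gad 2 r t ν (· ≤ ν) := by
  have hm : ∀ ν k, m6 ν k 0 1 = ν := fun ν k => by simp [m6, τ6, Fin.sum_univ_four]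
  have key := fun ν k t => types_gad (l := 2) (r := ν + k + 2) (t := t) (τ := τ6) (by decide)
    (fun i => 2 * ![ν, 1, 1, k] i) (by simp [Fin.sum_univ_four]; ring) (m := m6 ν k)
    (fun a => by fin_cases a <;> simp [m6, τ6, Fin.sum_univ_four])
    (fun a b => by simp only [m6, mul_sum, mul_ite, mul_zero]) (by omega) (B6_class ν k)
    (fun _ n => n ≤ ν + 1)
  induction k with
  | zero =>
    rintro ν _ t rfl ht
    have := key ν 0 t ∅ (by simp) (by simp) (by simp) 0 1 (by simp) (by simp) (· ≤ ν)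
      fun n c h1 _ _ => by
        simp [τ6, Fin.sum_univ_four] at h1 ⊢
        omega
    rwa [hm] at this
  | succ k ih =>
    rintro ν _ t rfl ht
    have := key ν (k + 1) t {(2, 3), (4, 5)} (by decide) (by simp [m6, τ6, Fin.sum_univ_four]) (by
        have := ih (ν + 1) (ν + (k + 1) + 2) t (by omega) ht
        simpa [m6, τ6, Fin.sum_univ_four] using this) 0 1 (by decide) (by decide) (· ≤ ν)
      fun n c h1 h3 hΦ => by
        have e1 := hΦ (2, 3) (by decide)
        have e2 := hΦ (4, 5) (by decide)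
        have e3 := h3 0 3 (by decide) (by decide)
        have e4 := h3 3 5 (by decide) (by decide)
        have e5 := h3 0 5 (by decide) (by decide)
        simp [m6, τ6, Fin.sum_univ_four] at h1 e1 e2 e3 e4 e5 ⊢
        by_contra h
        exact odd3 _ _ _ (e3 (by omega)) (e4 (by omega)) (e5 (by omega))
    rwa [hm] at this

/-- the six perfect matchings of the Petersen graph -/
def τP : Fin 6 → Fin 10 → Fin 10 :=
  ![![5, 2, 1, 4, 3, 0, 8, 9, 6, 7], ![4, 6, 3, 2, 0, 8, 1, 9, 5, 7],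
    ![1, 0, 7, 4, 3, 8, 9, 2, 5, 6], ![4, 2, 1, 8, 0, 7, 9, 5, 3, 6],
    ![1, 0, 3, 2, 9, 7, 8, 5, 6, 4], ![5, 6, 7, 8, 9, 0, 1, 2, 3, 4]]

def adjP (a b : Fin 10) : ℕ := if ∃ i, τP i a = b then 1 else 0

def mP (s : ℕ) (a b : Fin 10) : ℕ := adjP a b + if τP 5 a = b then s else 0

lemma adjP_cnt : ∀ a b, ∑ i, (if τP i a = b then 1 else 0) = 2 * adjP a b := by decide

lemma Pet_class (s : ℕ) (f : Fin 10 → Fin 10) (h : ∀ a, f (f a) = a)
    (h' : ∀ a, 0 < mP s a (f a)) : ∃ i, f = τP i := by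
  have h1 : ∀ a, ∃ i, τP i a = f a := fun a => by
    by_contra h2
    have := h' a
    rw [mP, adjP, if_neg h2, if_neg fun e => h2 ⟨5, e⟩] at this
    exact lt_irrefl _ this
  have h2 : (f 0 = 5 ∨ f 0 = 4 ∨ f 0 = 1) ∧ (f 1 = 2 ∨ f 1 = 6 ∨ f 1 = 0) ∧
      (f 2 = 1 ∨ f 2 = 3 ∨ f 2 = 7) ∧ (f 3 = 4 ∨ f 3 = 2 ∨ f 3 = 8) ∧
      (f 4 = 3 ∨ f 4 = 0 ∨ f 4 = 9) ∧ (f 5 = 0 ∨ f 5 = 8 ∨ f 5 = 7) ∧
      (f 6 = 8 ∨ f 6 = 1 ∨ f 6 = 9) ∧ (f 7 = 9 ∨ f 7 = 2 ∨ f 7 = 5) ∧
      (f 8 = 6 ∨ f 8 = 5 ∨ f 8 = 3) ∧ (f 9 = 7 ∨ f 9 = 6 ∨ f 9 = 4) := by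
    refine ⟨?_, ?_, ?_, ?_, ?_, ?_, ?_, ?_, ?_, ?_⟩ <;>
    · obtain ⟨i, hi⟩ := h1 _
      rw [← hi]
      clear hi
      revert i
      decide
  have k : ∀ a b, f a = b → f b = a := fun a b e => e ▸ h a
  obtain ⟨a0, a1, a2, a3, a4, a5, a6, a7, a8, a9⟩ := h2
  rcases a0 with c0 | c0 | c0
  · have c5 := k _ _ c0
    rcases a1 with c1 | c1 | c1
    · have c2 := k _ _ c1
      rcases a7 with c7 | c7 | c7
      · have c9 := k _ _ c7
        rcases a4 with c4 | c4 | c4
        · have c3 := k _ _ c4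
          rcases a6 with c6 | c6 | c6
          · have c8 := k _ _ c6
            exact ⟨0, funext fun a => by fin_cases a <;> assumption⟩
          · exact absurd ((k _ _ c6).symm.trans c1) (by decide)
          · exact absurd ((k _ _ c6).symm.trans c9) (by decide)
        · exact absurd ((k _ _ c4).symm.trans c0) (by decide)
        · exact absurd ((k _ _ c4).symm.trans c9) (by decide)
      · exact absurd ((k _ _ c7).symm.trans c2) (by decide)
      · exact absurd ((k _ _ c7).symm.trans c5) (by decide)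
    · have c6 := k _ _ c1
      rcases a8 with c8 | c8 | c8
      · exact absurd ((k _ _ c8).symm.trans c6) (by decide)
      · exact absurd ((k _ _ c8).symm.trans c5) (by decide)
      · have c3 := k _ _ c8
        rcases a2 with c2 | c2 | c2
        · exact absurd ((k _ _ c2).symm.trans c1) (by decide)
        · exact absurd ((k _ _ c2).symm.trans c3) (by decide)
        · have c7 := k _ _ c2
          rcases a4 with c4 | c4 | c4
          · exact absurd ((k _ _ c4).symm.trans c3) (by decide)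
          · exact absurd ((k _ _ c4).symm.trans c0) (by decide)
          · have c9 := k _ _ c4
            exact ⟨5, funext fun a => by fin_cases a <;> assumption⟩
    · exact absurd ((k _ _ c1).symm.trans c0) (by decide)
  · have c4 := k _ _ c0
    rcases a1 with c1 | c1 | c1
    · have c2 := k _ _ c1
      rcases a3 with c3 | c3 | c3
      · exact absurd ((k _ _ c3).symm.trans c4) (by decide)
      · exact absurd ((k _ _ c3).symm.trans c2) (by decide)
      · have c8 := k _ _ c3
        rcases a5 with c5 | c5 | c5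
        · exact absurd ((k _ _ c5).symm.trans c0) (by decide)
        · exact absurd ((k _ _ c5).symm.trans c8) (by decide)
        · have c7 := k _ _ c5
          rcases a6 with c6 | c6 | c6
          · exact absurd ((k _ _ c6).symm.trans c8) (by decide)
          · exact absurd ((k _ _ c6).symm.trans c1) (by decide)
          · have c9 := k _ _ c6
            exact ⟨3, funext fun a => by fin_cases a <;> assumption⟩
    · have c6 := k _ _ c1
      rcases a9 with c9 | c9 | c9
      · have c7 := k _ _ c9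
        rcases a2 with c2 | c2 | c2
        · exact absurd ((k _ _ c2).symm.trans c1) (by decide)
        · have c3 := k _ _ c2
          rcases a5 with c5 | c5 | c5
          · exact absurd ((k _ _ c5).symm.trans c0) (by decide)
          · have c8 := k _ _ c5
            exact ⟨1, funext fun a => by fin_cases a <;> assumption⟩
          · exact absurd ((k _ _ c5).symm.trans c7) (by decide)
        · exact absurd ((k _ _ c2).symm.trans c7) (by decide)
      · exact absurd ((k _ _ c9).symm.trans c6) (by decide)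
      · exact absurd ((k _ _ c9).symm.trans c4) (by decide)
    · exact absurd ((k _ _ c1).symm.trans c0) (by decide)
  · have c1 := k _ _ c0
    rcases a2 with c2 | c2 | c2
    · exact absurd ((k _ _ c2).symm.trans c1) (by decide)
    · have c3 := k _ _ c2
      rcases a4 with c4 | c4 | c4
      · exact absurd ((k _ _ c4).symm.trans c3) (by decide)
      · exact absurd ((k _ _ c4).symm.trans c0) (by decide)
      · have c9 := k _ _ c4
        rcases a6 with c6 | c6 | c6
        · have c8 := k _ _ c6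
          rcases a5 with c5 | c5 | c5
          · exact absurd ((k _ _ c5).symm.trans c0) (by decide)
          · exact absurd ((k _ _ c5).symm.trans c8) (by decide)
          · have c7 := k _ _ c5
            exact ⟨4, funext fun a => by fin_cases a <;> assumption⟩
        · exact absurd ((k _ _ c6).symm.trans c1) (by decide)
        · exact absurd ((k _ _ c6).symm.trans c9) (by decide)
    · have c7 := k _ _ c2
      rcases a5 with c5 | c5 | c5
      · exact absurd ((k _ _ c5).symm.trans c0) (by decide)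
      · have c8 := k _ _ c5
        rcases a3 with c3 | c3 | c3
        · have c4 := k _ _ c3
          rcases a6 with c6 | c6 | c6
          · exact absurd ((k _ _ c6).symm.trans c8) (by decide)
          · exact absurd ((k _ _ c6).symm.trans c1) (by decide)
          · have c9 := k _ _ c6
            exact ⟨2, funext fun a => by fin_cases a <;> assumption⟩
        · exact absurd ((k _ _ c3).symm.trans c2) (by decide)
        · exact absurd ((k _ _ c3).symm.trans c8) (by decide)
      · exact absurd ((k _ _ c5).symm.trans c7) (by decide)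

lemma mP_diag (s : ℕ) (a : Fin 10) : mP s a a = 0 := by
  have : adjP a a = 0 ∧ τP 5 a ≠ a := by revert a; decide
  simp [mP, this]

lemma mP_cnt (s : ℕ) (a b : Fin 10) :
    ∑ i, (if τP i a = b then 1 + if i = 5 then 2 * s else 0 else 0) = 2 * mP s a b := by
  rw [mP, mul_add, ← adjP_cnt, Fin.sum_univ_six, Fin.sum_univ_six]
  simp only [Fin.reduceEq, if_false, if_true]
  split_ifs <;> omega

lemma gadF (s : ℕ) : Gad 2 (s + 3) (s + 1) (s + 1) (· ≤ s) := by
  have hm : mP s 0 5 = s + 1 := by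
    have : adjP 0 5 = 1 ∧ τP 5 0 = 5 := by decide
    simp [mP, this, add_comm]
  have := types_gad (l := 2) (r := s + 3) (t := s + 1) (τ := τP) (by decide)
    (fun i => 1 + if i = 5 then 2 * s else 0) (by simp [Fin.sum_univ_six]; ring) (mP_diag s)
    (mP_cnt s) (by omega) (Pet_class s) (fun _ _ => True) ∅ (by simp) (by simp) (by simp) 0 5
    (by simp) (by simp) (· ≤ s) fun n c h1 h3 _ => by
      have ha : adjP 0 1 = 1 ∧ adjP 1 2 = 1 ∧ adjP 2 3 = 1 ∧ adjP 3 4 = 1 ∧ adjP 4 0 = 1 ∧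
        adjP 1 6 = 1 ∧ adjP 6 9 = 1 ∧ adjP 9 4 = 1 := by decide
      have e1 := h3 0 1 (by decide) (by decide)
      have e2 := h3 1 2 (by decide) (by decide)
      have e3 := h3 2 3 (by decide) (by decide)
      have e4 := h3 3 4 (by decide) (by decide)
      have e5 := h3 4 0 (by decide) (by decide)
      have e6 := h3 1 6 (by decide) (by decide)
      have e7 := h3 6 9 (by decide) (by decide)
      have e8 := h3 9 4 (by decide) (by decide)
      simp [mP, ha, τP, Fin.sum_univ_six] at h1 e1 e2 e3 e4 e5 e6 e7 e8 ⊢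
      by_contra h
      have g1 := e1 (by omega) (by omega)
      have g5 := e5 (by omega) (by omega)
      by_cases h0 : n 0 = 0
      · exact odd5 _ _ _ _ _ g1 (e2 (by omega) (by omega)) (e3 (by omega) (by omega))
          (e4 (by omega) (by omega)) g5
      · exact odd5 _ _ _ _ _ g1 (e6 (by omega)) (e7 (by omega) (by omega)) (e8 (by omega)) g5
  rwa [hm] at this

theorem unsat (s : ℕ) : ∃ G : MG 2 (s + 3), ∀ U, ¬ G.Sol (s + 1) (fun _ _ => False) U := by
  have hL : ∀ p ∈ (univ.filter fun p : Fin 10 × Fin 10 => p.1 < p.2 ∧ adjP p.1 p.2 = 1),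
      mP s p.1 p.2 = if τP 5 p.1 = p.2 then s + 1 else 1 := fun p hp => by
    rw [mP, (mem_filter.1 hp).2.2]
    split_ifs <;> omega
  refine types_unsat (τ := τP) (by decide)
    (fun i => 1 + if i = 5 then 2 * s else 0) (by simp [Fin.sum_univ_six]; ring) (mP_diag s)
    (mP_cnt s) (by omega) (Pet_class s)
    (fun p n => n ≤ if τP 5 p.1 = p.2 then s else 1)
    (univ.filter fun p => p.1 < p.2 ∧ adjP p.1 p.2 = 1) (fun p hp hq => ?_) (fun p hp => ?_)
    (fun p hp => ?_) fun n h1 h2 => ?_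
  · exact lt_asymm (mem_filter.1 hp).2.1 (mem_filter.1 hq).2.1
  · rw [hL p hp]
    split_ifs <;> omega
  · rw [hL p hp]
    split_ifs
    · exact gadF s
    · exact gadZ s 1 _ _ (by omega) (by omega)
  · have e1 := h2 (0, 5) (by decide)
    have e2 := h2 (1, 6) (by decide)
    have e3 := h2 (2, 7) (by decide)
    have e4 := h2 (3, 8) (by decide)
    have e5 := h2 (4, 9) (by decide)
    have f1 := h2 (0, 1) (by decide)
    have f2 := h2 (1, 2) (by decide)
    have f3 := h2 (2, 3) (by decide)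
    have f4 := h2 (3, 4) (by decide)
    have f5 := h2 (0, 4) (by decide)
    have g1 := h2 (5, 7) (by decide)
    have g2 := h2 (7, 9) (by decide)
    have g3 := h2 (6, 9) (by decide)
    have g4 := h2 (6, 8) (by decide)
    have g5 := h2 (5, 8) (by decide)
    simp [τP, Fin.sum_univ_six] at h1 e1 e2 e3 e4 e5 f1 f2 f3 f4 f5 g1 g2 g3 g4 g5
    omega

end Pool.Agent.Lib.MP_ba72f5_co
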