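import Mathlib

set_option autoImplicit false

namespace Pool.Agent.Lib.MP_ba72f5_co.Cover

/-- The multigraph with vertex type `V`, edge type `E` and end pairs `ends` is an `r`-graph:
loopless, `r`-regular, and every odd vertex set has at least `r` boundary edges. -/
def RGraph (r : ℕ) {V E : Type} (ends : E → Sym2 V) : Prop :=
  (∀ e, ¬ (ends e).IsDiag) ∧ (∀ v, {e | v ∈ ends e}.ncard = r) ∧
    ∀ X : Finset V, Odd X.card → r ≤ {e | ∃ a ∈ X, ∃ b ∉ X, ends e = s(a, b)}.ncard

/-- The edge set `M` is a perfect matching: every vertex lies in exactly one edge of `M`. -/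
def PerfectMatching {V E : Type} (ends : E → Sym2 V) (M : Set E) : Prop :=
  ∀ v, ∃! e, e ∈ M ∧ v ∈ ends e

end Pool.Agent.Lib.MP_ba72f5_co.Cover
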