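import Pool.Agent.Lib.MP_ba72f5_co.Bases

set_option autoImplicit false

open Finset

namespace Pool.Agent.Lib.MP_ba72f5_co

open MG SimpleGraph

lemma even_of_cycles {V : Type*} {G : SimpleGraph V}
    (h : ∀ v (w : G.Walk v v), w.IsCycle → Even w.length) (n : ℕ) :
    ∀ v (w : G.Walk v v), w.length = n → Even n := by
  induction n using Nat.strong_induction_on with
  | _ n ih =>
    intro v w hw
    by_contra ho
    have h1 : n ≠ 1 := fun e => (Walk.adj_of_length_eq_one (hw.trans e)).ne rfl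
    have h3 : 3 ≤ n := by
      rw [Nat.not_even_iff_odd, Nat.odd_iff] at ho
      omega
    by_cases hp : w.tail.IsPath
    · exact ho (hw ▸ h v w (Walk.isCycle_iff_isPath_tail_and_le_length.2 ⟨hp, hw ▸ h3⟩))
    · rw [← Walk.IsPath.getVert_injOn_iff] at hp
      have hn : ¬ w.Nil := by rw [Walk.not_nil_iff_lt_length]; omega
      have ht : w.tail.length + 1 = n := hw ▸ Walk.length_tail_add_one hn
      obtain ⟨i, j, hij, hj, e⟩ : ∃ i j, i < j ∧ j ≤ w.tail.length ∧
          w.tail.getVert i = w.tail.getVert j := by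
        by_contra h4
        refine hp fun i hi j hj e => ?_
        rcases lt_trichotomy i j with h5 | h5 | h5
        · exact absurd ⟨i, j, h5, hj, e⟩ h4
        · exact h5
        · exact absurd ⟨j, i, h5, hi, e.symm⟩ h4
      rw [Walk.getVert_tail, Walk.getVert_tail] at e
      have a1 := ih _ ?_ _ (((w.take (j + 1)).drop (i + 1)).copy
        (by rw [Walk.take_getVert, min_eq_right (by omega), e]) rfl) rfl
      have a2 := ih _ ?_ _ ((w.take (i + 1)).append ((w.drop (j + 1)).copy e.symm rfl)) rfl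
      all_goals
        simp only [Walk.length_copy, Walk.length_append, Walk.drop_length, Walk.take_length, hw,
          Nat.even_iff] at *
        omega

variable {r : ℕ}

/-- multiplicity of an unordered pair -/
def MG.mS (G : MG 2 r) : Sym2 G.V → ℕ := Sym2.lift ⟨G.m, G.symm two_ne_zero⟩

/-- the edges -/
abbrev MG.E (G : MG 2 r) : Type := Σ s : Sym2 G.V, Fin (G.mS s)

lemma MG.ncard_E (G : MG 2 r) (T : Finset (Sym2 G.V)) :
    {e : G.E | e.1 ∈ T}.ncard = ∑ s ∈ T, G.mS s := by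
  rw [Set.ncard_eq_toFinset_card', Set.toFinset_ofPred, card_filter, Fintype.sum_sigma,
    ← sum_ite_mem_eq T]
  refine sum_congr rfl fun s _ => ?_
  split_ifs <;> simp

lemma MG.sum_m (G : MG 2 r) (a : G.V) (Y : Finset G.V) :
    2 * ∑ b ∈ Y, G.m a b = (univ.filter fun j => G.cov j a ∈ Y).card := by
  rw [mul_sum, card_eq_sum_card_fiberwise (f := fun j => G.cov j a) (t := Y)
    (s := univ.filter fun j => G.cov j a ∈ Y) fun j hj => (mem_filter.1 hj).2]
  refine sum_congr rfl fun b hb => ?_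
  rw [← G.cnt]
  exact congrArg card (ext fun j => by simp +contextual [hb])

lemma MG.degree (G : MG 2 r) (v : G.V) : {e : G.E | v ∈ e.1}.ncard = r := by
  have h : {e : G.E | v ∈ e.1} = {e : G.E | e.1 ∈ univ.image fun b => s(v, b)} := by
    ext e
    simp [Sym2.mem_iff_exists, eq_comm]
  rw [h, G.ncard_E, sum_image fun a _ b _ e => Sym2.congr_right.1 e]
  have := G.sum_m v univ
  simp only [mem_univ, filter_true, card_fin] at this
  exact Nat.eq_of_mul_eq_mul_left two_pos this

lemma MG.cut_ge (G : MG 2 r) (X : Finset G.V) (hX : Odd X.card) :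
    r ≤ {e : G.E | ∃ a ∈ X, ∃ b ∉ X, e.1 = s(a, b)}.ncard := by
  have h : {e : G.E | ∃ a ∈ X, ∃ b ∉ X, e.1 = s(a, b)}
      = {e : G.E | e.1 ∈ (X ×ˢ Xᶜ).image fun p => s(p.1, p.2)} := by
    ext e
    simp only [Set.mem_ofPred_eq, mem_image, mem_product, mem_compl, Prod.exists]
    exact ⟨fun ⟨a, ha, b, hb, e⟩ => ⟨a, b, ⟨ha, hb⟩, e.symm⟩,
      fun ⟨a, b, ⟨ha, hb⟩, e⟩ => ⟨a, ha, b, hb, e.symm⟩⟩
  rw [h, G.ncard_E, sum_image, sum_product]
  · refine Nat.le_of_mul_le_mul_left ?_ two_pos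
    rw [mul_sum]
    have h1 : ∀ j, ∃ a ∈ X, G.cov j a ∈ Xᶜ := fun j => by
      by_contra h2
      refine Nat.not_even_iff_odd.2 hX (even_card (G.inv j) X (fun a _ => G.ne j a) fun a ha => ?_)
      by_contra h3
      exact h2 ⟨a, ha, mem_compl.2 h3⟩
    calc 2 * r = (univ : Finset (Fin (2 * r))).card := (card_fin _).symm
      _ ≤ (X.biUnion fun a => univ.filter fun j => G.cov j a ∈ Xᶜ).card :=
        card_le_card fun j _ => by simpa using h1 j
      _ ≤ _ := card_biUnion_le.trans (sum_le_sum fun a _ => (G.sum_m a Xᶜ).ge)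
  · rintro ⟨a, b⟩ hp ⟨c, d⟩ hq e
    simp only [coe_product, Set.mem_prod, mem_coe, mem_compl] at hp hq
    rcases Sym2.eq_iff.1 e with ⟨rfl, rfl⟩ | ⟨rfl, rfl⟩
    · rfl
    · exact absurd hp.1 hq.2

lemma MG.sol_of (G : MG 2 r) {t : ℕ} (M : Fin t → Set G.E)
    (hM : ∀ i v, ∃! e, e ∈ M i ∧ v ∈ e.1)
    (hb : ∀ v (w : (fromEdgeSet (Sigma.fst '' {e : G.E | ∀ i, e ∉ M i})).Walk v v),
      w.IsCycle → Even w.length) : ∃ U, G.Sol t (fun _ _ => False) U := by
  obtain ⟨c⟩ := two_colorable_iff_forall_loop_even.2 fun v w => even_of_cycles hb _ v w rfl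
  choose e he hu using hM
  choose π h1 using fun i v => Sym2.mem_iff_exists.1 (he i v).2
  have h2 : ∀ i a b, ∀ x ∈ M i, x.1 = s(a, b) → π i a = b := fun i a b x hx e1 => by
    rw [hu i a x ⟨hx, by simp [e1]⟩, h1] at e1
    exact Sym2.congr_right.1 e1
  refine ⟨_, π, fun i a => h2 i _ a _ (he i a).1 (by rw [h1, Sym2.eq_swap]), fun i a => ?_,
    fun _ _ => rfl, fun a => decide (c a = 0), fun a b _ _ h3 => ?_⟩
  · have := (e i a).2.pos
    rwa [h1] at this
  · have h4 : ∃ k : Fin (G.mS s(a, b)), ∀ i, (⟨s(a, b), k⟩ : G.E) ∉ M i := by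
      by_contra h4
      simp only [not_exists, not_forall, not_not] at h4
      choose g hg using h4
      refine not_le.2 h3 ((card_fin _).symm.trans_le (card_le_card_of_injOn g
        (fun k _ => by simpa using h2 _ a b _ (hg k) rfl) fun k _ k' _ e1 => ?_))
      have := (hu _ a _ ⟨hg k, by simp⟩).trans (hu _ a _ ⟨e1 ▸ hg k', by simp⟩).symm
      exact eq_of_heq (Sigma.mk.inj this).2
    obtain ⟨k, hk⟩ := h4
    have h5 : a ≠ b := fun e1 => by simp [e1, G.diag] at h3
    have := c.valid ((fromEdgeSet_adj _).2 ⟨⟨_, hk, rfl⟩, h5⟩)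
    revert this
    beta_reduce
    generalize c a = x
    generalize c b = y
    revert x y
    decide

end Pool.Agent.Lib.MP_ba72f5_co
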