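import Mathlib

set_option autoImplicit false

namespace Pool.Agent.Lib.MP_ba72f5_co.Fulk

theorem fill {I E : Type} [Finite I] [Finite E] (J : Set I) (F : Set E) (hF : F.Nonempty) :
    ∃ h : I → E, (∀ j, h j ∈ F) ∧ min J.ncard F.ncard ≤ (h '' J).ncard := by
  classical
  obtain ⟨x, hx⟩ := hF
  have : Nonempty E := ⟨x⟩
  obtain ⟨J', h1, h2⟩ := Set.exists_subset_card_eq (min_le_left J.ncard F.ncard)
  have h3 : J'.encard ≤ F.encard := by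
    rw [← (Set.toFinite J').cast_ncard_eq, ← (Set.toFinite F).cast_ncard_eq, h2]
    exact_mod_cast min_le_right _ _
  obtain ⟨f, f1, f2⟩ := (Set.toFinite J').exists_injOn_of_encard_le h3
  refine ⟨fun j => if f j ∈ F then f j else x, fun j => ?_, ?_⟩
  · by_cases h : f j ∈ F <;> simp [h, hx]
  · rw [← h2, ← f2.ncard_image]
    refine Set.ncard_le_ncard ?_
    rintro _ ⟨j, hj, rfl⟩
    exact ⟨j, h1 hj, if_pos (f1 hj)⟩

theorem split {I : Type} [Finite I] (S : Set I) (m m' : ℕ) (h : S.ncard = m + m') :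
    ∃ A ⊆ S, A.ncard = m ∧ (S \ A).ncard = m' := by
  obtain ⟨A, h1, h2⟩ := Set.exists_subset_card_eq (show m ≤ S.ncard by omega)
  have := Set.ncard_sdiff_add_ncard_of_subset h1
  exact ⟨A, h1, h2, by omega⟩

theorem types {I : Type} [Finite I] (β : I → Fin 3) (n : Fin 6 → ℕ)
    (h0 : {j | β j = 0}.ncard = n 0 + n 1) (h1 : {j | β j = 1}.ncard = n 2 + n 3)
    (h2 : {j | β j = 2}.ncard = n 4 + n 5) :
    ∃ ty : I → Fin 6, (∀ i, {j | ty j = i}.ncard = n i) ∧ ∀ j, (β j = 0 → ty j = 0 ∨ ty j = 1) ∧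
      (β j = 1 → ty j = 2 ∨ ty j = 3) ∧ (β j = 2 → ty j = 4 ∨ ty j = 5) := by
  classical
  obtain ⟨A, a1, a2, a3⟩ := split _ _ _ h0
  obtain ⟨B, b1, b2, b3⟩ := split _ _ _ h1
  obtain ⟨C, c1, c2, c3⟩ := split _ _ _ h2
  have tri : ∀ x : Fin 3, x = 0 ∨ x = 1 ∨ x = 2 := by decide
  refine ⟨fun j => if β j = 0 then (if j ∈ A then 0 else 1) else if β j = 1 then
    (if j ∈ B then 2 else 3) else (if j ∈ C then 4 else 5), fun i => ?_, fun j => ?_⟩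
  · have a1' : ∀ j, j ∈ A → β j = 0 := fun j h => a1 h
    have b1' : ∀ j, j ∈ B → β j = 1 := fun j h => b1 h
    have c1' : ∀ j, j ∈ C → β j = 2 := fun j h => c1 h
    fin_cases i
    all_goals
      first
        | refine Eq.trans ?_ a2 | refine Eq.trans ?_ a3 | refine Eq.trans ?_ b2
        | refine Eq.trans ?_ b3 | refine Eq.trans ?_ c2 | refine Eq.trans ?_ c3
      congr 1
      ext j
      have := a1' j
      have := b1' j
      have := c1' j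
      by_cases hA : j ∈ A <;> by_cases hB : j ∈ B <;> by_cases hC : j ∈ C <;>
        rcases tri (β j) with h | h | h <;> simp_all
  · by_cases hA : j ∈ A <;> by_cases hB : j ∈ B <;> by_cases hC : j ∈ C <;>
      rcases tri (β j) with h | h | h <;> simp_all

theorem paint {E E0 : Type} [Finite E] (π : E → E0) (X : Set E) (adj : E0 → E0 → Prop)
    (col : E0 → Prop) (h1 : ∀ x, {e | e ∈ X ∧ π e = x}.ncard ≤ 2)
    (h2 : ∀ x y, x ≠ y → adj x y → 1 ≤ {e | e ∈ X ∧ π e = x}.ncard →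
      1 ≤ {e | e ∈ X ∧ π e = y}.ncard → {e | e ∈ X ∧ π e = x}.ncard ≤ 1 ∧
      {e | e ∈ X ∧ π e = y}.ncard ≤ 1 ∧ (col x ↔ ¬ col y)) :
    ∃ d : E → Bool, ∀ e ∈ X, ∀ e' ∈ X, e ≠ e' → adj (π e) (π e') → d e ≠ d e' := by
  classical
  have hch : ∀ e, ∃ c, (e ∈ X → c ∈ X ∧ π c = π e) := fun e => ⟨e, fun h => ⟨h, rfl⟩⟩
  let ch : E0 → Option E := fun x => if h : ∃ e, e ∈ X ∧ π e = x then some h.choose else none
  refine ⟨fun e => if {z | z ∈ X ∧ π z = π e}.ncard ≤ 1 then decide (col (π e))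
    else decide (ch (π e) = some e), fun e he e' he' n a => ?_⟩
  have pos : ∀ z ∈ X, 1 ≤ {y | y ∈ X ∧ π y = π z}.ncard := fun z hz =>
    (Set.ncard_pos (Set.toFinite _)).2 ⟨z, hz, rfl⟩
  by_cases q : π e = π e'
  · have sub : ({e, e'} : Set E) ⊆ {z | z ∈ X ∧ π z = π e} := by
      rintro x (rfl | rfl)
      · exact ⟨he, rfl⟩
      · exact ⟨he', q.symm⟩
    have two := Set.ncard_pair n
    have le := Set.ncard_le_ncard sub
    have eq := Set.eq_of_subset_of_ncard_le sub (by rw [two]; exact h1 _)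
    have ex : ∃ z, z ∈ X ∧ π z = π e := ⟨e, he, rfl⟩
    have mem : ex.choose ∈ ({e, e'} : Set E) := by rw [eq]; exact ex.choose_spec
    have hc : ch (π e) = some ex.choose := dif_pos ex
    simp only [← q]
    rw [if_neg (by omega), if_neg (by omega), hc]
    rcases mem with m | m
    · simp [m, n]
    · rw [Set.mem_singleton_iff] at m
      simp [m, n.symm]
  · obtain ⟨u1, u2, u3⟩ := h2 _ _ q a (pos e he) (pos e' he')
    simp only [if_pos u1, if_pos u2, ne_eq, decide_eq_decide]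
    tauto

def P2 (g : Fin 6 → ℕ) (p a b c d : Fin 6) : Prop :=
  (a ≠ b ∧ c ≠ d ∧ c ≠ a ∧ c ≠ b ∧ d ≠ a ∧ d ≠ b ∧ g a + g b ≤ 2 ∧ g c + g d ≤ 2) →
    g a + g b = 2 ∧ ((p = a ∨ p = b) ↔ ¬ (p = c ∨ p = d))

def P3 (g : Fin 6 → ℕ) (p q : Fin 6) (w : ℕ) (c d : Fin 6) : Prop :=
  (1 ≤ w ∧ c ≠ d ∧ c ≠ 0 ∧ c ≠ 1 ∧ d ≠ 0 ∧ d ≠ 1 ∧ g c + g d ≤ 2 ∧
    (((2 = c ∨ 2 = d) ↔ (q = c ∨ q = d)) ∨ ((2 = c ∨ 2 = d) ↔ (3 = c ∨ 3 = d)))) →
    w = 1 ∧ g c + g d = 2 ∧ ((p = 0 ∨ p = 1) ↔ ¬ (p = c ∨ p = d))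

set_option synthInstance.maxSize 4096 in
instance (g : Fin 6 → ℕ) (p a b c d : Fin 6) : Decidable (P2 g p a b c d) := by
  unfold P2
  infer_instance

set_option synthInstance.maxSize 4096 in
instance (g : Fin 6 → ℕ) (p q : Fin 6) (w : ℕ) (c d : Fin 6) : Decidable (P3 g p q w c d) := by
  unfold P3
  infer_instance

/-- the finite conditions on the shifted numbers of matchings of each type -/
def Ok (g : Fin 6 → ℕ) (p q : Fin 6) (w : ℕ) : Prop :=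
  (∀ a b, a ≠ b → 1 ≤ g a + g b) ∧ (∀ a b c d, P2 g p a b c d) ∧ w ≤ 2 ∧ ∀ c d, P3 g p q w c d

set_option synthInstance.maxSize 4096 in
instance (g : Fin 6 → ℕ) (p q : Fin 6) (w : ℕ) : Decidable (Ok g p q w) := by
  unfold Ok
  infer_instance

theorem ok1 : ∀ q, ∀ w ≤ 0, Ok ![2, 2, 0, 1, 2, 1] 2 q w ∧ Ok ![2, 2, 1, 0, 2, 1] 3 q w ∧
    Ok ![2, 2, 2, 1, 0, 1] 4 q w ∧ Ok ![2, 2, 2, 1, 1, 0] 5 q w ∧ Ok ![2, 2, 1, 1, 1, 1] 2 q w := by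
  decide +kernel

theorem ok2 : ∀ q, ∀ w ≤ 1, Ok ![2, 1, 1, 1, 2, 1] 1 q w ∧ Ok ![2, 1, 2, 1, 1, 1] 1 q w := by
  decide +kernel

theorem ok3 : ∀ q, q ≠ 0 → q ≠ 1 → q ≠ 2 → ∀ w ≤ 2, (q ≠ 4 → Ok ![1, 1, 2, 1, 2, 1] 0 q w) ∧
    (q = 4 → Ok ![1, 1, 2, 1, 1, 2] 0 q w) := by
  decide +kernel

/-- the choice of the numbers of matchings of each type -/
theorem arith (k : Fin 6 → ℕ) (u0 u1 u2 x : ℕ) (q : Fin 6) (q0 : q ≠ 0) (q1 : q ≠ 1) (q2 : q ≠ 2)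
    (hs : u0 + u1 + u2 = k 0 + k 1 + k 2 + k 3 + k 4 + k 5 + 2) (hx : x ≤ k 0 + k 1 + 1)
    (h0 : u0 ≤ x + 1) (h0' : x ≤ u0) (h1 : u1 ≤ k 2 + k 3 + 1) (h2 : u2 ≤ k 4 + k 5 + 1) :
    ∃ (n g : Fin 6 → ℕ) (p : Fin 6), (∀ i, n i + 1 = k i + g i) ∧ u0 = n 0 + n 1 ∧
      u1 = n 2 + n 3 ∧ u2 = n 4 + n 5 ∧ Ok g p q (k 0 + k 1 + 1 - x) := by
  have key : ∀ (g : Fin 6 → ℕ) (p : Fin 6), (1 ≤ k 0 + g 0 ∧ 1 ≤ k 1 + g 1 ∧ 1 ≤ k 2 + g 2 ∧
      1 ≤ k 3 + g 3 ∧ 1 ≤ k 4 + g 4 ∧ 1 ≤ k 5 + g 5 ∧ u0 + 2 = k 0 + k 1 + g 0 + g 1 ∧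
      u1 + 2 = k 2 + k 3 + g 2 + g 3 ∧ u2 + 2 = k 4 + k 5 + g 4 + g 5) →
      Ok g p q (k 0 + k 1 + 1 - x) →
      ∃ (n g : Fin 6 → ℕ) (p : Fin 6), (∀ i, n i + 1 = k i + g i) ∧ u0 = n 0 + n 1 ∧
        u1 = n 2 + n 3 ∧ u2 = n 4 + n 5 ∧ Ok g p q (k 0 + k 1 + 1 - x) := by
    intro g p h ok
    refine ⟨fun i => k i + g i - 1, g, p, fun i => ?_, by dsimp only; omega,
      by dsimp only; omega, by dsimp only; omega, ok⟩
    fin_cases i <;> simp <;> omega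
  by_cases c0 : u0 = k 0 + k 1 + 2
  · obtain ⟨o1, o2, o3, o4, o5⟩ := ok1 q (k 0 + k 1 + 1 - x) (by omega)
    by_cases c1 : u1 = k 2 + k 3
    · exact key _ _ (by simp; omega) o5
    by_cases c2 : u2 = k 4 + k 5 + 1
    · by_cases c3 : 1 ≤ k 2
      · exact key _ _ (by simp; omega) o1
      · exact key _ _ (by simp; omega) o2
    · by_cases c3 : 1 ≤ k 4
      · exact key _ _ (by simp; omega) o3
      · exact key _ _ (by simp; omega) o4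
  by_cases c1 : u0 = k 0 + k 1 + 1
  · obtain ⟨o6, o7⟩ := ok2 q (k 0 + k 1 + 1 - x) (by omega)
    by_cases c2 : u1 = k 2 + k 3
    · exact key _ _ (by simp; omega) o6
    · exact key _ _ (by simp; omega) o7
  · obtain ⟨o6, o7⟩ := ok3 q q0 q1 q2 (k 0 + k 1 + 1 - x) (by omega)
    by_cases c2 : q = 4
    · exact key _ _ (by simp; omega) (o7 c2)
    · exact key _ _ (by simp; omega) (o6 c2)

end Pool.Agent.Lib.MP_ba72f5_co.Fulk
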