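import Pool.Agent.Lib.MP_ba72f5_co.GlueDefs

set_option autoImplicit false

namespace Pool.Agent.Lib.MP_ba72f5_co.Cover

variable {V E : Type} {t : ℕ}

def Few (ψ : Fin t → E) : Prop := t ≤ (Set.range ψ).ncard + 1

def Ans (ends : E → Sym2 V) (φ : Fin t → E) : Prop :=
  ∃ M : Fin t → Set E, (∀ j, PerfectMatching ends (M j)) ∧ (∀ j, φ j ∈ M j) ∧
    (∀ u (ψ : Fin t → E), (∀ j, ψ j ∈ M j ∧ u ∈ ends (ψ j)) → Few ψ) ∧
    ∃ d : E → Bool, ∀ u e e', u ∈ ends e → u ∈ ends e' → e ≠ e' → (∀ j, e ∉ M j) →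
      (∀ j, e' ∉ M j) → d e ≠ d e'

def Inv (t : ℕ) (ends : E → Sym2 V) : Prop :=
  ∀ v (φ : Fin t → E), (∀ j, v ∈ ends (φ j)) → Few φ → Ans ends φ

lemma few_comp {E' : Type} {g : E' → E} (hg : Function.Injective g) {ψ : Fin t → E'}
    {φ : Fin t → E} (h : ∀ j, g (ψ j) = φ j) : Few φ ↔ Few ψ := by
  obtain rfl : φ = g ∘ ψ := funext fun j => (h j).symm
  unfold Few
  rw [Set.range_comp, Set.ncard_image_of_injective _ hg]

lemma two_col (f g : V → V) (hf : ∀ v, f (f v) = v) (hg : ∀ v, g (g v) = v)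
    (hf' : ∀ v, f v ≠ v) (hg' : ∀ v, g v ≠ v) :
    ∃ c : V → Bool, ∀ v, c v ≠ c (f v) ∧ c v ≠ c (g v) := by
  classical
  let F : Equiv.Perm V := Function.Involutive.toPerm f hf
  let G : Equiv.Perm V := Function.Involutive.toPerm g hg
  have hF : F * F = 1 := Equiv.ext hf
  have hG : G * G = 1 := Equiv.ext hg
  have h1 : F * (F * G) * F⁻¹ = (F * G)⁻¹ := by
    rw [← mul_assoc, hF, one_mul, mul_inv_rev, inv_eq_of_mul_eq_one_right hG]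
  have h2 : ∀ (n : ℤ) x, f (((F * G) ^ n) x) = ((F * G) ^ (-n)) (f x) := fun n x => by
    have h : F * (F * G) ^ n * F⁻¹ = (F * G) ^ (-n) := by
      rw [← conj_zpow, h1, inv_zpow']
    have := congrArg (fun p : Equiv.Perm V => p (F x)) h
    simp only [Equiv.Perm.mul_apply, Equiv.Perm.inv_def, Equiv.symm_apply_apply] at this
    exact this
  have h3 : ∀ x, (F * G) (g x) = f x := fun x => congrArg f (hg x)
  have h4 : ∀ x, ¬ (F * G).SameCycle x (f x) := by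
    rintro x ⟨n, hn⟩
    obtain ⟨m, rfl | rfl⟩ := Int.even_or_odd' n
    · refine hf' (((F * G) ^ m) x) ?_
      rw [h2, ← hn, ← Equiv.Perm.mul_apply, ← zpow_add]
      congr 2; ring
    · refine hg' (((F * G) ^ m) x) ?_
      have : g (((F * G) ^ m) x) = f (((F * G) ^ (1 + m)) x) := by
        rw [zpow_add, zpow_one, Equiv.Perm.mul_apply]
        exact (hf _).symm
      rw [this, h2, ← hn, ← Equiv.Perm.mul_apply, ← zpow_add]
      congr 2; ring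
  let q : V → Quotient (Equiv.Perm.SameCycle.setoid (F * G)) := Quotient.mk _
  let _ : LinearOrder (Quotient (Equiv.Perm.SameCycle.setoid (F * G))) :=
    linearOrderOfSTO WellOrderingRel
  have h5 : ∀ x, q x ≠ q (f x) := fun x h => h4 x (Quotient.exact h)
  have h6 : ∀ x, q (g x) = q (f x) := fun x => Quotient.sound ⟨1, by rw [zpow_one, h3]⟩
  have h7 : ∀ x, q (f (g x)) = q x := fun x => by rw [← h6, hg]
  refine ⟨fun x => decide (q x < q (f x)), fun v => ⟨?_, ?_⟩⟩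
  · simp only [hf, ne_eq, decide_eq_decide]
    intro h
    rcases lt_or_gt_of_ne (h5 v) with h' | h'
    · exact lt_asymm h' (h.1 h')
    · exact lt_asymm h' (h.2 h')
  · simp only [h6, h7, ne_eq, decide_eq_decide]
    intro h
    rcases lt_or_gt_of_ne (h5 v) with h' | h'
    · exact lt_asymm h' (h.1 h')
    · exact lt_asymm h' (h.2 h')

lemma two_col' (f g : V → V) (hf : ∀ v, f (f v) = v) (hg : ∀ v, g (g v) = v) :
    ∃ c : V → Bool, ∀ v, (f v ≠ v → c v ≠ c (f v)) ∧ (g v ≠ v → c v ≠ c (g v)) := by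
  classical
  have key : ∀ f : V → V, (∀ v, f (f v) = v) → ∃ F : V × Bool → V × Bool, (∀ x, F (F x) = x) ∧
      (∀ x, F x ≠ x) ∧ ∀ v, f v ≠ v → F (v, true) = (f v, true) := fun f hf => by
    refine ⟨fun x => if f x.1 = x.1 then (x.1, !x.2) else (f x.1, x.2), ?_, ?_, fun v h => ?_⟩
    · rintro ⟨v, b⟩
      by_cases h : f v = v
      · simp [h]
      · simp [h, hf, Ne.symm h]
    · rintro ⟨v, b⟩
      by_cases h : f v = v
      · simp [h]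
      · simp [h]
    · simp [h]
  obtain ⟨F, f1, f2, f3⟩ := key f hf
  obtain ⟨G, g1, g2, g3⟩ := key g hg
  obtain ⟨c, hc⟩ := two_col F G f1 g1 f2 g2
  refine ⟨fun v => c (v, true), fun v => ⟨fun h => ?_, fun h => ?_⟩⟩
  · have := (hc (v, true)).1
    rwa [f3 v h] at this
  · have := (hc (v, true)).2
    rwa [g3 v h] at this

lemma m_inv {ends : E → Sym2 V} {M : Set E}
    (hM : ∀ u, ∀ e ∈ M, ∀ e' ∈ M, u ∈ ends e → u ∈ ends e' → e = e') :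
    ∃ f : V → V, (∀ v, f (f v) = v) ∧ ∀ e ∈ M, ∀ a b, ends e = s(a, b) → f a = b := by
  classical
  have h4 : ∀ e ∈ M, ∀ a b, ends e = s(a, b) → ∀ h : ∃ w, ∃ e ∈ M, ends e = s(a, w),
      h.choose = b := fun e he a b hab h => by
    obtain ⟨e', h1, h2⟩ := h.choose_spec
    have := hM a e he e' h1 (hab ▸ Sym2.mem_mk_left _ _) (h2 ▸ Sym2.mem_mk_left _ _)
    rw [← this, hab] at h2
    exact (Sym2.congr_right.1 h2).symm
  have h5 : ∀ e ∈ M, ∀ a b, ends e = s(a, b) →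
      (if h : ∃ w, ∃ e ∈ M, ends e = s(a, w) then h.choose else a) = b := fun e he a b hab => by
    rw [dif_pos ⟨b, e, he, hab⟩]; exact h4 e he a b hab _
  refine ⟨fun a => if h : ∃ w, ∃ e ∈ M, ends e = s(a, w) then h.choose else a, fun v => ?_, h5⟩
  by_cases h : ∃ w, ∃ e ∈ M, ends e = s(v, w)
  · obtain ⟨w, e, he, hw⟩ := h
    beta_reduce
    rw [h5 e he v w hw]
    exact h5 e he w v (hw.trans Sym2.eq_swap)
  · simp only [dif_neg h]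

lemma Ans.final {ends : E → Sym2 V} {φ : Fin t → E} (h : Ans ends φ) :
    ∃ M : Fin t → Set E, (∀ i, PerfectMatching ends (M i)) ∧
      ∀ (v : V) (w : (SimpleGraph.fromEdgeSet (ends '' {e | ∀ i, e ∉ M i})).Walk v v),
        w.IsCycle → Even w.length := by
  obtain ⟨M, h1, -, -, d, hd⟩ := h
  have hm : ∀ b : Bool, ∀ u, ∀ e ∈ {e | (∀ j, e ∉ M j) ∧ d e = b},
      ∀ e' ∈ {e | (∀ j, e ∉ M j) ∧ d e = b}, u ∈ ends e → u ∈ ends e' → e = e' := by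
    intro b u e he e' he' a1 a2
    by_contra hn
    exact hd u e e' a1 a2 hn he.1 he'.1 (he.2.trans he'.2.symm)
  obtain ⟨f, f1, f2⟩ := m_inv (hm true)
  obtain ⟨g, g1, g2⟩ := m_inv (hm false)
  obtain ⟨c, hc⟩ := two_col' f g f1 g1
  refine ⟨M, h1, fun v w _ => ?_⟩
  have : (SimpleGraph.fromEdgeSet (ends '' {e | ∀ i, e ∉ M i})).Colorable 2 := by
    have C : (SimpleGraph.fromEdgeSet (ends '' {e | ∀ i, e ∉ M i})).Coloring Bool := by
      refine SimpleGraph.Coloring.mk c fun {a b} hab => ?_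
      obtain ⟨⟨e, he, hab⟩, hne⟩ := (SimpleGraph.fromEdgeSet_adj _).1 hab
      cases hde : d e
      · have := g2 e ⟨he, hde⟩ a b hab
        exact this ▸ (hc a).2 (this ▸ hne.symm)
      · have := f2 e ⟨he, hde⟩ a b hab
        exact this ▸ (hc a).1 (this ▸ hne.symm)
    simpa using C.colorable
  exact SimpleGraph.two_colorable_iff_forall_loop_even.1 this v w

lemma inv_colour {V' E' : Type} {ends : E → Sym2 V} {ends' : E' → Sym2 V'} (f : E → E')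
    (hf : ∀ v, ∃ w, Set.BijOn f {e | v ∈ ends e} {e | w ∈ ends' e}) (h : Inv t ends') :
    Inv t ends := by
  intro v φ hv hφ
  obtain ⟨w, hw⟩ := hf v
  obtain ⟨M, m1, m2, m3, d, m4⟩ := h w (f ∘ φ) (fun j => hw.1 (hv j)) (by
    unfold Few at hφ ⊢
    have : Set.range φ ⊆ {e | v ∈ ends e} := by
      rintro _ ⟨j, rfl⟩
      exact hv j
    rwa [Set.range_comp, Set.InjOn.ncard_image (hw.2.1.mono this)])
  refine ⟨fun j => f ⁻¹' M j, fun j u => ?_, m2, fun u ψ hψ => ?_, d ∘ f,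
    fun u e e' a1 a2 a3 a4 a5 => ?_⟩
  · obtain ⟨x, hx⟩ := hf u
    obtain ⟨e', ⟨a1, a2⟩, a3⟩ := m1 j x
    obtain ⟨e, b1, rfl⟩ := hx.2.2 a2
    exact ⟨e, ⟨a1, b1⟩, fun y ⟨c1, c2⟩ => hx.2.1 c2 b1 (a3 _ ⟨c1, hx.1 c2⟩)⟩
  · obtain ⟨x, hx⟩ := hf u
    have h1 := m3 x (f ∘ ψ) fun j => ⟨(hψ j).1, hx.1 (hψ j).2⟩
    have h2 := Set.ncard_image_le (f := f) (Set.finite_range ψ)
    unfold Few at h1 ⊢
    rw [Set.range_comp] at h1
    omega
  · obtain ⟨x, hx⟩ := hf u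
    exact m4 x _ _ (hx.1 a1) (hx.1 a2) (fun h => a3 (hx.2.1 a1 a2 h)) a4 a5

lemma inv_one {ends : E → Sym2 V} (col : E → Fin (t + 1))
    (h : ∀ i, PerfectMatching ends {e | col e = i}) : Inv t ends := by
  intro v φ hv hφ
  have h1 : (Set.range φ).ncard = (Set.range (col ∘ φ)).ncard := by
    rw [Set.range_comp, Set.InjOn.ncard_image]
    rintro _ ⟨i, rfl⟩ _ ⟨j, rfl⟩ hij
    exact (h (col (φ j)) v).unique ⟨hij, hv i⟩ ⟨rfl, hv j⟩
  refine ⟨fun j => {e | col e = col (φ j)}, fun j => h _, fun j => rfl, fun u ψ hψ => ?_, ?_⟩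
  · have h2 : col ∘ φ = col ∘ ψ := funext fun j => (hψ j).1.symm
    have h3 := Set.ncard_image_le (f := col) (Set.finite_range ψ)
    rw [← Set.range_comp, ← h2, ← h1] at h3
    unfold Few at hφ ⊢
    omega
  · have h2 := Set.ncard_add_ncard_compl (Set.range (col ∘ φ))
    rw [Nat.card_eq_fintype_card, Fintype.card_fin, ← h1] at h2
    obtain ⟨i1, i2, h3⟩ : ∃ i1 i2, ∀ i ∉ Set.range (col ∘ φ), i = i1 ∨ i = i2 := by
      by_contra hc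
      push Not at hc
      obtain ⟨a, ha, -, -⟩ := hc 0 0
      obtain ⟨b, hb, hba, -⟩ := hc a a
      obtain ⟨c, hc', hca, hcb⟩ := hc a b
      have h4 : ({a, b, c} : Set (Fin (t + 1))) ⊆ (Set.range (col ∘ φ))ᶜ := by
        rintro x (rfl | rfl | rfl) <;> assumption
      have h5 := Set.ncard_le_ncard h4
      rw [Set.ncard_eq_three.2 ⟨a, b, c, hba.symm, hca.symm, hcb.symm, rfl⟩] at h5
      unfold Few at hφ
      omega
    refine ⟨fun e => decide (col e = i1), fun u e e' a1 a2 a3 a4 a5 h4 => a3 ?_⟩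
    have h5 := h3 (col e) (by rintro ⟨j, hj⟩; exact a4 j hj.symm)
    have h6 := h3 (col e') (by rintro ⟨j, hj⟩; exact a5 j hj.symm)
    have h7 : col e = col e' := by
      have h8 := decide_eq_decide.1 h4
      rcases h5 with h5 | h5
      · exact h5.trans (h8.1 h5).symm
      · rcases h6 with h6 | h6
        · exact (h8.2 h6).trans h6.symm
        · exact h5.trans h6.symm
    exact (h (col e') u).unique ⟨h7, a1⟩ ⟨rfl, a2⟩

section glue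
variable {V₁ E₁ : Type} {ends : E → Sym2 V} {X : Set V} {ends₁ : E₁ → Sym2 V₁} {f : V → V₁}
  {w : V₁} {g : E₁ → E}

lemma sh_mem (hb : Set.BijOn f X {w}ᶜ) (hw : ∀ v ∉ X, f v = w)
    (he : ∀ e, ends₁ e = (ends (g e)).map f) {u : V} (hu : u ∈ X) (e : E₁) :
    f u ∈ ends₁ e ↔ u ∈ ends (g e) := by
  rw [he, Sym2.mem_map]
  refine ⟨fun ⟨a, ha, h⟩ => ?_, fun h => ⟨u, h, rfl⟩⟩
  have : a ∈ X := by
    by_contra hn
    exact hb.1 hu (h.symm.trans (hw a hn))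
  rwa [← hb.2.1 this hu h]

lemma sh_w (hb : Set.BijOn f X {w}ᶜ) (hw : ∀ v ∉ X, f v = w)
    (he : ∀ e, ends₁ e = (ends (g e)).map f) (e : E₁) :
    w ∈ ends₁ e ↔ ∃ u ∉ X, u ∈ ends (g e) := by
  rw [he, Sym2.mem_map]
  exact ⟨fun ⟨a, ha, h⟩ => ⟨a, fun hx => hb.1 hx h, ha⟩, fun ⟨a, h1, h2⟩ => ⟨a, h2, hw a h1⟩⟩

/-- what the glued matchings look like from the side `X` -/
lemma side (hb : Set.BijOn f X {w}ᶜ) (hw : ∀ v ∉ X, f v = w) (hg : Function.Injective g)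
    (he : ∀ e, ends₁ e = (ends (g e)).map f) {M₁ : Fin t → Set E₁} {M : Fin t → Set E}
    (h1 : ∀ j, PerfectMatching ends₁ (M₁ j))
    (h2 : ∀ u (ψ : Fin t → E₁), (∀ j, ψ j ∈ M₁ j ∧ u ∈ ends₁ (ψ j)) → Few ψ)
    (hM : ∀ j e, ∀ u ∈ X, u ∈ ends e → (e ∈ M j ↔ e ∈ g '' M₁ j)) {u : V} (hu : u ∈ X) :
    (∀ j, ∃! e, e ∈ M j ∧ u ∈ ends e) ∧
      ∀ ψ : Fin t → E, (∀ j, ψ j ∈ M j ∧ u ∈ ends (ψ j)) → Few ψ := by
  refine ⟨fun j => ?_, fun ψ hψ => ?_⟩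
  · obtain ⟨e, ⟨a1, a2⟩, a3⟩ := h1 j (f u)
    have a4 := (sh_mem hb hw he hu e).1 a2
    refine ⟨g e, ⟨(hM j _ u hu a4).2 ⟨e, a1, rfl⟩, a4⟩, fun e' ⟨b1, b2⟩ => ?_⟩
    obtain ⟨e'', b3, rfl⟩ := (hM j _ u hu b2).1 b1
    rw [a3 e'' ⟨b3, (sh_mem hb hw he hu _).2 b2⟩]
  · choose χ c1 c2 using fun j => (hM j _ u hu (hψ j).2).1 (hψ j).1
    exact (few_comp hg c2).2 (h2 (f u) χ fun j =>
      ⟨c1 j, (sh_mem hb hw he hu _).2 ((c2 j).symm ▸ (hψ j).2)⟩)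

end glue

lemma glue_half {V₁ E₁ V₂ E₂ : Type} {ends : E → Sym2 V} {X : Set V} {ends₁ : E₁ → Sym2 V₁}
    {ends₂ : E₂ → Sym2 V₂} (s1 : Shrink ends X ends₁) (s2 : Shrink ends Xᶜ ends₂)
    (i1 : Inv t ends₁) (i2 : Inv t ends₂) {v : V} (hv : v ∈ X) (φ : Fin t → E)
    (h : ∀ j, v ∈ ends (φ j)) (hφ : Few φ) : Ans ends φ := by
  classical
  obtain ⟨f1, w1, g1, b1, o1, j1, r1, e1⟩ := s1
  obtain ⟨f2, w2, g2, b2, o2, j2, r2, e2⟩ := s2
  have q1 : ∀ e, ∀ u ∈ X, u ∈ ends e → ∃ e', g1 e' = e := fun e u hu he =>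
    r1.symm.subset ⟨u, hu, he⟩
  have q2 : ∀ e, ∀ u ∉ X, u ∈ ends e → ∃ e', g2 e' = e := fun e u hu he =>
    r2.symm.subset ⟨u, hu, he⟩
  choose φ1 hφ1 using fun j => q1 _ v hv (h j)
  obtain ⟨M1, m1, m2, m3, c1, m4⟩ := i1 (f1 v) φ1
    (fun j => (sh_mem b1 o1 e1 hv _).2 ((hφ1 j).symm ▸ h j)) ((few_comp j1 hφ1).1 hφ)
  choose ψ1 p1 p2 using fun j => m1 j w1
  have p3 : ∀ j, ∃ e', g2 e' = g1 (ψ1 j) := fun j => by
    obtain ⟨u, hu, he⟩ := (sh_w b1 o1 e1 _).1 (p1 j).2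
    exact q2 _ u hu he
  choose ψ2 p4 using p3
  have p5 : ∀ j, w2 ∈ ends₂ (ψ2 j) := fun j => by
    obtain ⟨u, hu, he⟩ : ∃ u ∈ X, u ∈ ends (g1 (ψ1 j)) := r1.subset ⟨ψ1 j, rfl⟩
    exact (sh_w b2 o2 e2 _).2 ⟨u, fun h => h hu, (p4 j).symm ▸ he⟩
  obtain ⟨M2, n1, n2, n3, c2', n4'⟩ := i2 w2 ψ2 p5
    ((few_comp j2 p4).1 ((few_comp j1 fun _ => rfl).2 (m3 w1 ψ1 p1)))
  obtain ⟨c2, n4, n5⟩ : ∃ c2 : E₂ → Bool, (∀ u e e', u ∈ ends₂ e → u ∈ ends₂ e' → e ≠ e' →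
      (∀ j, e ∉ M2 j) → (∀ j, e' ∉ M2 j) → c2 e ≠ c2 e') ∧ ∀ a b, g1 a = g2 b →
      (∀ j, a ∉ M1 j) → (∀ j, b ∉ M2 j) → c1 a = c2 b := by
    have cut : ∀ a b, g1 a = g2 b → w1 ∈ ends₁ a ∧ w2 ∈ ends₂ b := fun a b hab => by
      obtain ⟨u, hu, he⟩ : ∃ u ∈ X, u ∈ ends (g1 a) := r1.subset ⟨a, rfl⟩
      obtain ⟨u', hu', he'⟩ : ∃ u ∈ Xᶜ, u ∈ ends (g2 b) := r2.subset ⟨b, rfl⟩
      exact ⟨(sh_w b1 o1 e1 _).2 ⟨u', hu', hab ▸ he'⟩,
        (sh_w b2 o2 e2 _).2 ⟨u, fun h => h hu, hab ▸ he⟩⟩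
    by_cases hc : ∃ a b, g1 a = g2 b ∧ (∀ j, a ∉ M1 j) ∧ (∀ j, b ∉ M2 j) ∧ c1 a ≠ c2' b
    · obtain ⟨a0, b0, z1, z2, z3, z4⟩ := hc
      refine ⟨fun x => !c2' x, fun u e e' a1 a2 a3 a4 a5 h =>
        n4' u e e' a1 a2 a3 a4 a5 (by simpa using h), fun a b y1 y2 y3 => ?_⟩
      by_cases hab : a = a0
      · obtain rfl : b = b0 := j2 (by rw [← y1, hab, z1])
        rw [hab]
        beta_reduce
        revert z4
        cases c1 a0 <;> cases c2' b <;> simp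
      · have x1 := m4 w1 a a0 (cut _ _ y1).1 (cut _ _ z1).1 hab y2 z2
        have x2 := n4' w2 b b0 (cut _ _ y1).2 (cut _ _ z1).2
          (fun h => hab (j1 (by rw [y1, h, z1]))) y3 z3
        beta_reduce
        revert x1 x2 z4
        cases c1 a <;> cases c1 a0 <;> cases c2' b <;> cases c2' b0 <;> simp
    · push Not at hc
      exact ⟨c2', n4', hc⟩
  have k1 : ∀ j e, ∀ u ∈ X, u ∈ ends e → (e ∈ g1 '' M1 j ∪ g2 '' M2 j ↔ e ∈ g1 '' M1 j) := by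
    refine fun j e u hu he => ⟨?_, Or.inl⟩
    rintro (h | ⟨e', h1, rfl⟩)
    · exact h
    · have := (n1 j w2).unique ⟨h1, (sh_w b2 o2 e2 _).2 ⟨u, fun h => h hu, he⟩⟩ ⟨n2 j, p5 j⟩
      exact ⟨ψ1 j, (p1 j).1, by rw [this, p4]⟩
  have k2 : ∀ j e, ∀ u ∈ Xᶜ, u ∈ ends e → (e ∈ g1 '' M1 j ∪ g2 '' M2 j ↔ e ∈ g2 '' M2 j) := by
    refine fun j e u hu he => ⟨?_, Or.inr⟩
    rintro (⟨e', h1, rfl⟩ | h)
    · have := p2 j e' ⟨h1, (sh_w b1 o1 e1 _).2 ⟨u, hu, he⟩⟩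
      exact ⟨ψ2 j, n2 j, by rw [this, p4]⟩
    · exact h
  have t1 := fun u hu => side (u := u) b1 o1 j1 e1 m1 m3 k1 hu
  have t2 := fun u hu => side (u := u) b2 o2 j2 e2 n1 n3 k2 hu
  refine ⟨fun j => g1 '' M1 j ∪ g2 '' M2 j, fun j u => ?_, fun j => Or.inl ⟨_, m2 j, hφ1 j⟩,
    fun u => ?_, Function.extend g1 c1 (Function.extend g2 c2 fun _ => true),
    fun u e e' a1 a2 a3 a4 a5 => ?_⟩
  · by_cases hu : u ∈ X
    · exact (t1 u hu).1 j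
    · exact (t2 u hu).1 j
  · by_cases hu : u ∈ X
    · exact (t1 u hu).2
    · exact (t2 u hu).2
  · by_cases hu : u ∈ X
    · obtain ⟨x, rfl⟩ := q1 e u hu a1
      obtain ⟨y, rfl⟩ := q1 e' u hu a2
      rw [j1.extend_apply, j1.extend_apply]
      exact m4 (f1 u) x y ((sh_mem b1 o1 e1 hu _).2 a1) ((sh_mem b1 o1 e1 hu _).2 a2)
        (fun h => a3 (by rw [h])) (fun j hj => a4 j (Or.inl ⟨_, hj, rfl⟩))
        fun j hj => a5 j (Or.inl ⟨_, hj, rfl⟩)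
    · have ev : ∀ x, (∀ j, g2 x ∉ g1 '' M1 j ∪ g2 '' M2 j) →
          Function.extend g1 c1 (Function.extend g2 c2 fun _ => true) (g2 x) = c2 x := by
        intro x hx
        by_cases h : ∃ a, g1 a = g2 x
        · obtain ⟨a, ha⟩ := h
          rw [← n5 a x ha (fun j hj => hx j (Or.inl ⟨_, hj, ha⟩))
            fun j hj => hx j (Or.inr ⟨_, hj, rfl⟩), ← ha, j1.extend_apply]
        · rw [Function.extend_apply' _ _ _ h, j2.extend_apply]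
      obtain ⟨x, rfl⟩ := q2 e u hu a1
      obtain ⟨y, rfl⟩ := q2 e' u hu a2
      rw [ev x a4, ev y a5]
      exact n4 (f2 u) x y ((sh_mem b2 o2 e2 hu _).2 a1) ((sh_mem b2 o2 e2 hu _).2 a2)
        (fun h => a3 (by rw [h])) (fun j hj => a4 j (Or.inr ⟨_, hj, rfl⟩))
        fun j hj => a5 j (Or.inr ⟨_, hj, rfl⟩)

lemma inv_glue {V₁ E₁ V₂ E₂ : Type} {ends : E → Sym2 V} {X : Set V} {ends₁ : E₁ → Sym2 V₁}
    {ends₂ : E₂ → Sym2 V₂} (s1 : Shrink ends X ends₁) (s2 : Shrink ends Xᶜ ends₂)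
    (i1 : Inv t ends₁) (i2 : Inv t ends₂) : Inv t ends := fun v φ h hφ => by
  by_cases hv : v ∈ X
  · exact glue_half s1 s2 i1 i2 hv φ h hφ
  · exact glue_half s2 (by rwa [compl_compl]) i2 i1 hv φ h hφ

end Pool.Agent.Lib.MP_ba72f5_co.Cover
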