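import Pool.Agent.Lib.MP_ba72f5_co.FulkA
import Pool.Agent.Lib.MP_ba72f5_co.GlueA

set_option autoImplicit false

namespace Pool.Agent.Lib.MP_ba72f5_co.Fulk

open Pool.Agent.Lib.MP_ba72f5_co.Cover

theorem three {I Y : Type} [Finite I] (S : Set I) (f : I → Y) {a b c : Y} (ab : a ≠ b) (ac : a ≠ c)
    (bc : b ≠ c) (h : ∀ z ∈ S, f z = a ∨ f z = b ∨ f z = c) :
    S.ncard = {z | z ∈ S ∧ f z = a}.ncard + {z | z ∈ S ∧ f z = b}.ncard +
      {z | z ∈ S ∧ f z = c}.ncard := by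
  rw [← Set.ncard_union_eq, ← Set.ncard_union_eq]
  · congr 1
    ext z
    have := h z
    simp only [Set.mem_union, Set.mem_ofPred_eq]
    tauto
  · rw [Set.disjoint_left]
    rintro z (hz | hz) hz'
    · exact ac (hz.2.symm.trans hz'.2)
    · exact bc (hz.2.symm.trans hz'.2)
  · rw [Set.disjoint_left]
    exact fun z hz hz' => ab (hz.2.symm.trans hz'.2)

theorem add_le {I : Type} [Finite I] {A B F : Set I} (a : A ⊆ F) (b : B ⊆ F)
    (h : ∀ z ∈ A, z ∉ B) : A.ncard + B.ncard ≤ F.ncard := by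
  rw [← Set.ncard_union_eq (Set.disjoint_left.2 h)]
  exact Set.ncard_le_ncard (Set.union_subset a b)

variable {V E0 E : Type} {ends0 : E0 → Sym2 V} {N : Fin 6 → Set E0}

theorem same (pm : ∀ i, PerfectMatching ends0 (N i)) {x : V} {y y' : E0} {i : Fin 6}
    (h : x ∈ ends0 y) (h' : x ∈ ends0 y') (m : y ∈ N i) (m' : y' ∈ N i) : y = y' :=
  (pm i x).unique ⟨m, h⟩ ⟨m', h'⟩

/-- the types can be renamed so that the three edges at a vertex carry `01`, `23`, `45` -/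
theorem label (pm : ∀ i, PerfectMatching ends0 (N i))
    (two : ∀ y, ∃ a b, a ≠ b ∧ ∀ i, y ∈ N i ↔ i = a ∨ i = b) {x : V} {y : E0} (hy : x ∈ ends0 y) :
    ∃ (σ : Equiv.Perm (Fin 6)) (y1 y2 : E0), x ∈ ends0 y1 ∧ x ∈ ends0 y2 ∧
      (∀ i, y ∈ N (σ i) ↔ i = 0 ∨ i = 1) ∧ (∀ i, y1 ∈ N (σ i) ↔ i = 2 ∨ i = 3) ∧
      (∀ i, y2 ∈ N (σ i) ↔ i = 4 ∨ i = 5) := by
  have fresh : ∀ a b c d : Fin 6, ∃ i, i ≠ a ∧ i ≠ b ∧ i ≠ c ∧ i ≠ d := by decide +kernel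
  obtain ⟨a, b, ab, t0⟩ := two y
  obtain ⟨i, i1, i2, -⟩ := fresh a b a b
  obtain ⟨y1, ⟨m1, x1⟩, -⟩ := pm i x
  obtain ⟨c, d, cd, t1⟩ := two y1
  obtain ⟨j, j1, j2, j3, j4⟩ := fresh a b c d
  obtain ⟨y2, ⟨m2, x2⟩, -⟩ := pm j x
  obtain ⟨e, f, ef, t2⟩ := two y2
  have d01 : ∀ l, y ∈ N l → y1 ∉ N l := fun l h h' => by
    have := (t0 i).1 (same pm hy x1 h h' ▸ m1)
    tauto
  have d02 : ∀ l, y ∈ N l → y2 ∉ N l := fun l h h' => by
    have := (t0 j).1 (same pm hy x2 h h' ▸ m2)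
    tauto
  have d12 : ∀ l, y1 ∈ N l → y2 ∉ N l := fun l h h' => by
    have := (t1 j).1 (same pm x1 x2 h h' ▸ m2)
    tauto
  simp only [t0, t1, t2, not_or] at d01 d02 d12
  obtain ⟨ac, ad⟩ := d01 a (Or.inl rfl)
  obtain ⟨bc, bd⟩ := d01 b (Or.inr rfl)
  obtain ⟨ae, af⟩ := d02 a (Or.inl rfl)
  obtain ⟨be, bf⟩ := d02 b (Or.inr rfl)
  obtain ⟨ce, cf⟩ := d12 c (Or.inl rfl)
  obtain ⟨de, df⟩ := d12 d (Or.inr rfl)
  have inj : Function.Injective ![a, b, c, d, e, f] := by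
    have : List.Nodup (List.ofFn ![a, b, c, d, e, f]) := by simp [*]
    exact List.nodup_ofFn.1 this
  refine ⟨Equiv.ofBijective _ (Finite.injective_iff_bijective.1 inj), y1, y2, x1, x2, fun l => ?_,
    fun l => ?_, fun l => ?_⟩
  · rw [t0, ← inj.eq_iff (b := 0), ← inj.eq_iff (b := 1)]
    rfl
  · rw [t1, ← inj.eq_iff (b := 2), ← inj.eq_iff (b := 3)]
    rfl
  · rw [t2, ← inj.eq_iff (b := 4), ← inj.eq_iff (b := 5)]
    rfl

theorem at_vertex (pm : ∀ i, PerfectMatching ends0 (N i))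
    (two : ∀ y, ∃ a b, a ≠ b ∧ ∀ i, y ∈ N i ↔ i = a ∨ i = b) {v : V} {e0 e1 e2 : E0}
    (v0 : v ∈ ends0 e0) (v1 : v ∈ ends0 e1) (v2 : v ∈ ends0 e2)
    (n0 : ∀ i, e0 ∈ N i ↔ i = 0 ∨ i = 1) (n1 : ∀ i, e1 ∈ N i ↔ i = 2 ∨ i = 3)
    (n2 : ∀ i, e2 ∈ N i ↔ i = 4 ∨ i = 5) :
    e0 ≠ e1 ∧ e0 ≠ e2 ∧ e1 ≠ e2 ∧ ∀ y, v ∈ ends0 y → y = e0 ∨ y = e1 ∨ y = e2 := by
  refine ⟨fun h => ?_, fun h => ?_, fun h => ?_, fun y hy => ?_⟩
  · exact absurd ((n1 0).1 (h ▸ (n0 0).2 (Or.inl rfl))) (by decide)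
  · exact absurd ((n2 0).1 (h ▸ (n0 0).2 (Or.inl rfl))) (by decide)
  · exact absurd ((n2 2).1 (h ▸ (n1 2).2 (Or.inl rfl))) (by decide)
  · obtain ⟨a, b, -, h⟩ := two y
    have ha := (h a).2 (Or.inl rfl)
    have six : ∀ i : Fin 6, (i = 0 ∨ i = 1) ∨ (i = 2 ∨ i = 3) ∨ (i = 4 ∨ i = 5) := by decide
    rcases six a with q | q | q
    · exact Or.inl (same pm hy v0 ha ((n0 a).2 q))
    · exact Or.inr (Or.inl (same pm hy v1 ha ((n1 a).2 q)))
    · exact Or.inr (Or.inr (same pm hy v2 ha ((n2 a).2 q)))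

theorem val_le {t : ℕ} (π : E → E0) (φ : Fin t → E) (y : E0) :
    {z | z ∈ Set.range φ ∧ π z = y}.ncard ≤ {j | π (φ j) = y}.ncard := by
  refine le_trans (le_of_eq ?_) (Set.ncard_image_le (f := φ) (s := {j | π (φ j) = y}))
  congr 1
  ext z
  constructor
  · rintro ⟨⟨j, rfl⟩, h⟩
    exact ⟨j, h, rfl⟩
  · rintro ⟨j, h, rfl⟩
    exact ⟨⟨j, rfl⟩, h⟩

theorem idx_sum {t : ℕ} (f : Fin t → E0) {a b c : E0} (ab : a ≠ b) (ac : a ≠ c) (bc : b ≠ c)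
    (h : ∀ j, f j = a ∨ f j = b ∨ f j = c) :
    {j | f j = a}.ncard + {j | f j = b}.ncard + {j | f j = c}.ncard = t := by
  have := three Set.univ f ab ac bc fun j _ => h j
  simpa using this.symm

theorem core [Finite E] (pm : ∀ i, PerfectMatching ends0 (N i))
    (two : ∀ y, ∃ a b, a ≠ b ∧ ∀ i, y ∈ N i ↔ i = a ∨ i = b) (k : Fin 6 → ℕ) (π : E → E0)
    (hπ : ∀ y a b, a ≠ b → y ∈ N a → y ∈ N b → {e | π e = y}.ncard = k a + k b + 1) {t : ℕ}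
    (ht : t = k 0 + k 1 + k 2 + k 3 + k 4 + k 5 + 2) {v : V} {e0 e1 e2 : E0}
    (v0 : v ∈ ends0 e0) (v1 : v ∈ ends0 e1) (v2 : v ∈ ends0 e2)
    (n0 : ∀ i, e0 ∈ N i ↔ i = 0 ∨ i = 1) (n1 : ∀ i, e1 ∈ N i ↔ i = 2 ∨ i = 3)
    (n2 : ∀ i, e2 ∈ N i ↔ i = 4 ∨ i = 5) (φ : Fin t → E) (hφ : ∀ j, v ∈ ends0 (π (φ j)))
    (c0 : {j | π (φ j) = e0}.ncard ≤ {z | z ∈ Set.range φ ∧ π z = e0}.ncard + 1)
    (c1 : {j | π (φ j) = e1}.ncard ≤ {z | z ∈ Set.range φ ∧ π z = e1}.ncard)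
    (c2 : {j | π (φ j) = e2}.ncard ≤ {z | z ∈ Set.range φ ∧ π z = e2}.ncard) :
    ∃ M : Fin t → Set E, (∀ j, PerfectMatching (fun e => ends0 (π e)) (M j)) ∧ (∀ j, φ j ∈ M j) ∧
      ∃ d : E → Bool, ∀ u e e', u ∈ ends0 (π e) → u ∈ ends0 (π e') → e ≠ e' → (∀ j, e ∉ M j) →
        (∀ j, e' ∉ M j) → d e ≠ d e' := by
  classical
  obtain ⟨e01, e02, e12, hv⟩ := at_vertex pm two v0 v1 v2 n0 n1 n2
  have s0 := hπ e0 0 1 (by decide) ((n0 _).2 (Or.inl rfl)) ((n0 _).2 (Or.inr rfl))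
  have s1 := hπ e1 2 3 (by decide) ((n1 _).2 (Or.inl rfl)) ((n1 _).2 (Or.inr rfl))
  have s2 := hπ e2 4 5 (by decide) ((n2 _).2 (Or.inl rfl)) ((n2 _).2 (Or.inr rfl))
  have vs : ∀ y, {z | z ∈ Set.range φ ∧ π z = y}.ncard ≤ {e | π e = y}.ncard := fun y =>
    Set.ncard_le_ncard fun z hz => hz.2
  obtain ⟨w, hw⟩ := Sym2.mem_iff_exists.1 v0
  have w0 : w ∈ ends0 e0 := by simp [hw]
  obtain ⟨y2, ⟨m2, x2⟩, -⟩ := pm 2 w
  obtain ⟨q, q2, mq⟩ : ∃ q, q ≠ 2 ∧ y2 ∈ N q := by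
    obtain ⟨a, b, ab, h⟩ := two y2
    by_cases h2 : a = 2
    · exact ⟨b, fun e => ab (h2.trans e.symm), (h b).2 (Or.inr rfl)⟩
    · exact ⟨a, h2, (h a).2 (Or.inl rfl)⟩
  have q01 : ¬ (q = 0 ∨ q = 1) := fun h =>
    absurd ((n0 2).1 (same pm x2 w0 mq ((n0 q).2 h) ▸ m2)) (by decide)
  have us := idx_sum (fun j => π (φ j)) e01 e02 e12 fun j => hv _ (hφ j)
  have a0 := vs e0
  have a1 := vs e1
  have a2 := vs e2
  obtain ⟨n, g, p, hn, u0, u1, u2, o1, o2, o3, o4⟩ := arith k _ _ _ _ q (fun h => q01 (Or.inl h))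
    (fun h => q01 (Or.inr h)) q2 (us.trans ht) (s0 ▸ a0) c0 (val_le π φ e0) (by omega) (by omega)
  obtain ⟨ty, t1, t2⟩ := types (fun j => if π (φ j) = e0 then 0 else if π (φ j) = e1 then 1 else 2)
    n (by
      rw [← u0]; congr 1; ext j
      rcases hv _ (hφ j) with h | h | h <;> simp [h, e01, e02, e12, e01.symm, e02.symm, e12.symm])
    (by
      rw [← u1]; congr 1; ext j
      rcases hv _ (hφ j) with h | h | h <;> simp [h, e01, e02, e12, e01.symm, e02.symm, e12.symm])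
    (by
      rw [← u2]; congr 1; ext j
      rcases hv _ (hφ j) with h | h | h <;> simp [h, e01, e02, e12, e01.symm, e02.symm, e12.symm])
  have hty : ∀ j, π (φ j) ∈ N (ty j) := fun j => by
    obtain ⟨b0, b1, b2⟩ := t2 j
    rcases hv _ (hφ j) with h | h | h
    · exact h ▸ (n0 _).2 (b0 (by simp [h]))
    · exact h ▸ (n1 _).2 (b1 (by simp [h, e01.symm]))
    · exact h ▸ (n2 _).2 (b2 (by simp [h, e02.symm, e12.symm]))
  have hF : ∀ y, {e | π e = y}.Nonempty := fun y => by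
    obtain ⟨a, b, ab, h⟩ := two y
    apply Set.nonempty_of_ncard_ne_zero
    rw [hπ y a b ab ((h a).2 (Or.inl rfl)) ((h b).2 (Or.inr rfl))]
    omega
  choose h h1 h2 using fun y => fill {j | y ∈ N (ty j)} {e | π e = y} (hF y)
  let s : Fin t → E0 → E := fun j y => if π (φ j) = y then φ j else h y j
  have hs : ∀ j y, π (s j y) = y := fun j y => by
    by_cases c : π (φ j) = y
    · simp only [s, if_pos c, c]
    · simp only [s, if_neg c]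
      exact h1 y j
  let M : Fin t → Set E := fun j => {e | π e ∈ N (ty j) ∧ e = s j (π e)}
  have hM : ∀ j y, y ∈ N (ty j) → s j y ∈ M j := fun j y m =>
    ⟨by rw [hs]; exact m, by rw [hs]⟩
  have hφM : ∀ j, φ j ∈ M j := fun j => ⟨hty j, by simp only [s, if_true]⟩
  let X : Set E := {e | ∀ j, e ∉ M j}
  have bB : ∀ y, {e | e ∈ X ∧ π e = y}.ncard + {z | z ∈ Set.range φ ∧ π z = y}.ncard ≤
      {e | π e = y}.ncard := fun y =>
    add_le (fun z hz => hz.2) (fun z hz => hz.2) (by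
      rintro z hz ⟨⟨j, rfl⟩, -⟩
      exact hz.1 j (hφM j))
  have hU : ∀ y a b, a ≠ b → (∀ i, y ∈ N i ↔ i = a ∨ i = b) → y ≠ e0 →
      {e | e ∈ X ∧ π e = y}.ncard ≤ 3 - (g a + g b) := fun y a b ab m ne => by
    have ma := (m a).2 (Or.inl rfl)
    have mb := (m b).2 (Or.inr rfl)
    have sz := hπ y a b ab ma mb
    have na := hn a
    have nb := hn b
    have by' := bB y
    by_cases c : v ∈ ends0 y
    · rcases hv y c with rfl | rfl | rfl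
      · exact absurd rfl ne
      · rcases (n1 a).1 ma with rfl | rfl <;> rcases (n1 b).1 mb with rfl | rfl <;>
          first | exact absurd rfl ab | omega
      · rcases (n2 a).1 ma with rfl | rfl <;> rcases (n2 b).1 mb with rfl | rfl <;>
          first | exact absurd rfl ab | omega
    · have j1 : {j | y ∈ N (ty j)}.ncard = n a + n b := by
        rw [← t1 a, ← t1 b, ← Set.ncard_union_eq]
        · congr 1
          ext j
          simp [m]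
        · rw [Set.disjoint_left]
          exact fun j x x' => ab (Eq.trans (Eq.symm x) x')
      have j2 := h2 y
      have j3 : {e | e ∈ X ∧ π e = y}.ncard + (h y '' {j | y ∈ N (ty j)}).ncard ≤
          {e | π e = y}.ncard := by
        refine add_le (fun z hz => hz.2) ?_ ?_
        · rintro _ ⟨j, -, rfl⟩
          exact h1 y j
        · rintro z hz ⟨j, mj, rfl⟩
          have : s j y = h y j := if_neg fun (e : π (φ j) = y) => c (e ▸ hφ j)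
          exact hz.1 j (this ▸ hM j y mj)
      omega
  have b0 := bB e0
  have hE : ∀ y, y ≠ e0 → (∃ x, x ∈ ends0 e0 ∧ x ∈ ends0 y) → 1 ≤ {e | e ∈ X ∧ π e = e0}.ncard →
      1 ≤ {e | e ∈ X ∧ π e = y}.ncard → {e | e ∈ X ∧ π e = e0}.ncard ≤ 1 ∧
      {e | e ∈ X ∧ π e = y}.ncard ≤ 1 ∧ (e0 ∈ N p ↔ ¬ y ∈ N p) := by
    rintro y ne ⟨x, x0, xy⟩ p0 py
    obtain ⟨c, d, cd, m⟩ := two y
    have u := hU y c d cd m ne
    have nn : ∀ i, y ∈ N i → ¬ (i = 0 ∨ i = 1) := fun i mi z => ne (same pm xy x0 mi ((n0 i).2 z))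
    have nc := nn c ((m c).2 (Or.inl rfl))
    have nd := nn d ((m d).2 (Or.inr rfl))
    rw [not_or] at nc nd
    have := o4 c d ⟨by omega, cd, nc.1, nc.2, nd.1, nd.2, by omega, by
      rw [← m, ← m, ← m]
      rw [hw, Sym2.mem_iff] at x0
      rcases x0 with rfl | rfl
      · exact Or.inr ⟨fun z => same pm v1 xy ((n1 2).2 (Or.inl rfl)) z ▸ (n1 3).2 (Or.inr rfl),
          fun z => same pm v1 xy ((n1 3).2 (Or.inr rfl)) z ▸ (n1 2).2 (Or.inl rfl)⟩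
      · exact Or.inl ⟨fun z => same pm x2 xy m2 z ▸ mq, fun z => same pm x2 xy mq z ▸ m2⟩⟩
    rw [n0, m]
    exact ⟨by omega, by omega, this.2.2⟩
  obtain ⟨d, hd⟩ := paint π X (fun y y' => ∃ x, x ∈ ends0 y ∧ x ∈ ends0 y') (fun y => y ∈ N p)
    (fun y => by
      by_cases c : y = e0
      · rw [c]; omega
      · obtain ⟨a, b, ab, m⟩ := two y
        have := hU y a b ab m c
        have := o1 a b ab
        omega)
    (fun y y' ne ad py py' => by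
      by_cases c : y = e0
      · subst c
        exact hE y' ne.symm ad py py'
      by_cases c' : y' = e0
      · subst c'
        obtain ⟨x, x1, x2⟩ := ad
        obtain ⟨z1, z2, z3⟩ := hE y ne ⟨x, x2, x1⟩ py' py
        exact ⟨z2, z1, by tauto⟩
      obtain ⟨x, x1, x2⟩ := ad
      obtain ⟨a, b, ab, m⟩ := two y
      obtain ⟨a', b', ab', m'⟩ := two y'
      have u := hU y a b ab m c
      have u' := hU y' a' b' ab' m' c'
      have nn : ∀ i, y' ∈ N i → ¬ (i = a ∨ i = b) := fun i mi z =>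
        ne (same pm x1 x2 ((m i).2 z) mi)
      have nc := nn a' ((m' a').2 (Or.inl rfl))
      have nd := nn b' ((m' b').2 (Or.inr rfl))
      rw [not_or] at nc nd
      have z := o2 a b a' b' ⟨ab, ab', nc.1, nc.2, nd.1, nd.2, by omega, by omega⟩
      have z' := o2 a' b' a b ⟨ab', ab, Ne.symm nc.1, Ne.symm nd.1, Ne.symm nc.2, Ne.symm nd.2,
        by omega, by omega⟩
      rw [m, m']
      exact ⟨by omega, by omega, z.2⟩)
  refine ⟨M, fun j x => ?_, hφM, d, fun u e e' a b ne c c' => hd e c e' c' ne ⟨u, a, b⟩⟩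
  obtain ⟨y, ⟨my, xy⟩, -⟩ := pm (ty j) x
  refine ⟨s j y, ⟨hM j y my, (congrArg (fun z => x ∈ ends0 z) (hs j y)).mpr xy⟩, fun e he => ?_⟩
  rw [he.1.2, same pm he.2 xy he.1.1 my]

theorem two_perm (two : ∀ y, ∃ a b, a ≠ b ∧ ∀ i, y ∈ N i ↔ i = a ∨ i = b)
    (σ : Equiv.Perm (Fin 6)) (y : E0) : ∃ a b, a ≠ b ∧ ∀ i, y ∈ N (σ i) ↔ i = a ∨ i = b := by
  obtain ⟨a, b, ab, h⟩ := two y
  exact ⟨σ.symm a, σ.symm b, σ.symm.injective.ne ab, fun i => by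
    rw [h, Equiv.eq_symm_apply, Equiv.eq_symm_apply]⟩

theorem star [Finite E] (pm : ∀ i, PerfectMatching ends0 (N i))
    (two : ∀ y, ∃ a b, a ≠ b ∧ ∀ i, y ∈ N i ↔ i = a ∨ i = b) (k : Fin 6 → ℕ) (π : E → E0)
    (hπ : ∀ y a b, a ≠ b → y ∈ N a → y ∈ N b → {e | π e = y}.ncard = k a + k b + 1) (u : V) :
    {e | u ∈ ends0 (π e)}.ncard = ∑ i, k i + 3 := by
  obtain ⟨y, ⟨-, hy⟩, -⟩ := pm 0 u
  obtain ⟨σ, y1, y2, x1, x2, n0, n1, n2⟩ := label pm two hy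
  obtain ⟨e01, e02, e12, hv⟩ := at_vertex (N := fun i => N (σ i)) (fun i => pm _)
    (two_perm two σ) hy x1 x2 n0 n1 n2
  have s : ∀ y, u ∈ ends0 y → {z | z ∈ {e | u ∈ ends0 (π e)} ∧ π z = y} = {e | π e = y} :=
    fun y hy => Set.ext fun z =>
      ⟨fun h => h.2, fun h => ⟨(congrArg (fun z => u ∈ ends0 z) h).mpr hy, h⟩⟩
  rw [three {e | u ∈ ends0 (π e)} π e01 e02 e12 fun z hz => hv _ hz, s _ hy, s _ x1, s _ x2,
    hπ y (σ 0) (σ 1) (σ.injective.ne (by decide)) ((n0 0).2 (Or.inl rfl)) ((n0 1).2 (Or.inr rfl)),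
    hπ y1 (σ 2) (σ 3) (σ.injective.ne (by decide)) ((n1 2).2 (Or.inl rfl)) ((n1 3).2 (Or.inr rfl)),
    hπ y2 (σ 4) (σ 5) (σ.injective.ne (by decide)) ((n2 4).2 (Or.inl rfl)) ((n2 5).2 (Or.inr rfl)),
    ← Equiv.sum_comp σ k, Fin.sum_univ_six]
  omega

theorem few_of [Finite E] {ends : E → Sym2 V} {t : ℕ}
    (reg : ∀ u, {e | u ∈ ends e}.ncard = t + 1) {M : Fin t → Set E}
    (pm : ∀ j, PerfectMatching ends (M j)) (d : E → Bool)
    (hd : ∀ u e e', u ∈ ends e → u ∈ ends e' → e ≠ e' → (∀ j, e ∉ M j) → (∀ j, e' ∉ M j) →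
      d e ≠ d e') (u : V) (ψ : Fin t → E) (h : ∀ j, ψ j ∈ M j ∧ u ∈ ends (ψ j)) : Few ψ := by
  have a : {e | u ∈ ends e} ⊆ Set.range ψ ∪ {e | u ∈ ends e ∧ ∀ j, e ∉ M j} := fun e he => by
    by_cases c : ∃ j, e ∈ M j
    · obtain ⟨j, hj⟩ := c
      exact Or.inl ⟨j, (pm j u).unique (h j) ⟨hj, he⟩⟩
    · exact Or.inr ⟨he, fun j hj => c ⟨j, hj⟩⟩
  have b : {e | u ∈ ends e ∧ ∀ j, e ∉ M j}.ncard ≤ (Set.univ : Set Bool).ncard :=
    Set.ncard_le_ncard_of_injOn d (fun _ _ => trivial)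
      fun e he e' he' q => by_contra fun n => hd u e e' he.1 he'.1 n he.2 he'.2 q
  have c := (Set.ncard_le_ncard a).trans (Set.ncard_union_le _ _)
  rw [reg] at c
  rw [Set.ncard_univ, Nat.card_eq_fintype_card, Fintype.card_bool] at b
  unfold Few
  omega

/-- a cubic multigraph with a Fulkerson cover `N`, with `k i` further copies of `N i` added -/
theorem fulk_inv [Finite E] (pm : ∀ i, PerfectMatching ends0 (N i))
    (two : ∀ y, ∃ a b, a ≠ b ∧ ∀ i, y ∈ N i ↔ i = a ∨ i = b) (k : Fin 6 → ℕ) (π : E → E0)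
    (hπ : ∀ y a b, a ≠ b → y ∈ N a → y ∈ N b → {e | π e = y}.ncard = k a + k b + 1) {t : ℕ}
    (ht : ∑ i, k i + 2 = t) : Inv t (fun e => ends0 (π e)) := by
  intro v φ hφ few
  have pick : ∃ y, v ∈ ends0 y ∧
      {j | π (φ j) = y}.ncard ≤ {z | z ∈ Set.range φ ∧ π z = y}.ncard + 1 ∧ ∀ y', v ∈ ends0 y' →
      y' ≠ y → {j | π (φ j) = y'}.ncard ≤ {z | z ∈ Set.range φ ∧ π z = y'}.ncard := by
    obtain ⟨y, ⟨-, hy⟩, -⟩ := pm 0 v
    obtain ⟨σ, y1, y2, x1, x2, n0, n1, n2⟩ := label pm two hy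
    obtain ⟨e01, e02, e12, hv⟩ := at_vertex (N := fun i => N (σ i)) (fun i => pm _)
      (two_perm two σ) hy x1 x2 n0 n1 n2
    have a := three (Set.range φ) π e01 e02 e12 (by
      rintro _ ⟨j, rfl⟩
      exact hv _ (hφ j))
    have b := idx_sum (fun j => π (φ j)) e01 e02 e12 fun j => hv _ (hφ j)
    have c0 := val_le π φ y
    have c1 := val_le π φ y1
    have c2 := val_le π φ y2
    unfold Few at few
    by_cases d1 : {j | π (φ j) = y1}.ncard ≤ {z | z ∈ Set.range φ ∧ π z = y1}.ncard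
    · by_cases d2 : {j | π (φ j) = y2}.ncard ≤ {z | z ∈ Set.range φ ∧ π z = y2}.ncard
      · refine ⟨y, hy, by omega, fun y' h n => ?_⟩
        rcases hv y' h with rfl | rfl | rfl <;> first | exact absurd rfl n | omega
      · refine ⟨y2, x2, by omega, fun y' h n => ?_⟩
        rcases hv y' h with rfl | rfl | rfl <;> first | exact absurd rfl n | omega
    · refine ⟨y1, x1, by omega, fun y' h n => ?_⟩
      rcases hv y' h with rfl | rfl | rfl <;> first | exact absurd rfl n | omega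
  obtain ⟨y, hy, c0, c⟩ := pick
  obtain ⟨σ, y1, y2, x1, x2, n0, n1, n2⟩ := label pm two hy
  obtain ⟨e01, e02, -, -⟩ := at_vertex (N := fun i => N (σ i)) (fun i => pm _)
    (two_perm two σ) hy x1 x2 n0 n1 n2
  obtain ⟨M, m1, m2, d, hd⟩ := core (N := fun i => N (σ i)) (fun i => pm _) (two_perm two σ)
    (fun i => k (σ i)) π (fun y a b ab => hπ y _ _ (σ.injective.ne ab))
    (by rw [← ht, ← Equiv.sum_comp σ k, Fin.sum_univ_six]) hy x1 x2 n0 n1 n2 φ hφ c0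
    (c _ x1 e01.symm) (c _ x2 e02.symm)
  exact ⟨M, m1, m2, few_of (fun u => by rw [star pm two k π hπ u, ← ht]) m1 d hd, d, hd⟩

end Pool.Agent.Lib.MP_ba72f5_co.Fulk
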