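import Pool.Agent.Lib.MP_ba72f5_co.FulkB

set_option autoImplicit false

open Finset

namespace Pool.Agent.Lib.MP_ba72f5_co.Cover

variable {V E : Type} {t : ℕ}

lemma Built.inv {ends : E → Sym2 V} (h : Built (t + 1) ends) : Inv t ends := by
  induction h with
  | classOne ends col _ h => exact inv_one col h
  | fulkerson ends N k π h1 h2 _ pm h =>
    refine Fulk.fulk_inv pm (fun y => ?_) k π (fun y a b ab ma mb => ?_) (by omega)
    · obtain ⟨a, b, ab, m, -⟩ := h y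
      exact ⟨a, b, ab, m⟩
    · obtain ⟨c, d, -, m, s⟩ := h y
      rcases (m a).1 ma with rfl | rfl <;> rcases (m b).1 mb with rfl | rfl <;>
        first | exact absurd rfl ab | omega
  | glue ends X e1 e2 s1 s2 _ _ i1 i2 => exact inv_glue s1 s2 i1 i2
  | colour ends ends' f hf _ i => exact inv_colour f hf i

/-- The six perfect matchings of the Petersen graph (outer cycle `0 1 2 3 4`, spokes `i, i + 5`,
inner cycle `5 7 9 6 8`): `petM i a` is the vertex matched with `a` by the `i`-th one. -/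
def petM : Fin 6 → Fin 10 → Fin 10 :=
  ![![5, 2, 1, 4, 3, 0, 8, 9, 6, 7], ![4, 6, 3, 2, 0, 8, 1, 9, 5, 7],
    ![1, 0, 7, 4, 3, 8, 9, 2, 5, 6], ![4, 2, 1, 8, 0, 7, 9, 5, 3, 6],
    ![1, 0, 3, 2, 9, 7, 8, 5, 6, 4], ![5, 6, 7, 8, 9, 0, 1, 2, 3, 4]]

def eA : Fin 15 → Fin 10 := ![0, 0, 0, 1, 1, 2, 2, 3, 3, 4, 5, 5, 6, 6, 7]
def eB : Fin 15 → Fin 10 := ![1, 4, 5, 2, 6, 3, 7, 4, 8, 9, 7, 8, 8, 9, 9]
def tI : Fin 15 → Fin 6 := ![2, 1, 0, 0, 1, 1, 2, 0, 3, 4, 3, 1, 0, 2, 0]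
def tJ : Fin 15 → Fin 6 := ![4, 3, 5, 3, 5, 4, 5, 2, 5, 5, 4, 2, 4, 3, 1]

lemma f_ne : ∀ p, tI p ≠ tJ p := by decide
lemma f_pet : ∀ (i : Fin 6) (a : Fin 10), ∃ p, s(a, petM i a) = s(eA p, eB p) := by decide
lemma f_einj : ∀ p q, s(eA p, eB p) = s(eA q, eB q) → p = q := by decide
lemma f_sum (k : Fin 6 → ℕ) (p : Fin 15) :
    (∑ i, if petM i (eA p) = eB p then 2 * k i + 1 else 0) = 2 * (k (tI p) + k (tJ p) + 1) := by
  have : ∀ p i, petM i (eA p) = eB p ↔ i = tI p ∨ i = tJ p := by decide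
  rw [Fintype.sum_eq_add (tI p) (tJ p) (f_ne p), if_pos ((this _ _).2 (Or.inl rfl)),
    if_pos ((this _ _).2 (Or.inr rfl))]
  · ring
  · rintro i ⟨h1, h2⟩
    rw [if_neg fun h => ((this _ _).1 h).elim h1 h2]

/-- the Petersen graph plus perfect matchings of it is a Fulkerson piece -/
lemma Built.petersen {r : ℕ} (ends : E → Sym2 V) (φ : Fin 10 ≃ V) (k : Fin 6 → ℕ) (hE : Finite E)
    (ht : ∑ i, k i + 3 = r)
    (h : ∀ a b, 2 * {e | ends e = s(φ a, φ b)}.ncard =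
      ∑ i, if petM i a = b then 2 * k i + 1 else 0) : Built r ends := by
  classical
  have h1 : ∀ e, ∃ p, ends e = s(φ (eA p), φ (eB p)) := fun e => by
    obtain ⟨a, b, hab⟩ : ∃ a b, ends e = s(φ a, φ b) :=
      ⟨φ.symm (ends e).out.1, φ.symm (ends e).out.2, by
        simp only [Equiv.apply_symm_apply]; exact (ends e).out_eq.symm⟩
    have h2 : 0 < {e | ends e = s(φ a, φ b)}.ncard := (Set.ncard_pos (Set.toFinite _)).2 ⟨e, hab⟩
    obtain ⟨i, -, hi⟩ := exists_ne_zero_of_sum_ne_zero (s := univ)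
      (f := fun i => if petM i a = b then 2 * k i + 1 else 0) (by rw [← h]; omega)
    obtain rfl : petM i a = b := by
      by_contra hn
      exact hi (if_neg hn)
    obtain ⟨p, hp⟩ := f_pet i a
    exact ⟨p, hab.trans (congrArg (Sym2.map φ) hp)⟩
  choose lab hlab using h1
  have p1 : ∀ p, eA p ≠ eB p := by decide
  have p2 : ∀ (i : Fin 6) (a : Fin 10), ∃ p, ((tI p = i ∨ tJ p = i) ∧ (a = eA p ∨ a = eB p)) ∧
      ∀ q, (tI q = i ∨ tJ q = i) ∧ (a = eA q ∨ a = eB q) → q = p := by decide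
  rw [show ends = fun e => s(φ (eA (lab e)), φ (eB (lab e))) from funext hlab]
  refine Built.fulkerson (fun p => s(φ (eA p), φ (eB p))) (fun i => {p | tI p = i ∨ tJ p = i}) k lab
    hE ht (fun p => by simpa using p1 p) (fun i v => ?_)
    fun p => ⟨tI p, tJ p, f_ne p, fun i => by simp [eq_comm], ?_⟩
  · obtain ⟨a, rfl⟩ := φ.surjective v
    simpa [ExistsUnique] using p2 i a
  · have h2 := h (eA p) (eB p)
    rw [f_sum] at h2
    rw [← Nat.eq_of_mul_eq_mul_left two_pos h2]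
    congr 1
    ext e
    exact ⟨fun h => h ▸ hlab e,
      fun h => f_einj _ _ (Sym2.map.injective φ.injective ((hlab e).symm.trans h))⟩

end Pool.Agent.Lib.MP_ba72f5_co.Cover
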