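import Pool.Agent.Lib.MP_ba72f5_co.GlueDefs
import Pool.Agent.Lib.MP_ba72f5_co.Final

set_option autoImplicit false

open Finset Sum

namespace Pool.Agent.Lib.MP_ba72f5_co.Cover

variable {r : ℕ}

lemma bij_of {α β : Type} [Finite β] {F : α → β} {A : Set α} {B : Set β} (h1 : Set.MapsTo F A B)
    (h2 : Set.InjOn F A) (h3 : B.ncard ≤ A.ncard) : Set.BijOn F A B := by
  refine ⟨h1, h2, ?_⟩
  have := Set.eq_of_subset_of_ncard_le h1.image_subset
    (by rwa [h2.ncard_image]) (Set.toFinite _)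
  exact this.ge

lemma shrink_ex {V E V₁ E₁ : Type} (ends : E → Sym2 V) (X : Set V) (ends₁ : E₁ → Sym2 V₁)
    (F : E → E₁) (h1 : ∀ v ∈ X, ∃ w, Set.BijOn F {e | v ∈ ends e} {e | w ∈ ends₁ e})
    (h2 : ∃ w, Set.BijOn F {e | ∃ a ∈ X, ∃ b ∉ X, ends e = s(a, b)} {e | w ∈ ends₁ e})
    (hB : Built r ends₁) :
    ∃ (V' E' : Type) (ends' : E' → Sym2 V'), Shrink ends X ends' ∧ Built r ends' := by
  classical
  let f : V → Option X := fun v => if h : v ∈ X then some ⟨v, h⟩ else none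
  have f1 : ∀ v (h : v ∈ X), f v = some ⟨v, h⟩ := fun v h => dif_pos h
  have f2 : ∀ v ∉ X, f v = none := fun v h => dif_neg h
  have f3 : ∀ v z, f v = some z → v = z.1 := fun v z h => by
    by_cases hv : v ∈ X
    · rw [f1 v hv] at h; cases h; rfl
    · rw [f2 v hv] at h; cases h
  have f4 : ∀ v, f v = none → v ∉ X := fun v h hv => by rw [f1 v hv] at h; cases h
  have key : ∀ (A : Set E) (B : Set E₁) (A' : Set {e // ∃ v ∈ X, v ∈ ends e}),
      (∀ e ∈ A, ∃ v ∈ X, v ∈ ends e) → (∀ e, e ∈ A' ↔ e.1 ∈ A) → Set.BijOn F A B →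
      Set.BijOn (fun e => F e.1) A' B := fun A B A' a1 a2 a3 =>
    ⟨fun e he => a3.1 ((a2 e).1 he), fun e he e' he' h =>
      Subtype.ext (a3.2.1 ((a2 e).1 he) ((a2 e').1 he') h), fun b hb => by
        obtain ⟨e, he, rfl⟩ := a3.2.2 hb
        exact ⟨⟨e, a1 e he⟩, (a2 _).2 he, rfl⟩⟩
  refine ⟨Option X, {e // ∃ v ∈ X, v ∈ ends e}, fun e => (ends e.1).map f,
    ⟨f, none, Subtype.val, ⟨fun v hv => by simp [f1 v hv], fun a ha b hb h => ?_, fun z hz => ?_⟩,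
      f2, Subtype.val_injective, Subtype.range_coe_subtype, fun _ => rfl⟩,
    Built.colour _ ends₁ (fun e => F e.1) (fun z => ?_) hB⟩
  · rw [f1 b hb] at h; exact f3 _ _ h
  · rcases z with _ | z
    · exact absurd rfl hz
    · exact ⟨z.1, z.2, f1 _ z.2⟩
  · rcases z with _ | z
    · obtain ⟨w, hw⟩ := h2
      refine ⟨w, key _ _ _ ?_ (fun e => ?_) hw⟩
      · rintro e ⟨a, ha, b, -, h⟩
        exact ⟨a, ha, h ▸ Sym2.mem_mk_left _ _⟩
      · simp only [Set.mem_ofPred_eq, Sym2.mem_map]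
        constructor
        · rintro ⟨b, hb, h⟩
          obtain ⟨a, ha, h'⟩ := e.2
          exact ⟨a, ha, b, f4 b h, (Sym2.mem_and_mem_iff fun h2 : a = b => f4 b h (h2 ▸ ha)).1 ⟨h', hb⟩⟩
        · rintro ⟨a, -, b, hb, h⟩
          exact ⟨b, h ▸ Sym2.mem_mk_right _ _, f2 b hb⟩
    · obtain ⟨w, hw⟩ := h1 z.1 z.2
      refine ⟨w, key _ _ _ (fun e he => ⟨z.1, z.2, he⟩) (fun e => ?_) hw⟩
      simp only [Set.mem_ofPred_eq, Sym2.mem_map]
      exact ⟨fun ⟨b, hb, h⟩ => f3 _ _ h ▸ hb, fun h => ⟨z.1, h, f1 _ z.2⟩⟩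

/-- membership in the class for a multigraph given by multiplicities -/
def Q (G : MG 2 r) : Prop := Built r (Sigma.fst : G.E → Sym2 G.V)

lemma e_ext {G : MG 2 r} {e e' : G.E} (h1 : e.1 = e'.1) (h2 : e.2.val = e'.2.val) : e = e' := by
  obtain ⟨s, k⟩ := e
  obtain ⟨s', k'⟩ := e'
  obtain rfl : s = s' := h1
  exact congrArg _ (Fin.ext h2)

lemma ncard_bundle (G : MG 2 r) (a b : G.V) : {e : G.E | e.1 = s(a, b)}.ncard = G.m a b := by
  have := G.ncard_E {s(a, b)}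
  simp only [mem_singleton, sum_singleton] at this
  exact this

lemma e_loop {G : MG 2 r} (e : G.E) : ¬ e.1.IsDiag := by
  obtain ⟨e, k⟩ := e
  induction e using Sym2.ind with
  | h a b =>
    intro h
    obtain rfl : a = b := h
    exact absurd k.pos (by simp [MG.mS, G.diag])

lemma q_one (G : MG 2 r) (π : Fin r → G.V → G.V) (h1 : ∀ j a, π j (π j a) = a)
    (h2 : ∀ a b, (univ.filter fun j => π j a = b).card = G.m a b) : Q G := by
  have h3 : ∀ s : Sym2 G.V, ∃ c : Fin (G.mS s) → Fin r, Function.Injective c ∧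
      ∀ j a, a ∈ s → ((∃ k, c k = j) ↔ s = s(a, π j a)) := fun s => by
    induction s using Sym2.ind with
    | h a b =>
      have e : Fin (G.mS s(a, b)) ≃ {j // π j a = b} := Fintype.equivOfCardEq (by
        rw [Fintype.card_subtype, h2, Fintype.card_fin]; rfl)
      have h4 : ∀ j, (∃ k, (e k).1 = j) ↔ π j a = b := fun j =>
        ⟨fun ⟨k, hk⟩ => hk ▸ (e k).2, fun h => ⟨e.symm ⟨j, h⟩, by simp⟩⟩
      refine ⟨fun k => (e k).1, Subtype.val_injective.comp e.injective, fun j z hz => ?_⟩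
      rw [h4]
      rcases Sym2.mem_iff.1 hz with rfl | rfl
      · exact ⟨fun h => h ▸ rfl, fun h => (Sym2.congr_right.1 h).symm⟩
      · rw [Sym2.eq_swap, Sym2.congr_right, inv_iff (h1 j), eq_comm]
  choose c c1 c2 using h3
  refine Built.classOne _ (fun e => c e.1 e.2) e_loop fun j v => ?_
  obtain ⟨k, hk⟩ := (c2 s(v, π j v) j v (Sym2.mem_mk_left _ _)).2 rfl
  refine ⟨⟨_, k⟩, ⟨hk, Sym2.mem_mk_left _ _⟩, ?_⟩
  rintro ⟨s, k'⟩ ⟨a1, a2⟩
  obtain rfl : s = s(v, π j v) := (c2 s j v a2).1 ⟨k', a1⟩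
  exact congrArg _ (c1 _ (a1.trans hk.symm))

lemma beta (G H : MG 2 r) {x y : G.V} {u v : H.V} (h : G.m x y = H.m u v) (h0 : 0 < G.m x y) :
    ∃ β : G.E → H.E, Set.BijOn β {e | x ∈ e.1 ∧ e.1 ≠ s(x, y)} {e | u ∈ e.1 ∧ e.1 ≠ s(u, v)} := by
  have k : ∀ (G : MG 2 r) (x y : G.V),
      {e : G.E | x ∈ e.1 ∧ e.1 ≠ s(x, y)}.ncard = r - G.m x y := fun G x y => by
    have hs : {e : G.E | e.1 = s(x, y)} ⊆ {e : G.E | x ∈ e.1} :=
      fun e (he : e.1 = _) => show x ∈ e.1 from he ▸ Sym2.mem_mk_left _ _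
    rw [← ncard_bundle, ← congrArg (· - _) (G.degree x), ← Set.ncard_sdiff hs]
    rfl
  have : Nonempty H.E := ⟨⟨s(u, v), ⟨0, h0.trans_eq h⟩⟩⟩
  classical
  have e : {e : G.E | x ∈ e.1 ∧ e.1 ≠ s(x, y)} ≃ {e : H.E | u ∈ e.1 ∧ e.1 ≠ s(u, v)} :=
    (Finite.card_eq.1 (by rw [Nat.card_coe_set_eq, Nat.card_coe_set_eq, k, k, h])).some
  refine ⟨fun a => if ha : a ∈ {e : G.E | x ∈ e.1 ∧ e.1 ≠ s(x, y)} then (e ⟨a, ha⟩).1
    else Classical.arbitrary _, bij_of (fun a ha => ?_) (fun a ha b hb hab => ?_) ?_⟩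
  · simp only [dif_pos ha]; exact (e ⟨a, ha⟩).2
  · simp only [dif_pos ha, dif_pos hb] at hab
    exact congrArg Subtype.val (e.injective (Subtype.ext hab))
  · rw [k, k, h]

lemma eqS {A B : Type} {s : Sym2 (A ⊕ B)} {a b c d : A ⊕ B} (h1 : s = s(a, b))
    (h2 : s = s(c, d)) : a = c ∧ b = d ∨ a = d ∧ b = c := Sym2.eq_iff.1 (h1.symm.trans h2)

section Join

variable {G H : MG 2 r} {x y : G.V} {u v : H.V} {h : G.m x y = H.m u v} {h0 : 0 < G.m x y}

lemma e_cases (e : (MG.join G H x y u v h h0).E) :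
    (∃ a b, e.1 = s(inl a, inl b) ∧ s(a, b) ≠ s(x, y) ∧ e.2.val < G.m a b) ∨
    (∃ a b, e.1 = s(inr a, inr b) ∧ s(a, b) ≠ s(u, v) ∧ e.2.val < H.m a b) ∨
    ((e.1 = s(inl x, inr u) ∨ e.1 = s(inl y, inr v)) ∧ e.2.val < G.m x y) := by
  obtain ⟨s, k, hk⟩ := e
  induction s using Sym2.ind with
  | h a b =>
    change k < (MG.join G H x y u v h h0).m a b at hk
    rcases a with a | a <;> rcases b with b | b <;>
      simp only [MG.join, elim_inl, elim_inr, swap_inl, swap_inr, MG.cut] at hk <;>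
      split_ifs at hk with h1 <;> try omega
    · exact .inl ⟨a, b, rfl, fun e => h1 (Sym2.eq_iff.1 e), hk⟩
    · refine .inr (.inr ⟨?_, hk⟩)
      rcases h1 with ⟨rfl, rfl⟩ | ⟨rfl, rfl⟩
      exacts [.inl rfl, .inr rfl]
    · refine .inr (.inr ⟨?_, h ▸ hk⟩)
      rcases h1 with ⟨rfl, rfl⟩ | ⟨rfl, rfl⟩
      exacts [.inl Sym2.eq_swap, .inr Sym2.eq_swap]
    · exact .inr (.inl ⟨a, b, rfl, fun e => h1 (Sym2.eq_iff.1 e), hk⟩)

lemma q_join (hr : 0 < r) (qG : Q G) (qH : Q H) : Q (MG.join G H x y u v h h0) := by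
  have hxy : x ≠ y := fun e => by simp [e, G.diag] at h0
  have huv : u ≠ v := fun e => by simp [h, e, H.diag] at h0
  obtain ⟨β, hβ⟩ := beta G H h h0
  have x1 : ∀ e : (MG.join G H x y u v h h0).E, ∃ e' : G.E,
      (∀ a b, e.1 = s(inl a, inl b) → e'.1 = s(a, b) ∧ s(a, b) ≠ s(x, y) ∧ e'.2.val = e.2.val) ∧
      (e.1 = s(inl y, inr v) → e'.1 = s(x, y) ∧ e'.2.val = e.2.val) := fun e => by
    rcases e_cases e with ⟨a, b, h1, h2, h3⟩ | ⟨a, b, h1, h2, h3⟩ | ⟨h1, h3⟩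
    · refine ⟨⟨s(a, b), ⟨_, h3⟩⟩, fun c d h4 => ?_, fun h4 => absurd (eqS h1 h4) (by simp)⟩
      have : s(a, b) = s(c, d) := by simpa using eqS h1 h4
      exact ⟨this, this ▸ h2, rfl⟩
    · exact ⟨⟨s(x, y), ⟨0, h0⟩⟩, fun c d h4 => absurd (eqS h1 h4) (by simp), fun h4 => absurd (eqS h1 h4) (by simp)⟩
    · exact ⟨⟨s(x, y), ⟨_, h3⟩⟩, fun c d h4 =>
        h1.elim (fun h1 => absurd (eqS h1 h4) (by simp)) fun h1 => absurd (eqS h1 h4) (by simp),
        fun _ => ⟨rfl, rfl⟩⟩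
  choose F f1 f2 using x1
  have x2 : ∀ e : (MG.join G H x y u v h h0).E, ∃ e' : H.E,
      (∀ a b, e.1 = s(inr a, inr b) → e'.1 = s(a, b) ∧ s(a, b) ≠ s(u, v) ∧ e'.2.val = e.2.val) ∧
      (∀ a b, e.1 = s(inl a, inr b) → e'.1 = s(u, v) ∧ e'.2.val = e.2.val) ∧
      (∀ a b, e.1 = s(inl a, inl b) → e' = β (F e)) := fun e => by
    rcases e_cases e with ⟨a, b, h1, h2, h3⟩ | ⟨a, b, h1, h2, h3⟩ | ⟨h1, h3⟩
    · exact ⟨β (F e), fun c d h4 => absurd (eqS h1 h4) (by simp), fun c d h4 => absurd (eqS h1 h4) (by simp),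
        fun _ _ _ => rfl⟩
    · refine ⟨⟨s(a, b), ⟨_, h3⟩⟩, fun c d h4 => ?_, fun c d h4 => absurd (eqS h1 h4) (by simp),
        fun c d h4 => absurd (eqS h1 h4) (by simp)⟩
      have : s(a, b) = s(c, d) := by simpa using eqS h1 h4
      exact ⟨this, this ▸ h2, rfl⟩
    · exact ⟨⟨s(u, v), ⟨_, h3.trans_eq h⟩⟩, fun c d h4 =>
        h1.elim (fun h1 => absurd (eqS h1 h4) (by simp)) fun h1 => absurd (eqS h1 h4) (by simp),
        fun _ _ _ => ⟨rfl, rfl⟩, fun c d h4 =>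
        h1.elim (fun h1 => absurd (eqS h1 h4) (by simp)) fun h1 => absurd (eqS h1 h4) (by simp)⟩
  choose F' g1 g2 g3 using x2
  have iF : Set.InjOn F {e | (∃ a b, e.1 = s(inl a, inl b)) ∨ e.1 = s(inl y, inr v)} := by
    rintro e (⟨a, b, h1⟩ | h1) e' (⟨c, d, h2⟩ | h2) h3
    · obtain ⟨a1, -, a3⟩ := f1 e a b h1
      obtain ⟨b1, -, b3⟩ := f1 e' c d h2
      rw [h3] at a1 a3
      refine e_ext ?_ (a3.symm.trans b3)
      rw [h1, h2]
      exact congrArg (Sym2.map inl) (a1.symm.trans b1)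
    · exact absurd ((f1 e a b h1).1.symm.trans (h3 ▸ (f2 e' h2).1)) (f1 e a b h1).2.1
    · exact absurd ((f1 e' c d h2).1.symm.trans (h3 ▸ (f2 e h1).1)) (f1 e' c d h2).2.1
    · exact e_ext (h1.trans h2.symm) ((f2 e h1).2.symm.trans (h3 ▸ (f2 e' h2).2))
  have jF : ∀ a b, ∀ A : Set (MG.join G H x y u v h h0).E,
      (∀ e ∈ A, (∃ c, e.1 = s(inl x, inl c)) ∨ e.1 = s(inl a, inr b)) → r ≤ A.ncard →
      Set.BijOn F' A {e | u ∈ e.1} := fun a b A hA hc => by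
    have m1 : ∀ e c, e.1 = s(inl x, inl c) → F e ∈ {e : G.E | x ∈ e.1 ∧ e.1 ≠ s(x, y)} :=
      fun e c h1 => ⟨(f1 e x c h1).1 ▸ Sym2.mem_mk_left _ _, (f1 e x c h1).1 ▸ (f1 e x c h1).2.1⟩
    refine bij_of (fun e he => ?_) (fun e he e' he' h3 => ?_) (by rwa [H.degree])
    · rcases hA e he with ⟨c, h1⟩ | h1
      · rw [g3 e x c h1]; exact (hβ.1 (m1 e c h1)).1
      · exact show u ∈ (F' e).1 from (g2 e a b h1).1 ▸ Sym2.mem_mk_left _ _
    · rcases hA e he with ⟨c, h1⟩ | h1 <;> rcases hA e' he' with ⟨d, h2⟩ | h2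
      · rw [g3 e x c h1, g3 e' x d h2] at h3
        exact iF (.inl ⟨_, _, h1⟩) (.inl ⟨_, _, h2⟩) (hβ.2.1 (m1 e c h1) (m1 e' d h2) h3)
      · exact absurd (g3 e x c h1 ▸ h3 ▸ (g2 e' a b h2).1) (hβ.1 (m1 e c h1)).2
      · exact absurd (g3 e' x d h2 ▸ h3 ▸ (g2 e a b h1).1) (hβ.1 (m1 e' d h2)).2
      · exact e_ext (h1.trans h2.symm) ((g2 e a b h1).2.symm.trans (h3 ▸ (g2 e' a b h2).2))
  let X : Finset (G.V ⊕ H.V) := (univ.erase x).map .inl
  have hX : ∀ z, z ∈ X ↔ ∃ a, a ≠ x ∧ inl a = z := fun z => by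
    simp only [X, mem_map, mem_erase, mem_univ, and_true, Function.Embedding.inl_apply]
  have hodd : Odd X.card := by
    have := G.even_V ⟨0, by omega⟩
    have := Fintype.card_pos_iff.mpr ⟨x⟩
    rw [card_map, card_erase_of_mem (mem_univ _), card_univ]
    grind
  have hcut := (MG.join G H x y u v h h0).cut_ge X hodd
  have cC : ∀ e : (MG.join G H x y u v h h0).E, (∃ a ∈ X, ∃ b ∉ X, e.1 = s(a, b)) →
      (∃ c, e.1 = s(inl x, inl c)) ∨ e.1 = s(inl y, inr v) := by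
    rintro e ⟨a, ha, b, hb, h1⟩
    obtain ⟨a, a1, rfl⟩ := (hX a).1 ha
    rcases b with b | b
    · obtain rfl : b = x := by_contra fun h2 => hb ((hX _).2 ⟨b, h2, rfl⟩)
      exact .inl ⟨a, h1.trans Sym2.eq_swap⟩
    · rcases e_cases e with ⟨c, d, h2, -⟩ | ⟨c, d, h2, -⟩ | ⟨h2 | h2, -⟩
      · exact absurd (eqS h1 h2) (by simp)
      · exact absurd (eqS h1 h2) (by simp)
      · exact absurd (eqS h1 h2) (by simp [a1])
      · exact .inr h2
  obtain ⟨V₁, E₁, n₁, s₁, b₁⟩ := shrink_ex (r := r)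
    (Sigma.fst : (MG.join G H x y u v h h0).E → _) {z | z ∈ X} _ F (fun z hz => by
      obtain ⟨a, a1, rfl⟩ := (hX z).1 hz
      have k : ∀ e : (MG.join G H x y u v h h0).E, inl a ∈ e.1 →
          (∃ c, e.1 = s(inl a, inl c)) ∨ e.1 = s(inl y, inr v) ∧ a = y := fun e he => by
        obtain ⟨b | b, h1⟩ := Sym2.mem_iff_exists.1 he
        · exact .inl ⟨b, h1⟩
        · rcases e_cases e with ⟨c, d, h2, -⟩ | ⟨c, d, h2, -⟩ | ⟨h2 | h2, -⟩
          · exact absurd (eqS h1 h2) (by simp)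
          · exact absurd (eqS h1 h2) (by simp)
          · exact absurd (eqS h1 h2) (by simp [a1])
          · exact .inr ⟨h2, by have := eqS h1 h2; simp at this; tauto⟩
      refine ⟨a, bij_of (fun e he => ?_) (iF.mono fun e he => ?_)
        ((G.degree _).trans (MG.degree _ _).symm).le⟩
      · rcases k e he with ⟨c, h1⟩ | ⟨h1, h2⟩
        · exact show a ∈ (F e).1 from (f1 e a c h1).1 ▸ Sym2.mem_mk_left _ _
        · exact show a ∈ (F e).1 from (f2 e h1).1 ▸ h2 ▸ Sym2.mem_mk_right _ _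
      · exact (k e he).imp (fun ⟨c, h1⟩ => ⟨a, c, h1⟩) And.left)
    ⟨x, bij_of (fun e he => by
        rcases cC e he with ⟨c, h1⟩ | h1
        · exact show x ∈ (F e).1 from (f1 e x c h1).1 ▸ Sym2.mem_mk_left _ _
        · exact show x ∈ (F e).1 from (f2 e h1).1 ▸ Sym2.mem_mk_left _ _)
      (iF.mono fun e he => (cC e he).imp (fun ⟨c, h1⟩ => ⟨x, c, h1⟩) id)
      (by rw [G.degree]; exact hcut)⟩ qG
  obtain ⟨V₂, E₂, n₂, s₂, b₂⟩ := shrink_ex (r := r)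
    (Sigma.fst : (MG.join G H x y u v h h0).E → _) {z | z ∈ X}ᶜ _ F' (fun z hz => by
      rcases z with a | a
      · obtain rfl : x = a := by_contra fun h2 => hz ((hX _).2 ⟨a, Ne.symm h2, rfl⟩)
        refine ⟨u, jF x u _ (fun e he => ?_) (MG.degree _ _).ge⟩
        obtain ⟨b | b, h1⟩ := Sym2.mem_iff_exists.1 he
        · exact .inl ⟨b, h1⟩
        · rcases e_cases e with ⟨c, d, h2, -⟩ | ⟨c, d, h2, -⟩ | ⟨h2 | h2, -⟩
          · exact absurd (eqS h1 h2) (by simp)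
          · exact absurd (eqS h1 h2) (by simp)
          · exact .inr h2
          · exact absurd (eqS h1 h2) (by simp [hxy])
      · have k : ∀ e : (MG.join G H x y u v h h0).E, inr a ∈ e.1 → (∃ c, e.1 = s(inr a, inr c)) ∨
            e.1 = s(inl x, inr a) ∧ a = u ∨ e.1 = s(inl y, inr a) ∧ a = v := fun e he => by
          obtain ⟨b | b, h1⟩ := Sym2.mem_iff_exists.1 he
          · rcases e_cases e with ⟨c, d, h2, -⟩ | ⟨c, d, h2, -⟩ | ⟨h2 | h2, -⟩
            · exact absurd (eqS h1 h2) (by simp)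
            · exact absurd (eqS h1 h2) (by simp)
            · have : a = u := by have := eqS h1 h2; simp at this; tauto
              exact .inr (.inl ⟨this ▸ h2, this⟩)
            · have : a = v := by have := eqS h1 h2; simp at this; tauto
              exact .inr (.inr ⟨this ▸ h2, this⟩)
          · exact .inl ⟨b, h1⟩
        refine ⟨a, bij_of (fun e he => ?_) (fun e he e' he' h3 => ?_)
          ((H.degree _).trans (MG.degree _ _).symm).le⟩
        · rcases k e he with ⟨c, h1⟩ | ⟨h1, h2⟩ | ⟨h1, h2⟩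
          · exact show a ∈ (F' e).1 from (g1 e a c h1).1 ▸ Sym2.mem_mk_left _ _
          · exact show a ∈ (F' e).1 from (g2 e _ _ h1).1 ▸ h2 ▸ Sym2.mem_mk_left _ _
          · exact show a ∈ (F' e).1 from (g2 e _ _ h1).1 ▸ h2 ▸ Sym2.mem_mk_right _ _
        · have k' : ∀ e e' c b, e.1 = s(inr a, inr c) → e'.1 = s(inl b, inr a) → F' e ≠ F' e' :=
            fun e e' c b h1 h2 h3 =>
              (g1 e a c h1).2.1 ((g1 e a c h1).1.symm.trans (h3 ▸ (g2 e' _ _ h2).1))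
          rcases k e he with ⟨c, h1⟩ | ⟨h1, h2⟩ | ⟨h1, h2⟩ <;>
            rcases k e' he' with ⟨d, h4⟩ | ⟨h4, h5⟩ | ⟨h4, h5⟩
          · obtain ⟨a1, -, a3⟩ := g1 e a c h1
            obtain ⟨b1, -, b3⟩ := g1 e' a d h4
            rw [h3] at a1 a3
            refine e_ext ?_ (a3.symm.trans b3)
            rw [h1, h4]
            exact congrArg (Sym2.map inr) (a1.symm.trans b1)
          · exact absurd h3 (k' _ _ _ _ h1 h4)
          · exact absurd h3 (k' _ _ _ _ h1 h4)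
          · exact absurd h3.symm (k' _ _ _ _ h4 h1)
          · exact e_ext (h1.trans h4.symm) ((g2 e _ _ h1).2.symm.trans (h3 ▸ (g2 e' _ _ h4).2))
          · exact absurd (h2.symm.trans h5) huv
          · exact absurd h3.symm (k' _ _ _ _ h4 h1)
          · exact absurd (h5.symm.trans h2) huv
          · exact e_ext (h1.trans h4.symm) ((g2 e _ _ h1).2.symm.trans (h3 ▸ (g2 e' _ _ h4).2)))
    ⟨u, jF y v _ (fun e ⟨a, ha, b, hb, h1⟩ =>
        cC e ⟨b, not_not.1 hb, a, ha, h1.trans Sym2.eq_swap⟩)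
      (hcut.trans (Set.ncard_le_ncard (fun e ⟨a, ha, b, hb, h1⟩ =>
        ⟨b, hb, a, not_not.2 ha, h1.trans Sym2.eq_swap⟩)))⟩ qH
  exact Built.glue _ _ n₁ n₂ s₁ s₂ b₁ b₂

end Join

end Pool.Agent.Lib.MP_ba72f5_co.Cover
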