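import Pool.Agent.Lib.MP_ba72f5_co.CoverDefs

set_option autoImplicit false

namespace Pool.Agent.Lib.MP_ba72f5_co.Cover

/-- `ends'` is (a copy of) the multigraph obtained from `ends` by shrinking all vertices outside
`X` to one new vertex `w` and deleting the edges that have no end in `X`. -/
def Shrink {V E V' E' : Type} (ends : E → Sym2 V) (X : Set V) (ends' : E' → Sym2 V') : Prop :=
  ∃ (f : V → V') (w : V') (g : E' → E), Set.BijOn f X {w}ᶜ ∧ (∀ v ∉ X, f v = w) ∧
    Function.Injective g ∧ Set.range g = {e | ∃ v ∈ X, v ∈ ends e} ∧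
    ∀ e, ends' e = (ends (g e)).map f

/-- The multigraphs obtained from class 1 pieces and Fulkerson pieces of degree `r` (a cubic
multigraph with six perfect matchings `N i` covering each edge twice, plus `k i` further copies of
`N i`) by gluing along cuts and by passing to a graph coloured by a member. -/
inductive Built (r : ℕ) : ∀ {V E : Type}, (E → Sym2 V) → Prop
  | classOne {V E : Type} (ends : E → Sym2 V) (col : E → Fin r) : (∀ e, ¬ (ends e).IsDiag) →
      (∀ i, PerfectMatching ends {e | col e = i}) → Built r ends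
  | fulkerson {V E E₀ : Type} (ends₀ : E₀ → Sym2 V) (N : Fin 6 → Set E₀) (k : Fin 6 → ℕ)
      (π : E → E₀) : Finite E → ∑ i, k i + 3 = r → (∀ y, ¬ (ends₀ y).IsDiag) →
      (∀ i, PerfectMatching ends₀ (N i)) →
      (∀ y, ∃ a b, a ≠ b ∧ (∀ i, y ∈ N i ↔ i = a ∨ i = b) ∧
        {e | π e = y}.ncard = k a + k b + 1) → Built r fun e => ends₀ (π e)
  | glue {V E V₁ E₁ V₂ E₂ : Type} (ends : E → Sym2 V) (X : Set V) (ends₁ : E₁ → Sym2 V₁)
      (ends₂ : E₂ → Sym2 V₂) : Shrink ends X ends₁ → Shrink ends Xᶜ ends₂ →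
      Built r ends₁ → Built r ends₂ → Built r ends
  | colour {V E V' E' : Type} (ends : E → Sym2 V) (ends' : E' → Sym2 V') (f : E → E') :
      (∀ v, ∃ w, Set.BijOn f {e | v ∈ ends e} {e | w ∈ ends' e}) → Built r ends' → Built r ends

end Pool.Agent.Lib.MP_ba72f5_co.Cover
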