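import Pool.Agent.Lib.MP_ba72f5_co.GlueC
import Pool.Agent.Lib.MP_ba72f5_co.GlueD

set_option autoImplicit false

open Finset Sum

namespace Pool.Agent.Lib.MP_ba72f5_co.Cover

open MG

variable {r t : ℕ}

/-- a graph with a bundle of size `ν` whose usage always satisfies `P` -/
def GadQ (r t ν : ℕ) (P : ℕ → Prop) : Prop :=
  ∃ (H : MG 2 r) (u v : H.V), Q H ∧ H.m u v = ν ∧
    ∀ U, H.Sol t (fun a b => a = u ∧ b = v) U → P (U u v)

/-- the constraint `Φ` on the bundles in `S` is realized by a larger graph -/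
def RealizQ (G : MG 2 r) (t : ℕ) (S : G.V → G.V → Prop) (Φ : (G.V → G.V → ℕ) → Prop) : Prop :=
  ∃ (G' : MG 2 r) (ι : G.V → G'.V), Q G' ∧ Function.Injective ι ∧
    (∀ a b, ¬ S a b → ¬ S b a → G'.m (ι a) (ι b) = G.m a b) ∧
    ∀ S0 U', G'.Sol t (Relation.Map S0 ι ι) U' → ∃ U, G.Sol t (fun a b => S0 a b ∨ S a b) U ∧
      Φ U ∧ ∀ a b, ¬ S a b → ¬ S b a → U' (ι a) (ι b) = U a b

lemma realizQ (G : MG 2 r) (qG : Q G) (j : Fin (2 * r)) (P : G.V × G.V → ℕ → Prop) (L : Finset (G.V × G.V))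
    (h1 : ∀ p ∈ L, p.swap ∉ L) (h2 : ∀ p ∈ L, 0 < G.m p.1 p.2)
    (h3 : ∀ p ∈ L, GadQ r t (G.m p.1 p.2) (P p)) :
    RealizQ G t (fun a b => (a, b) ∈ L) fun U => ∀ p ∈ L, P p (U p.1 p.2) := by
  induction L using Finset.induction_on with
  | empty =>
    refine ⟨G, id, qG, Function.injective_id, fun _ _ _ _ => rfl,
      fun S0 U' h => ⟨U', h.mono ?_, by simp, fun _ _ _ _ => rfl⟩⟩
    rintro a b ⟨a', b', e, rfl, rfl⟩
    exact Or.inl e
  | insert p L hp ih =>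
    obtain ⟨x, y⟩ := p
    obtain ⟨G', ι, qG', hι, k1, k2⟩ := ih
      (fun q hq e => h1 q (mem_insert_of_mem hq) (mem_insert_of_mem e))
      (fun q hq => h2 q (mem_insert_of_mem hq)) fun q hq => h3 q (mem_insert_of_mem hq)
    have hp' : (y, x) ∉ L := fun e => h1 _ (mem_insert_self _ _) (mem_insert_of_mem e)
    obtain ⟨H, u, v, qH, e1, e2⟩ := h3 _ (mem_insert_self _ _)
    have e3 := k1 x y hp hp'
    have e4 : G'.m (ι x) (ι y) = H.m u v := e3.trans e1.symm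
    have e5 : 0 < G'.m (ι x) (ι y) := e3 ▸ h2 _ (mem_insert_self _ _)
    refine ⟨join G' H (ι x) (ι y) u v e4 e5, fun a => inl (ι a),
      q_join (by have := j.2; omega) qG' qH, inl_injective.comp hι, fun a b h5 h6 => ?_,
      fun S0 U' h => ?_⟩
    · simp only [mem_insert, Prod.mk.injEq, not_or] at h5 h6
      simp only [join, elim_inl, cut, hι.eq_iff]
      rw [if_neg (by tauto)]
      exact k1 a b h5.2 h6.2
    · obtain ⟨UG, UH, s1, s2, s3, s4⟩ := Sol.split j (S := Relation.Map S0 ι ι) (h.mono (by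
        rintro _ _ ⟨a, b, e, rfl, rfl⟩
        exact ⟨_, _, ⟨a, b, e, rfl, rfl⟩, rfl, rfl⟩))
      obtain ⟨U, s5, s6, s7⟩ := k2 (fun a b => S0 a b ∨ a = x ∧ b = y) UG (s1.mono (by
        rintro _ _ (⟨a, b, e, rfl, rfl⟩ | ⟨rfl, rfl⟩)
        · exact ⟨a, b, Or.inl e, rfl, rfl⟩
        · exact ⟨x, y, Or.inr ⟨rfl, rfl⟩, rfl, rfl⟩))
      refine ⟨U, s5.mono fun a b e => ?_, fun q hq => ?_, fun a b h5 h6 => ?_⟩
      · simp only [mem_insert, Prod.mk.injEq]
        tauto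
      · rcases mem_insert.1 hq with rfl | hq
        · rw [← s7 x y hp hp', s3]
          exact e2 _ s2
        · exact s6 q hq
      · simp only [mem_insert, Prod.mk.injEq, not_or] at h5 h6
        rw [s4 _ _ (by simpa only [hι.eq_iff] using h5.1) (by simpa only [hι.eq_iff] using h6.1)]
        exact s7 a b h5.2 h6.2

lemma RealizQ.gad {G : MG 2 r} {S Φ} (h : RealizQ G t S Φ) {u v : G.V} (h1 : ¬ S u v)
    (h2 : ¬ S v u) {P : ℕ → Prop}
    (h3 : ∀ U, G.Sol t (fun a b => (a = u ∧ b = v) ∨ S a b) U → Φ U → P (U u v)) :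
    GadQ r t (G.m u v) P := by
  obtain ⟨G', ι, qG', -, k1, k2⟩ := h
  refine ⟨G', ι u, ι v, qG', k1 u v h1 h2, fun U' h => ?_⟩
  obtain ⟨U, s1, s2, s3⟩ := k2 (fun a b => a = u ∧ b = v) U' (h.mono (by
    rintro _ _ ⟨rfl, rfl⟩
    exact ⟨u, v, ⟨rfl, rfl⟩, rfl, rfl⟩))
  rw [s3 u v h1 h2]
  exact h3 U s1 s2

lemma RealizQ.unsat {G : MG 2 r} {S Φ} (h : RealizQ G t S Φ)
    (h3 : ∀ U, G.Sol t S U → ¬ Φ U) :
    ∃ G' : MG 2 r, Q G' ∧ ∀ U, ¬ G'.Sol t (fun _ _ => False) U := by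
  obtain ⟨G', ι, qG', -, -, k2⟩ := h
  refine ⟨G', qG', fun U' h => ?_⟩
  obtain ⟨U, s1, s2, -⟩ := k2 (fun _ _ => False) U' (h.mono fun _ _ => False.elim)
  exact h3 U (s1.mono fun a b e => e.resolve_left id) s2

section Types

variable {V κ : Type} [Fintype V] [DecidableEq V] [Fintype κ] [DecidableEq κ]
  {τ : κ → V → V} (h1 : ∀ k a, τ k (τ k a) = a) (w : κ → ℕ) (hw : ∑ k, w k = 2 * r)
  {m : V → V → ℕ} (h2 : ∀ a, m a a = 0)
  (h3 : ∀ a b, ∑ k, (if τ k a = b then w k else 0) = 2 * m a b) (hr : 0 < 2 * r)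
  (hq : Q (ofTypes τ h1 w hw m h2 h3))
  (hτ : ∀ f : V → V, (∀ a, f (f a) = a) → (∀ a, 0 < m a (f a)) → ∃ k, f = τ k)
  (P : V × V → ℕ → Prop) (L : Finset (V × V)) (L1 : ∀ p ∈ L, p.swap ∉ L)
  (L2 : ∀ p ∈ L, 0 < m p.1 p.2) (L3 : ∀ p ∈ L, GadQ r t (m p.1 p.2) (P p))

include h1 hw h2 h3 hr hq hτ L1 L2 L3

lemma types_gadQ (u v : V) (hu : (u, v) ∉ L) (hv : (v, u) ∉ L) (R : ℕ → Prop)
    (hQ : ∀ (n : κ → ℕ) (c : V → Bool), ∑ k, n k = t →
      (∀ a b, ¬ ((a = u ∧ b = v) ∨ (a, b) ∈ L) → ¬ ((b = u ∧ a = v) ∨ (b, a) ∈ L) →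
        (∑ k, if τ k a = b then n k else 0) < m a b → c a ≠ c b) →
      (∀ p ∈ L, P p (∑ k, if τ k p.1 = p.2 then n k else 0)) →
      R (∑ k, if τ k u = v then n k else 0)) : GadQ r t (m u v) R :=
  (realizQ (t := t) (ofTypes τ h1 w hw m h2 h3) hq ⟨0, hr⟩ P L L1 L2 L3).gad hu hv fun U hU hΦ => by
    obtain ⟨n, e1, e2, c, e3⟩ := hU.classify τ hτ
    simp only [e2] at hΦ e3
    exact (congrArg R (e2 u v)).mpr (hQ n c e1 e3 hΦ)

lemma types_unsatQ (hQ : ∀ n : κ → ℕ, ∑ k, n k = t →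
      ¬ ∀ p ∈ L, P p (∑ k, if τ k p.1 = p.2 then n k else 0)) :
    ∃ G : MG 2 r, Q G ∧ ∀ U, ¬ G.Sol t (fun _ _ => False) U :=
  (realizQ (t := t) (ofTypes τ h1 w hw m h2 h3) hq ⟨0, hr⟩ P L L1 L2 L3).unsat fun U hU hΦ => by
    obtain ⟨n, e1, e2, -⟩ := hU.classify τ hτ
    simp only [e2] at hΦ
    exact hQ n e1 hΦ

end Types

lemma q_six (ν k : ℕ) (h1 w hw h2 h3) :
    Q (ofTypes (l := 2) (r := ν + k + 2) τ6 h1 w hw (m6 ν k) h2 h3) := by
  let G := ofTypes (l := 1) (r := ν + k + 2) τ6 h1 ![ν, 1, 1, k]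
    (by simp [Fin.sum_univ_four]; ring) (m6 ν k) h2 fun a b => (one_mul _).symm
  let e : Fin (ν + k + 2) ≃ Fin (1 * (ν + k + 2)) := finCongr (one_mul _).symm
  refine q_one _ (fun j => G.cov (e j)) (fun j => G.inv _) fun a b => ?_
  refine Eq.trans ?_ ((G.cnt a b).trans (one_mul _))
  exact card_equiv e fun j => by simp only [mem_filter, mem_univ, true_and]; rfl

lemma q_pet (s : ℕ) (h1 w hw h2 h3) :
    Q (ofTypes (l := 2) (r := s + 3) τP h1 w hw (mP s) h2 h3) := by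
  refine Built.petersen _ (Equiv.refl (Fin 10)) (fun i => if i = 5 then s else 0) inferInstance
    (by simp) fun a b => ?_
  refine (congrArg (2 * ·) (ncard_bundle (ofTypes (l := 2) (r := s + 3) τP h1 w hw (mP s) h2 h3)
    a b)).trans ((mP_cnt s a b).symm.trans ?_)
  refine sum_congr rfl fun i _ => ?_
  change _ = if τP i a = b then _ else _
  split_ifs <;> omega

/-- the gadgets `Z ν` -/
lemma gadZQ (k : ℕ) : ∀ ν r t : ℕ, r = ν + k + 2 → t + 2 ≤ r → GadQ r t ν (· ≤ ν) := by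
  have hm : ∀ ν k, m6 ν k 0 1 = ν := fun ν k => by simp [m6, τ6, Fin.sum_univ_four]
  have key := fun ν k t => types_gadQ (r := ν + k + 2) (t := t) (τ := τ6) (by decide)
    (fun i => 2 * ![ν, 1, 1, k] i) (by simp [Fin.sum_univ_four]; ring) (m := m6 ν k)
    (fun a => by fin_cases a <;> simp [m6, τ6, Fin.sum_univ_four])
    (fun a b => by simp only [m6, mul_sum, mul_ite, mul_zero]) (by omega)
    (q_six ν k _ _ _ _ _) (B6_class ν k)
    (fun _ n => n ≤ ν + 1)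
  induction k with
  | zero =>
    rintro ν _ t rfl ht
    have := key ν 0 t ∅ (by simp) (by simp) (by simp) 0 1 (by simp) (by simp) (· ≤ ν)
      fun n c h1 _ _ => by
        simp [τ6, Fin.sum_univ_four] at h1 ⊢
        omega
    rwa [hm] at this
  | succ k ih =>
    rintro ν _ t rfl ht
    have := key ν (k + 1) t {(2, 3), (4, 5)} (by decide) (by simp [m6, τ6, Fin.sum_univ_four]) (by
        have := ih (ν + 1) (ν + (k + 1) + 2) t (by omega) ht
        simpa [m6, τ6, Fin.sum_univ_four] using this) 0 1 (by decide) (by decide) (· ≤ ν)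
      fun n c h1 h3 hΦ => by
        have e1 := hΦ (2, 3) (by decide)
        have e2 := hΦ (4, 5) (by decide)
        have e3 := h3 0 3 (by decide) (by decide)
        have e4 := h3 3 5 (by decide) (by decide)
        have e5 := h3 0 5 (by decide) (by decide)
        simp [m6, τ6, Fin.sum_univ_four] at h1 e1 e2 e3 e4 e5 ⊢
        by_contra h
        exact odd3 _ _ _ (e3 (by omega)) (e4 (by omega)) (e5 (by omega))
    rwa [hm] at this

lemma gadFQ (s : ℕ) : GadQ (s + 3) (s + 1) (s + 1) (· ≤ s) := by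
  have hm : mP s 0 5 = s + 1 := by
    have : adjP 0 5 = 1 ∧ τP 5 0 = 5 := by decide
    simp [mP, this, add_comm]
  have := types_gadQ (r := s + 3) (t := s + 1) (τ := τP) (by decide)
    (fun i => 1 + if i = 5 then 2 * s else 0) (by simp [Fin.sum_univ_six]; ring) (mP_diag s)
    (mP_cnt s) (by omega) (q_pet s _ _ _ _ _) (Pet_class s) (fun _ _ => True) ∅ (by simp) (by simp)
    (by simp) 0 5
    (by simp) (by simp) (· ≤ s) fun n c h1 h3 _ => by
      have ha : adjP 0 1 = 1 ∧ adjP 1 2 = 1 ∧ adjP 2 3 = 1 ∧ adjP 3 4 = 1 ∧ adjP 4 0 = 1 ∧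
        adjP 1 6 = 1 ∧ adjP 6 9 = 1 ∧ adjP 9 4 = 1 := by decide
      have e1 := h3 0 1 (by decide) (by decide)
      have e2 := h3 1 2 (by decide) (by decide)
      have e3 := h3 2 3 (by decide) (by decide)
      have e4 := h3 3 4 (by decide) (by decide)
      have e5 := h3 4 0 (by decide) (by decide)
      have e6 := h3 1 6 (by decide) (by decide)
      have e7 := h3 6 9 (by decide) (by decide)
      have e8 := h3 9 4 (by decide) (by decide)
      simp [mP, ha, τP, Fin.sum_univ_six] at h1 e1 e2 e3 e4 e5 e6 e7 e8 ⊢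
      by_contra h
      have g1 := e1 (by omega) (by omega)
      have g5 := e5 (by omega) (by omega)
      by_cases h0 : n 0 = 0
      · exact odd5 _ _ _ _ _ g1 (e2 (by omega) (by omega)) (e3 (by omega) (by omega))
          (e4 (by omega) (by omega)) g5
      · exact odd5 _ _ _ _ _ g1 (e6 (by omega)) (e7 (by omega) (by omega)) (e8 (by omega)) g5
  rwa [hm] at this

theorem unsatQ (s : ℕ) :
    ∃ G : MG 2 (s + 3), Q G ∧ ∀ U, ¬ G.Sol (s + 1) (fun _ _ => False) U := by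
  have hL : ∀ p ∈ (univ.filter fun p : Fin 10 × Fin 10 => p.1 < p.2 ∧ adjP p.1 p.2 = 1),
      mP s p.1 p.2 = if τP 5 p.1 = p.2 then s + 1 else 1 := fun p hp => by
    rw [mP, (mem_filter.1 hp).2.2]
    split_ifs <;> omega
  refine types_unsatQ (τ := τP) (by decide)
    (fun i => 1 + if i = 5 then 2 * s else 0) (by simp [Fin.sum_univ_six]; ring) (mP_diag s)
    (mP_cnt s) (by omega) (q_pet s _ _ _ _ _) (Pet_class s)
    (fun p n => n ≤ if τP 5 p.1 = p.2 then s else 1)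
    (univ.filter fun p => p.1 < p.2 ∧ adjP p.1 p.2 = 1) (fun p hp hq => ?_) (fun p hp => ?_)
    (fun p hp => ?_) fun n h1 h2 => ?_
  · exact lt_asymm (mem_filter.1 hp).2.1 (mem_filter.1 hq).2.1
  · rw [hL p hp]
    split_ifs <;> omega
  · rw [hL p hp]
    split_ifs
    · exact gadFQ s
    · exact gadZQ s 1 _ _ (by omega) (by omega)
  · have e1 := h2 (0, 5) (by decide)
    have e2 := h2 (1, 6) (by decide)
    have e3 := h2 (2, 7) (by decide)
    have e4 := h2 (3, 8) (by decide)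
    have e5 := h2 (4, 9) (by decide)
    have f1 := h2 (0, 1) (by decide)
    have f2 := h2 (1, 2) (by decide)
    have f3 := h2 (2, 3) (by decide)
    have f4 := h2 (3, 4) (by decide)
    have f5 := h2 (0, 4) (by decide)
    have g1 := h2 (5, 7) (by decide)
    have g2 := h2 (7, 9) (by decide)
    have g3 := h2 (6, 9) (by decide)
    have g4 := h2 (6, 8) (by decide)
    have g5 := h2 (5, 8) (by decide)
    simp [τP, Fin.sum_univ_six] at h1 e1 e2 e3 e4 e5 f1 f2 f3 f4 f5 g1 g2 g3 g4 g5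
    omega

lemma sharp (s : ℕ) : ∃ (V E : Type) (_ : Fintype V) (_ : Fintype E) (ends : E → Sym2 V),
    RGraph (s + 3) ends ∧ Built (s + 3) ends ∧
      ∀ (t : ℕ) (M : Fin t → Set E), (∀ i, PerfectMatching ends (M i)) →
        (∀ (v : V) (w : (SimpleGraph.fromEdgeSet (ends '' {e | ∀ i, e ∉ M i})).Walk v v),
          w.IsCycle → Even w.length) → s + 2 ≤ t := by
  obtain ⟨G, qG, hG⟩ := unsatQ s
  refine ⟨G.V, G.E, inferInstance, inferInstance, Sigma.fst, ⟨e_loop, G.degree, G.cut_ge⟩, qG,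
    fun t M hM hb => ?_⟩
  have h : ∀ k, ∃ U, G.Sol (t + k) (fun _ _ => False) U := fun k => by
    induction k with
    | zero => exact G.sol_of M hM hb
    | succ k ih => exact ih.choose_spec.succ ⟨0, by omega⟩
  by_contra h1
  obtain ⟨U, hU⟩ := h (s + 1 - t)
  rw [show t + (s + 1 - t) = s + 1 by omega] at hU
  exact hG U hU

end Pool.Agent.Lib.MP_ba72f5_co.Cover
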