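import Mathlib

set_option autoImplicit false

open Finset Sum

namespace Pool.Agent.Lib.MP_ba72f5_co

/-- a multigraph given by multiplicities, with `l * r` perfect matchings covering each edge
`l` times -/
structure MG (l r : ℕ) where
  V : Type
  [fin : Fintype V]
  [dec : DecidableEq V]
  m : V → V → ℕ
  diag : ∀ a, m a a = 0
  cov : Fin (l * r) → V → V
  inv : ∀ j a, cov j (cov j a) = a
  cnt : ∀ a b, (univ.filter fun j => cov j a = b).card = l * m a b

attribute [instance] MG.fin MG.dec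

variable {l r t : ℕ}

lemma inv_iff {V : Type*} {f : V → V} (h : ∀ a, f (f a) = a) (a b : V) : f a = b ↔ f b = a :=
  ⟨fun e => e ▸ h a, fun e => e ▸ h b⟩

lemma even_card {V : Type*} {f : V → V} (h : ∀ a, f (f a) = a) (X : Finset V)
    (h1 : ∀ a ∈ X, f a ≠ a) (h2 : ∀ a ∈ X, f a ∈ X) : Even X.card := by
  have := sum_involution (f := fun _ => (1 : ZMod 2)) (fun a _ => f a) (fun _ _ => rfl)
    (fun a ha _ => h1 a ha) h2 fun a _ => h a
  rwa [sum_const, nsmul_eq_mul, mul_one, ZMod.natCast_eq_zero_iff_even] at this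

namespace MG

lemma symm (G : MG l r) (hl : l ≠ 0) (a b : G.V) : G.m a b = G.m b a := by
  refine Nat.eq_of_mul_eq_mul_left (Nat.pos_of_ne_zero hl) ?_
  rw [← G.cnt, ← G.cnt]
  simp only [inv_iff (G.inv _) a]

lemma ne (G : MG l r) (j : Fin (l * r)) (a : G.V) : G.cov j a ≠ a := fun e => by
  have := G.cnt a a
  rw [G.diag, mul_zero, card_eq_zero] at this
  exact notMem_empty j (this ▸ mem_filter.mpr ⟨mem_univ _, e⟩)

lemma pos (G : MG l r) (j : Fin (l * r)) (a : G.V) : 0 < G.m a (G.cov j a) :=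
  Nat.pos_of_mul_pos_left (G.cnt a _ ▸ card_pos.mpr ⟨j, by simp⟩)

/-- usage functions of `t` perfect matchings whose removal leaves a graph that is bipartite
apart from the pairs in `S` -/
def Sol (G : MG l r) (t : ℕ) (S : G.V → G.V → Prop) (U : G.V → G.V → ℕ) : Prop :=
  ∃ π : Fin t → G.V → G.V, (∀ i a, π i (π i a) = a) ∧ (∀ i a, 0 < G.m a (π i a)) ∧
    (∀ a b, U a b = (univ.filter fun i => π i a = b).card) ∧
      ∃ c : G.V → Bool, ∀ a b, ¬ S a b → ¬ S b a → U a b < G.m a b → c a ≠ c b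

lemma Sol.succ {G : MG l r} (j : Fin (l * r)) {S U} (h : G.Sol t S U) :
    ∃ U', G.Sol (t + 1) S U' := by
  obtain ⟨π, h1, h2, h3, c, h4⟩ := h
  refine ⟨_, Fin.cons (G.cov j) π, Fin.cases (G.inv j) h1, Fin.cases (G.pos j) h2, fun _ _ => rfl,
    c, fun a b h5 h6 h7 => h4 a b h5 h6 (lt_of_le_of_lt ?_ h7)⟩
  rw [h3]
  exact card_le_card_of_injOn Fin.succ (fun i hi => by simpa using hi) (Fin.succ_injective _).injOn

lemma Sol.classify {G : MG l r} {S U} (h : G.Sol t S U) {κ : Type} [Fintype κ] (τ : κ → G.V → G.V)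
    (hτ : ∀ f : G.V → G.V, (∀ a, f (f a) = a) → (∀ a, 0 < G.m a (f a)) → ∃ k, f = τ k) :
    ∃ n : κ → ℕ, ∑ k, n k = t ∧ (∀ a b, U a b = ∑ k, if τ k a = b then n k else 0) ∧
      ∃ c : G.V → Bool, ∀ a b, ¬ S a b → ¬ S b a → U a b < G.m a b → c a ≠ c b := by
  classical
  obtain ⟨π, h1, h2, h3, h4⟩ := h
  choose k hk using fun i => hτ (π i) (h1 i) (h2 i)
  refine ⟨fun x => (univ.filter fun i => k i = x).card, ?_, fun a b => ?_, h4⟩
  · exact (card_eq_sum_card_fiberwise (f := k) (s := univ) (t := univ)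
      fun _ _ => mem_univ _).symm.trans (card_fin _)
  · rw [h3, card_eq_sum_card_fiberwise (f := k) (t := univ) fun _ _ => mem_univ _]
    refine sum_congr rfl fun x _ => ?_
    split_ifs with e
    · exact congrArg card (ext fun i => by simp +contextual [hk, e])
    · exact card_eq_zero.mpr (filter_eq_empty_iff.mpr fun i hi e' => e (by simpa [hk, e'] using hi))

/-- multiplicities after cutting a bundle -/
def cut (G : MG l r) (x y a b : G.V) : ℕ := if a = x ∧ b = y ∨ a = y ∧ b = x then 0 else G.m a b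

/-- one half of the glued matching -/
def half {V W : Type} [DecidableEq V] (f : V → V) (x y : V) (u v : W) (a : V) : V ⊕ W :=
  if f x = y ∧ a = x then inr u else if f x = y ∧ a = y then inr v else inl (f a)

lemma half_cnt (G : MG l r) {W : Type} [DecidableEq W] {x y : G.V} (h : x ≠ y) (u v : W) (a : G.V)
    (z : G.V ⊕ W) : (univ.filter fun j => half (G.cov j) x y u v a = z).card =
      l * z.elim (G.cut x y a) fun b => if a = x ∧ b = u ∨ a = y ∧ b = v then G.m x y else 0 := by
  have e := fun j => inv_iff (G.inv j) y x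
  rcases z with b | b <;> simp only [half, cut, elim_inl, elim_inr] <;> split_ifs with h1 <;>
    first
    | rw [← G.cnt]
      exact congrArg card (ext fun j => by have := e j; grind)
    | exact card_eq_zero.mpr (filter_eq_empty_iff.mpr fun j _ => by have := e j; grind)

lemma exists_perm (G H : MG l r) {x y : G.V} {u v : H.V} (h : G.m x y = H.m u v) :
    ∃ σ : Equiv.Perm (Fin (l * r)), ∀ j, G.cov j x = y ↔ H.cov (σ j) u = v := by
  have e : {j // G.cov j x = y} ≃ {j // H.cov j u = v} := Fintype.equivOfCardEq (by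
    rw [Fintype.card_subtype, Fintype.card_subtype, G.cnt, H.cnt, h])
  exact ⟨e.extendSubtype, fun j => ⟨e.extendSubtype_mem j,
    fun h => by_contra fun h' => e.extendSubtype_not_mem j h' h⟩⟩

/-- two multigraphs joined along bundles of the same size -/
noncomputable def join (G H : MG l r) (x y : G.V) (u v : H.V) (h : G.m x y = H.m u v)
    (h0 : 0 < G.m x y) : MG l r where
  V := G.V ⊕ H.V
  m := Sum.elim (fun a => Sum.elim (G.cut x y a) fun b =>
      if a = x ∧ b = u ∨ a = y ∧ b = v then G.m x y else 0)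
    fun b z => z.swap.elim (H.cut u v b) fun a =>
      if b = u ∧ a = x ∨ b = v ∧ a = y then H.m u v else 0
  diag := by rintro (a | a) <;> simp [cut, diag]
  cov j := Sum.elim (half (G.cov j) x y u v)
    fun b => (half (H.cov ((exists_perm G H h).choose j)) u v x y b).swap
  inv j := by
    have h1 := (exists_perm G H h).choose_spec j
    have h2 : x ≠ y := fun e => by simp [e, G.diag] at h0
    have h3 : u ≠ v := fun e => by simp [h, e, H.diag] at h0
    have h4 := G.inv j
    have h5 := H.inv ((exists_perm G H h).choose j)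
    rintro (a | a) <;> simp only [elim_inl, elim_inr, half] <;> split_ifs <;>
      simp only [elim_inl, elim_inr, half, swap_inl, swap_inr] <;> grind
  cnt := by
    rintro (a | a) z
    · exact half_cnt G (fun e => by simp [e, G.diag] at h0) u v a z
    · refine Eq.trans ?_ (half_cnt H (fun e => by simp [h, e, H.diag] at h0) x y a z.swap)
      exact card_equiv (exists_perm G H h).choose fun j => by
        simp only [mem_filter, mem_univ, true_and, elim_inr]
        exact ⟨fun e => by rw [← e, swap_swap], fun e => by rw [e, swap_swap]⟩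

lemma proj {V W : Type} [Fintype V] [DecidableEq V] (hV : Even (Fintype.card V)) {x y : V}
    {u v : W} (h : x ≠ y) {π : V ⊕ W → V ⊕ W} (h1 : ∀ a, π (π a) = a) (h2 : ∀ a, π a ≠ a)
    (h3 : ∀ a b, π (inl a) = inr b → a = x ∧ b = u ∨ a = y ∧ b = v)
    (h4 : π (inl x) ≠ inl y) : ∃ f : V → V, (∀ a, f (f a) = a) ∧ ∀ a,
      π (inl a) = half f x y u v a := by
  classical
  have key : ∀ x y : V, (∀ a b, π (inl a) = inr b → a = x ∨ a = y) → ∀ b, π (inl x) = inr b →
      ∀ a, π (inl y) ≠ inl a := fun x y h3 b hb a ha => by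
    have := even_card h1 ((univ.erase x).map .inl) (fun a _ => h2 a) (by
      simp only [mem_map, mem_erase, mem_univ, and_true, Function.Embedding.inl_apply]
      rintro _ ⟨z, hz, rfl⟩
      rcases e : π (inl z) with w | w <;> grind)
    rw [card_map, card_erase_of_mem (mem_univ _), card_univ] at this
    have := Fintype.card_pos_iff.mpr ⟨x⟩
    grind
  have k1 := key x y (by grind)
  have k2 := key y x (by grind)
  refine ⟨fun a => (π (inl a)).elim id fun _ => if a = x then y else x, fun a => ?_, fun a => ?_⟩ <;>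
    rcases e : π (inl a) with w | w <;> rcases e1 : π (inl x) with w1 | w1 <;>
      rcases e2 : π (inl y) with w2 | w2 <;> simp only [half, elim_inl, elim_inr, id, e, e1] <;>
        grind

lemma even_V (G : MG l r) (j : Fin (l * r)) : Even (Fintype.card G.V) :=
  even_card (G.inv j) univ (fun a _ => G.ne j a) fun _ _ => mem_univ _

lemma Sol.mono {G : MG l r} {S S' U} (h : G.Sol t S U) (hS : ∀ a b, S a b → S' a b) :
    G.Sol t S' U := by
  obtain ⟨π, h1, h2, h3, c, h4⟩ := h
  exact ⟨π, h1, h2, h3, c, fun a b h5 h6 => h4 a b (mt (hS a b) h5) (mt (hS b a) h6)⟩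

/-- the solutions of a join restrict to both sides -/
lemma Sol.split {G H : MG l r} (j : Fin (l * r)) {x y : G.V} {u v : H.V} {h : G.m x y = H.m u v}
    {h0 : 0 < G.m x y} {S : G.V → G.V → Prop} {U}
    (hs : (join G H x y u v h h0).Sol t (Relation.Map S inl inl) U) :
    ∃ UG UH, G.Sol t (fun a b => S a b ∨ a = x ∧ b = y) UG ∧
      H.Sol t (fun a b => a = u ∧ b = v) UH ∧ UG x y = UH u v ∧
      ∀ a b, ¬ (a = x ∧ b = y) → ¬ (b = x ∧ a = y) → U (inl a) (inl b) = UG a b := by
  have hl : l ≠ 0 := by rintro rfl; exact absurd j.2 (by simp)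
  obtain ⟨π, h1, h2, h3, c, h4⟩ := hs
  have hxy : x ≠ y := fun e => by simp [e, G.diag] at h0
  have huv : u ≠ v := fun e => by simp [h, e, H.diag] at h0
  have hne : ∀ i a, π i a ≠ a := fun i a e => by
    have := h2 i a
    rw [e, MG.diag] at this
    exact lt_irrefl _ this
  have hG : ∀ i, ∃ f : G.V → G.V, (∀ a, f (f a) = a) ∧ ∀ a,
      π i (inl a) = half f x y u v a := fun i =>
    proj (G.even_V j) hxy (h1 i) (hne i) (fun a b e => by
      have := h2 i (inl a)
      rw [e] at this
      by_contra h5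
      simp only [join, elim_inl, elim_inr, if_neg h5, lt_irrefl] at this) fun e => by
      have := h2 i (inl x)
      rw [e] at this
      simp [join, cut] at this
  have hH : ∀ i, ∃ f : H.V → H.V, (∀ a, f (f a) = a) ∧ ∀ a,
      (π i (inr a)).swap = half f u v x y a := fun i =>
    proj (π := fun z => (π i z.swap).swap) (H.even_V j) huv
      (fun a => by simp only [swap_swap, h1])
      (fun a e => hne i a.swap (by rw [← swap_swap (π i a.swap), e])) (fun a b e => by
      have := h2 i (inr a)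
      simp only [swap_inl] at e
      by_contra h5
      simp only [join, elim_inr, e, if_neg h5, lt_irrefl] at this) fun e => by
      have := h2 i (inr u)
      simp only [swap_inl] at e
      simp [join, cut, e] at this
  choose f f1 f2 using hG
  choose g g1 g2 using hH
  have kG : ∀ i a b, ¬ (a = x ∧ b = y) → ¬ (b = x ∧ a = y) →
      (π i (inl a) = inl b ↔ f i a = b) := fun i a b h5 h6 => by
    have := f1 i
    rw [f2, half]
    grind
  have kH : ∀ i a b, ¬ (a = u ∧ b = v) → ¬ (b = u ∧ a = v) →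
      (π i (inr a) = inr b ↔ g i a = b) := fun i a b h5 h6 => by
    have := g1 i
    rw [← swap_swap (π i (inr a)), g2, half]
    split_ifs <;> simp only [swap_inl, swap_inr] <;> grind
  have uG : ∀ a b, ¬ (a = x ∧ b = y) → ¬ (b = x ∧ a = y) →
      U (inl a) (inl b) = (univ.filter fun i => f i a = b).card := fun a b h5 h6 => by
    rw [h3]
    exact congrArg card (filter_congr fun i _ => kG i a b h5 h6)
  have uH : ∀ a b, ¬ (a = u ∧ b = v) → ¬ (b = u ∧ a = v) →
      U (inr a) (inr b) = (univ.filter fun i => g i a = b).card := fun a b h5 h6 => by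
    rw [h3]
    exact congrArg card (filter_congr fun i _ => kH i a b h5 h6)
  refine ⟨_, _, ⟨f, f1, fun i a => ?_, fun _ _ => rfl, fun a => c (inl a),
    fun a b h5 h6 h7 => ?_⟩, ⟨g, g1, fun i a => ?_, fun _ _ => rfl, fun a => c (inr a),
    fun a b h5 h6 h7 => ?_⟩, ?_, uG⟩
  · by_cases h5 : a = x ∧ f i a = y ∨ f i a = x ∧ a = y
    · rcases h5 with ⟨e1, e2⟩ | ⟨e1, e2⟩
      · rwa [e2, e1]
      · rwa [e1, e2, G.symm hl]
    · have := h2 i (inl a)
      rw [(kG i a (f i a) (by tauto) (by tauto)).2 rfl] at this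
      simp only [join, elim_inl, cut] at this
      split_ifs at this
      · omega
      · exact this
  · refine h4 (inl a) (inl b) ?_ ?_ ?_
    · rintro ⟨a', b', e, e1, e2⟩
      cases e1; cases e2
      exact h5 (Or.inl e)
    · rintro ⟨a', b', e, e1, e2⟩
      cases e1; cases e2
      exact h6 (Or.inl e)
    · rw [uG a b (by tauto) (by tauto)]
      simp only [join, elim_inl, cut]
      rwa [if_neg (by tauto)]
  · by_cases h5 : a = u ∧ g i a = v ∨ g i a = u ∧ a = v
    · rcases h5 with ⟨e1, e2⟩ | ⟨e1, e2⟩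
      · rwa [e2, e1, ← h]
      · rwa [e1, e2, H.symm hl, ← h]
    · have := h2 i (inr a)
      rw [(kH i a (g i a) (by tauto) (by tauto)).2 rfl] at this
      simp only [join, elim_inl, elim_inr, cut, swap_inr] at this
      split_ifs at this
      · omega
      · exact this
  · refine h4 (inr a) (inr b) ?_ ?_ ?_
    · rintro ⟨a', b', e, e1, e2⟩
      cases e1
    · rintro ⟨a', b', e, e1, e2⟩
      cases e1
    · rw [uH a b (by tauto) (by tauto)]
      simp only [join, elim_inl, elim_inr, cut, swap_inr]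
      rwa [if_neg (by tauto)]
  · refine congrArg card (filter_congr fun i _ => ?_)
    have e1 := f2 i x
    have e2 := g2 i u
    have e3 := h1 i (inl x)
    have e4 := h1 i (inr u)
    simp only [half] at e1 e2
    constructor
    · intro e
      rw [if_pos ⟨e, trivial⟩] at e1
      rw [e1] at e3
      rw [e3] at e2
      by_contra e5
      simp [e5] at e2
    · intro e
      rw [if_pos ⟨e, trivial⟩] at e2
      have e6 : π i (inr u) = inl x := by rw [← swap_swap (π i (inr u)), e2]; rfl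
      rw [e6] at e4
      rw [e4] at e1
      by_contra e5
      simp [e5] at e1

end MG

open MG

/-- a graph with a bundle of size `ν` whose usage always satisfies `P` -/
def Gad (l r t ν : ℕ) (P : ℕ → Prop) : Prop :=
  ∃ (H : MG l r) (u v : H.V), H.m u v = ν ∧
    ∀ U, H.Sol t (fun a b => a = u ∧ b = v) U → P (U u v)

/-- the constraint `Φ` on the bundles in `S` is realized by a larger graph -/
def Realiz (G : MG l r) (t : ℕ) (S : G.V → G.V → Prop) (Φ : (G.V → G.V → ℕ) → Prop) : Prop :=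
  ∃ (G' : MG l r) (ι : G.V → G'.V), Function.Injective ι ∧
    (∀ a b, ¬ S a b → ¬ S b a → G'.m (ι a) (ι b) = G.m a b) ∧
    ∀ S0 U', G'.Sol t (Relation.Map S0 ι ι) U' → ∃ U, G.Sol t (fun a b => S0 a b ∨ S a b) U ∧
      Φ U ∧ ∀ a b, ¬ S a b → ¬ S b a → U' (ι a) (ι b) = U a b

lemma realiz (G : MG l r) (j : Fin (l * r)) (P : G.V × G.V → ℕ → Prop) (L : Finset (G.V × G.V))
    (h1 : ∀ p ∈ L, p.swap ∉ L) (h2 : ∀ p ∈ L, 0 < G.m p.1 p.2)
    (h3 : ∀ p ∈ L, Gad l r t (G.m p.1 p.2) (P p)) :
    Realiz G t (fun a b => (a, b) ∈ L) fun U => ∀ p ∈ L, P p (U p.1 p.2) := by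
  induction L using Finset.induction_on with
  | empty =>
    refine ⟨G, id, Function.injective_id, fun _ _ _ _ => rfl, fun S0 U' h => ⟨U', h.mono ?_, by simp,
      fun _ _ _ _ => rfl⟩⟩
    rintro a b ⟨a', b', e, rfl, rfl⟩
    exact Or.inl e
  | insert p L hp ih =>
    obtain ⟨x, y⟩ := p
    obtain ⟨G', ι, hι, k1, k2⟩ := ih
      (fun q hq e => h1 q (mem_insert_of_mem hq) (mem_insert_of_mem e))
      (fun q hq => h2 q (mem_insert_of_mem hq)) fun q hq => h3 q (mem_insert_of_mem hq)
    have hp' : (y, x) ∉ L := fun e => h1 _ (mem_insert_self _ _) (mem_insert_of_mem e)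
    obtain ⟨H, u, v, e1, e2⟩ := h3 _ (mem_insert_self _ _)
    have e3 := k1 x y hp hp'
    have e4 : G'.m (ι x) (ι y) = H.m u v := e3.trans e1.symm
    have e5 : 0 < G'.m (ι x) (ι y) := e3 ▸ h2 _ (mem_insert_self _ _)
    refine ⟨join G' H (ι x) (ι y) u v e4 e5, fun a => inl (ι a),
      inl_injective.comp hι, fun a b h5 h6 => ?_, fun S0 U' h => ?_⟩
    · simp only [mem_insert, Prod.mk.injEq, not_or] at h5 h6
      simp only [join, elim_inl, cut, hι.eq_iff]
      rw [if_neg (by tauto)]
      exact k1 a b h5.2 h6.2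
    · obtain ⟨UG, UH, s1, s2, s3, s4⟩ := Sol.split j (S := Relation.Map S0 ι ι) (h.mono (by
        rintro _ _ ⟨a, b, e, rfl, rfl⟩
        exact ⟨_, _, ⟨a, b, e, rfl, rfl⟩, rfl, rfl⟩))
      obtain ⟨U, s5, s6, s7⟩ := k2 (fun a b => S0 a b ∨ a = x ∧ b = y) UG (s1.mono (by
        rintro _ _ (⟨a, b, e, rfl, rfl⟩ | ⟨rfl, rfl⟩)
        · exact ⟨a, b, Or.inl e, rfl, rfl⟩
        · exact ⟨x, y, Or.inr ⟨rfl, rfl⟩, rfl, rfl⟩))
      refine ⟨U, s5.mono fun a b e => ?_, fun q hq => ?_, fun a b h5 h6 => ?_⟩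
      · simp only [mem_insert, Prod.mk.injEq]
        tauto
      · rcases mem_insert.1 hq with rfl | hq
        · rw [← s7 x y hp hp', s3]
          exact e2 _ s2
        · exact s6 q hq
      · simp only [mem_insert, Prod.mk.injEq, not_or] at h5 h6
        rw [s4 _ _ (by simpa only [hι.eq_iff] using h5.1) (by simpa only [hι.eq_iff] using h6.1)]
        exact s7 a b h5.2 h6.2

lemma Realiz.gad {G : MG l r} {S Φ} (h : Realiz G t S Φ) {u v : G.V} (h1 : ¬ S u v) (h2 : ¬ S v u)
    {P : ℕ → Prop}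
    (h3 : ∀ U, G.Sol t (fun a b => (a = u ∧ b = v) ∨ S a b) U → Φ U → P (U u v)) :
    Gad l r t (G.m u v) P := by
  obtain ⟨G', ι, -, k1, k2⟩ := h
  refine ⟨G', ι u, ι v, k1 u v h1 h2, fun U' h => ?_⟩
  obtain ⟨U, s1, s2, s3⟩ := k2 (fun a b => a = u ∧ b = v) U' (h.mono (by
    rintro _ _ ⟨rfl, rfl⟩
    exact ⟨u, v, ⟨rfl, rfl⟩, rfl, rfl⟩))
  rw [s3 u v h1 h2]
  exact h3 U s1 s2

lemma Realiz.unsat {G : MG l r} {S Φ} (h : Realiz G t S Φ)
    (h3 : ∀ U, G.Sol t S U → ¬ Φ U) : ∃ G' : MG l r, ∀ U, ¬ G'.Sol t (fun _ _ => False) U := by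
  obtain ⟨G', ι, -, -, k2⟩ := h
  refine ⟨G', fun U' h => ?_⟩
  obtain ⟨U, s1, s2, -⟩ := k2 (fun _ _ => False) U' (h.mono fun _ _ => False.elim)
  exact h3 U (s1.mono fun a b e => e.resolve_left id) s2

/-- a weighted sum of perfect matchings -/
noncomputable def ofTypes {V κ : Type} [Fintype V] [DecidableEq V] [Fintype κ] [DecidableEq κ]
    (τ : κ → V → V) (h1 : ∀ k a, τ k (τ k a) = a) (w : κ → ℕ) (hw : ∑ k, w k = l * r)
    (m : V → V → ℕ) (h2 : ∀ a, m a a = 0)
    (h3 : ∀ a b, ∑ k, (if τ k a = b then w k else 0) = l * m a b) : MG l r where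
  V := V
  m := m
  diag := h2
  cov j := τ ((Fintype.equivOfCardEq (α := Fin (l * r)) (β := Σ k, Fin (w k))
    (by simp [hw])) j).1
  inv j := h1 _
  cnt a b := by
    rw [← h3, card_equiv (Fintype.equivOfCardEq (α := Fin (l * r)) (β := Σ k, Fin (w k))
      (by simp [hw])) (t := univ.filter fun z => τ z.1 a = b) (by simp), card_filter,
      Fintype.sum_sigma]
    refine sum_congr rfl fun k _ => ?_
    split_ifs <;> simp

end Pool.Agent.Lib.MP_ba72f5_co
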