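import Pool.Agent.Lib.MP_ba72f5_co.NearGad

set_option autoImplicit false

open Finset Sum

namespace Pool.Agent.Lib.MP_ba72f5_co.Cover

variable {V I : Type}

lemma ite_iff {p q : Prop} (h : p ↔ q) {dp : Decidable p} {dq : Decidable q} {a b : ℕ} :
    @ite _ p dp a b = @ite _ q dq a b := if_congr h rfl rfl

open Classical in
/-- `t` perfect matchings on the level of bundles, with the usage bounds asked by the labels -/
def Sol [Fintype I] (R t : ℕ) (x y : I → V) (m l : I → ℕ) : Prop :=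
  ∃ π : Fin t → I → ℕ, (∀ j v, (∑ i, if v = x i ∨ v = y i then π j i else 0) = 1) ∧
    (∀ j i, m i = 0 → π j i = 0) ∧ (∀ i, l i ≠ 0 → ∑ j, π j i + R ≤ m i + 2 + t) ∧
    (∀ i, l i = 2 → m i ≤ ∑ j, π j i + 2) ∧
    ∀ i1 i2 i3 a b c, l i1 = 0 → l i2 = 0 → l i3 = 0 → s(x i1, y i1) = s(a, b) →
      s(x i2, y i2) = s(a, c) → s(x i3, y i3) = s(b, c) →
      m i1 ≤ ∑ j, π j i1 ∨ m i2 ≤ ∑ j, π j i2 ∨ m i3 ≤ ∑ j, π j i3

def Loc (R t : ℕ) (A B : Fin 10 → Fin 8) (w l : Fin 10 → ℕ) (π : Fin t → Fin 10 → ℕ) : Prop :=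
  (∀ j v, dg A B (π j) v = 1) ∧ (∀ j k, w k = 0 → π j k = 0) ∧
    (∀ k, l k ≠ 0 → ∑ j, π j k + R ≤ w k + 2 + t) ∧
    (l 9 = 0 → l 8 = 0 → l 7 = 0 → A 8 = A 9 → A 7 = B 9 → B 7 = B 8 →
      w 9 ≤ ∑ j, π j 9 ∨ w 8 ≤ ∑ j, π j 8 ∨ w 7 ≤ ∑ j, π j 7)

open Classical in
lemma Sol.proj [Fintype I] {A B : Fin 10 → Fin 8} {w0 w1 w2 w lam : Fin 10 → ℕ} {c R t : ℕ}
    {x y : I → V} {m l : I → ℕ} (hg : Good A B w0 w1 w2 c) (i0 : I) (hxy : x i0 ≠ y i0)
    (hl : l i0 ≠ 0) (hw : w 0 = m i0)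
    (h : Sol R t (nx x (x i0) (y i0) A) (nx y (x i0) (y i0) B) (nm m i0 w) (nm l i0 lam))
    (hloc : ∀ π : Fin t → Fin 10 → ℕ, Loc R t A B w lam π → (∀ j, π j 1 = π j 0) ∧
      ∑ j, π j 0 + R ≤ m i0 + 2 + t ∧ (l i0 = 2 → m i0 ≤ ∑ j, π j 0 + 2)) :
    Sol R t x y m l := by
  obtain ⟨π, h1, h2, h3, h4, h5⟩ := h
  obtain ⟨g1, g2, g3⟩ := hloc (fun j k => π j (inr k)) ⟨fun j v => by
      rw [← sum_inr (x := x) (y := y) (x i0) (y i0) (π j) v, ← h1 j (inr v)]
      exact sum_congr rfl fun i _ => ite_iff Iff.rfl,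
    fun j k hk => h2 j (inr k) hk, fun k hk => h3 (inr k) hk,
    fun a9 a8 a7 e1 e2 e3 => h5 (inr 9) (inr 8) (inr 7) _ _
      (jo (x i0) (y i0) (B 8)) a9 a8 a7 rfl
      (by simp only [nx, Sum.elim_inr, e1]) (by simp only [nx, Sum.elim_inr, e2, e3])⟩
  have hm : ∀ (g : I → ℕ) (u : Fin 10 → ℕ) (i : I), i ≠ i0 → nm g i0 u (inl i) = g i :=
    fun g u i hi => by simp [nm, hi]
  refine ⟨fun j i => if i = i0 then π j (inr 0) else π j (inl i), fun j a => ?_, fun j i hi => ?_,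
    fun i hi => ?_, fun i hi => ?_, fun i1 i2 i3 a b c a1 a2 a3 e1 e2 e3 => ?_⟩
  · rw [sum_upd hxy i0 rfl rfl (fun i => π j (inl i)) (π j (inr 0)) a, ← h1 j (inl a)]
    refine Eq.trans ?_ ((sum_inl (x := x) (y := y) hg (x i0) (y i0) (π j) a).symm.trans
      (sum_congr rfl fun i _ => ite_iff Iff.rfl))
    have := g1 j
    beta_reduce at this
    rw [this]
    congr 1
    refine sum_congr rfl fun i _ => if_congr Iff.rfl ?_ rfl
    split_ifs with hi
    · rw [hi]; exact (h2 j (inl i0) (by simp [nm])).symm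
    · rfl
  · beta_reduce
    split_ifs with h
    · exact h2 j (inr 0) (hw.trans (h ▸ hi))
    · exact h2 j (inl i) ((hm _ _ _ h).trans hi)
  · by_cases h : i = i0
    · simp only [h, if_true]; exact g2
    · simp only [h, if_false]
      have := h3 (inl i) (by rwa [hm _ _ _ h])
      rwa [hm _ _ _ h] at this
  · by_cases h : i = i0
    · simp only [h, if_true]; exact g3 (h ▸ hi)
    · simp only [h, if_false]
      have := h4 (inl i) (by rwa [hm _ _ _ h])
      rwa [hm _ _ _ h] at this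
  · have n1 : i1 ≠ i0 := fun h => hl (h ▸ a1)
    have n2 : i2 ≠ i0 := fun h => hl (h ▸ a2)
    have n3 : i3 ≠ i0 := fun h => hl (h ▸ a3)
    have := h5 (inl i1) (inl i2) (inl i3) (inl a) (inl b) (inl c) ((hm _ _ _ n1).trans a1)
      ((hm _ _ _ n2).trans a2) ((hm _ _ _ n3).trans a3) (congrArg (Sym2.map inl) e1)
      (congrArg (Sym2.map inl) e2) (congrArg (Sym2.map inl) e3)
    rw [hm _ _ _ n1, hm _ _ _ n2, hm _ _ _ n3] at this
    simpa only [n1, n2, n3, if_false] using this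

def pl : Fin 10 → ℕ := ![0, 0, 1, 1, 0, 0, 0, 0, 0, 0]
def ql : Fin 10 → ℕ := ![1, 0, 1, 0, 0, 0, 0, 0, 0, 0]

lemma loc_p {R t a b : ℕ} (hR : R = 2 + a + b) (π : Fin t → Fin 10 → ℕ)
    (h : Loc R t pA pB (fun k => p0 k + a * p1 k + b * p2 k) pl π) :
    (∀ j, π j 1 = π j 0) ∧ ∑ j, π j 0 + R ≤ a + 2 + t := by
  obtain ⟨h1, -, h3, h4⟩ := h
  have key : ∀ j, π j 1 = π j 0 ∧ π j 0 + π j 7 ≤ π j 2 ∧ π j 0 + π j 8 ≤ π j 3 ∧
      π j 0 + π j 9 ≤ 1 := fun j => by
    have e0 := h1 j 0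
    have e1 := h1 j 1
    have e2 := h1 j 2
    have e3 := h1 j 3
    have e4 := h1 j 4
    have e5 := h1 j 5
    simp [dg, Fin.sum_univ_succ, pA, pB] at e0 e1 e2 e3 e4 e5
    omega
  refine ⟨fun j => (key j).1, ?_⟩
  have s1 := sum_le_sum (s := univ) fun j _ => (key j).2.1
  have s2 := sum_le_sum (s := univ) fun j _ => (key j).2.2.1
  have s3 := sum_le_sum (s := univ) fun j _ => (key j).2.2.2
  rw [sum_add_distrib] at s1 s2 s3
  have u2 := h3 2 (by decide)
  have u3 := h3 3 (by decide)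
  have u4 := h4 rfl rfl rfl rfl rfl rfl
  simp only [sum_const, card_univ, Fintype.card_fin, smul_eq_mul, mul_one] at s3
  change ∑ j, π j 2 + R ≤ 1 + a * 1 + b * 0 + 2 + t at u2
  change ∑ j, π j 3 + R ≤ 1 + a * 1 + b * 0 + 2 + t at u3
  change 0 + a * 0 + b * 1 ≤ ∑ j, π j 9 ∨ 1 + a * 0 + b * 0 ≤ ∑ j, π j 8 ∨
    1 + a * 0 + b * 0 ≤ ∑ j, π j 7 at u4
  omega

lemma loc_q {R t a b : ℕ} (hR : R = 0 + a + b) (π : Fin t → Fin 10 → ℕ)
    (h : Loc R t qA qB (fun k => 0 + a * q1 k + b * q2 k) ql π) :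
    (∀ j, π j 1 = π j 0) ∧ ∑ j, π j 0 + R ≤ a + 2 + t ∧ a ≤ ∑ j, π j 0 + 2 := by
  obtain ⟨h1, h2, h3, -⟩ := h
  have key : ∀ j, π j 1 = π j 0 ∧ π j 0 + π j 2 = 1 := fun j => by
    have e0 := h1 j 0
    have e1 := h1 j 1
    have e2 := h1 j 2
    have e3 := h1 j 3
    have e4 := h1 j 4
    have e5 := h1 j 5
    have z7 := h2 j 7 rfl
    have z8 := h2 j 8 rfl
    have z9 := h2 j 9 rfl
    simp [dg, Fin.sum_univ_succ, qA, qB] at e0 e1 e2 e3 e4 e5
    omega
  have s1 := sum_congr (s₁ := univ) rfl fun j _ => (key j).2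
  rw [sum_add_distrib] at s1
  simp only [sum_const, card_univ, Fintype.card_fin, smul_eq_mul, mul_one] at s1
  have u0 := h3 0 (by decide)
  have u2 := h3 2 (by decide)
  change ∑ j, π j 0 + R ≤ 0 + a * 1 + b * 0 + 2 + t at u0
  change ∑ j, π j 2 + R ≤ 0 + a * 0 + b * 1 + 2 + t at u2
  exact ⟨fun j => (key j).1, by omega, by omega⟩

/-- the hypothesis: every `R`-graph has `t` perfect matchings leaving no odd cycle -/
def Bip (R t : ℕ) : Prop :=
  ∀ (V E : Type) [Fintype V] [Fintype E] (ends : E → Sym2 V), RGraph R ends →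
    ∃ M : Fin t → Set E, (∀ i, PerfectMatching ends (M i)) ∧
      ∀ (v : V) (w : (SimpleGraph.fromEdgeSet (ends '' {e | ∀ i, e ∉ M i})).Walk v v),
        w.IsCycle → Even w.length

lemma cut_iff' {p q : V} (X : Finset V) :
    (∃ a ∈ X, ∃ b ∉ X, s(p, q) = s(a, b)) ↔ ¬ (p ∈ X ↔ q ∈ X) := by
  constructor
  · rintro ⟨a, ha, b, hb, h⟩ h1
    rcases Sym2.eq_iff.1 h with ⟨rfl, rfl⟩ | ⟨rfl, rfl⟩
    · exact hb (h1.1 ha)
    · exact hb (h1.2 ha)
  · intro h
    by_cases hp : p ∈ X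
    · exact ⟨p, hp, q, fun hq => h ⟨fun _ => hq, fun _ => hp⟩, rfl⟩
    · have hq : q ∈ X := by
        by_contra hq
        exact h ⟨fun a => absurd a hp, fun a => absurd a hq⟩
      exact ⟨q, hq, p, hp, Sym2.eq_swap⟩

open Classical in
lemma cnt' [Fintype I] {m : I → ℕ} (M : Set (Σ i, Fin (m i))) (Q : I → Prop) :
    {a | a ∈ M ∧ Q a.1}.ncard =
      ∑ i, if Q i then (univ.filter fun c : Fin (m i) => (⟨i, c⟩ : Σ i, Fin (m i)) ∈ M).card
        else 0 := by
  rw [Set.ncard_eq_toFinset_card', Set.toFinset_ofPred, card_filter, Fintype.sum_sigma]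
  refine sum_congr rfl fun i _ => ?_
  by_cases h : Q i
  · simp only [h, and_true, if_true, card_filter]
  · simp [h]

open Classical in
lemma base [Fintype V] [Fintype I] {R t : ℕ} (h : Bip R t) {x y : I → V} {m l : I → ℕ}
    (hG : WG R x y m) (hl : ∀ i, l i ≠ 2 ∧ (l i ≠ 0 → R ≤ m i + 2)) : Sol R t x y m l := by
  have hu : ∀ Q : I → Prop, {a : Σ i, Fin (m i) | Q a.1}.ncard = ∑ i, if Q i then m i else 0 :=
    fun Q => by simpa using cnt' (m := m) Set.univ Q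
  obtain ⟨M, hM, hb⟩ := h V (Σ i, Fin (m i)) (fun a => s(x a.1, y a.1))
    ⟨fun a ha => hG.1 a.1 (by simpa using ha), fun v => by
      refine (hu fun i => v ∈ s(x i, y i)).trans (Eq.trans ?_ (hG.2.1 v))
      exact sum_congr rfl fun i _ => ite_iff Sym2.mem_iff, fun X hX => by
      refine (hG.2.2 X hX).trans (le_of_eq (Eq.trans ?_
        (hu fun i => ∃ a ∈ X, ∃ b ∉ X, s(x i, y i) = s(a, b)).symm))
      refine sum_congr rfl fun i _ => ?_
      by_cases h : x i ∈ X ↔ y i ∈ X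
      · rw [if_pos h, if_neg fun h' => (cut_iff' X).1 h' h]
      · rw [if_neg h, if_pos ((cut_iff' X).2 h)]⟩
  set π : Fin t → I → ℕ := fun j i =>
    (univ.filter fun c : Fin (m i) => (⟨i, c⟩ : Σ i, Fin (m i)) ∈ M j).card with hπ
  have one : ∀ j v, (∑ i, if v = x i ∨ v = y i then π j i else 0) = 1 := fun j v => by
    obtain ⟨a, ha, hu⟩ := hM j v
    have h1 : {a : Σ i, Fin (m i) | a ∈ M j ∧ v ∈ s(x a.1, y a.1)}.ncard = 1 :=
      Set.ncard_eq_one.2 ⟨a, Set.eq_singleton_iff_unique_mem.2 ⟨ha, hu⟩⟩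
    refine Eq.trans ?_ ((cnt' (M j) fun i => v ∈ s(x i, y i)).symm.trans h1)
    exact sum_congr rfl fun i _ => ite_iff Sym2.mem_iff.symm
  refine ⟨π, one, fun j i hi => ?_, fun i hi => ?_, fun i hi => absurd hi (hl i).1,
    fun i1 i2 i3 a b c _ _ _ e1 e2 e3 => ?_⟩
  · have : π j i ≤ m i := (card_filter_le _ _).trans (by simp)
    omega
  · have h1 : ∀ j, π j i ≤ 1 := fun j => by
      have := single_le_sum (f := fun i' => if x i = x i' ∨ x i = y i' then π j i' else 0)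
        (fun _ _ => Nat.zero_le _) (mem_univ i)
      rwa [one j (x i), if_pos (Or.inl rfl)] at this
    have h2 := sum_le_sum (s := univ) fun j _ => h1 j
    simp only [sum_const, card_univ, Fintype.card_fin, smul_eq_mul, mul_one] at h2
    have := (hl i).2 hi
    omega
  · by_contra hc
    push Not at hc
    have adj : ∀ i p q, s(x i, y i) = s(p, q) → ∑ j, π j i < m i →
        (SimpleGraph.fromEdgeSet ((fun a : Σ i, Fin (m i) => s(x a.1, y a.1)) ''
          {e | ∀ j, e ∉ M j})).Adj p q := fun i p q e hi => by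
      rw [SimpleGraph.fromEdgeSet_adj]
      refine ⟨?_, fun hpq => hG.1 i (by
        have := congrArg Sym2.IsDiag e
        simpa [hpq] using this)⟩
      by_contra hn
      have h1 : (univ : Finset (Fin (m i))) ⊆ univ.biUnion fun j =>
          univ.filter fun c : Fin (m i) => (⟨i, c⟩ : Σ i, Fin (m i)) ∈ M j := fun c _ => by
        by_contra h2
        refine hn ⟨⟨i, c⟩, fun j hj => h2 ?_, e⟩
        exact mem_biUnion.2 ⟨j, mem_univ _, mem_filter.2 ⟨mem_univ _, hj⟩⟩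
      have h2 := (card_le_card h1).trans card_biUnion_le
      rw [card_univ, Fintype.card_fin] at h2
      exact absurd hi (not_lt.2 h2)
    obtain ⟨u, w, hw, hl⟩ := SimpleGraph.is3Clique_iff_exists_cycle_length_three.1
      ⟨_, SimpleGraph.is3Clique_triple_iff.2
        ⟨adj _ _ _ e1 hc.1, adj _ _ _ e2 hc.2.1, adj _ _ _ e3 hc.2.2⟩⟩
    have := hb u w hw
    rw [hl] at this
    exact absurd this (by decide)

def wt (R m l : ℕ) : ℕ := if l = 0 then 0 else if l = 2 then 3 ^ (R + 1) else 3 ^ (R - m)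

open Classical in
lemma wt_sum [Fintype I] (R : ℕ) (m l : I → ℕ) (i0 : I) (w lam : Fin 10 → ℕ)
    (h : ∑ k, wt R (w k) (lam k) < wt R (m i0) (l i0)) :
    ∑ i, wt R (nm m i0 w i) (nm l i0 lam i) < ∑ i, wt R (m i) (l i) := by
  rw [Fintype.sum_sum_type, ← add_sum_erase univ _ (mem_univ i0),
    ← add_sum_erase univ _ (mem_univ i0)]
  have h1 : ∑ i ∈ univ.erase i0, wt R (nm m i0 w (inl i)) (nm l i0 lam (inl i)) =
      ∑ i ∈ univ.erase i0, wt R (m i) (l i) :=
    sum_congr rfl fun i hi => by simp [nm, ne_of_mem_erase hi]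
  have h2 : wt R (nm m i0 w (inl i0)) (nm l i0 lam (inl i0)) = 0 := by simp [nm, wt]
  have h3 : ∑ k, wt R (nm m i0 w (inr k)) (nm l i0 lam (inr k)) = ∑ k, wt R (w k) (lam k) := rfl
  omega

open Classical in
lemma main {R t : ℕ} (h : Bip R t) (N : ℕ) : ∀ (V I : Type) [Fintype V] [Fintype I]
    (x y : I → V) (m l : I → ℕ), WG R x y m → ∑ i, wt R (m i) (l i) < N → Sol R t x y m l := by
  induction N with
  | zero => intro V I _ _ x y m l _ h; omega
  | succ N ih =>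
    intro V I _ _ x y m l hG hN
    by_cases h2 : ∃ i, l i = 2
    · obtain ⟨i0, h2⟩ := h2
      have hm : m i0 ≤ R := by
        have := single_le_sum (f := fun i => if x i0 = x i ∨ x i0 = y i then m i else 0)
          (fun _ _ => Nat.zero_le _) (mem_univ i0)
        rwa [hG.2.1, if_pos (Or.inl rfl)] at this
      have hR : R = 0 + m i0 + (R - m i0) := by omega
      refine Sol.proj (lam := ql) good_q i0 (hG.1 i0) (by omega) (by simp [q1, q2])
        (ih _ _ _ _ _ _ (hG.glue good_q i0 hR) (lt_of_lt_of_le (wt_sum R m l i0 _ _ ?_)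
          (by omega))) fun π hπ => ?_
      · have e1 : 3 ^ (R - m i0) ≤ 3 ^ R := Nat.pow_le_pow_right (by norm_num) (by omega)
        have e2 : 3 ^ (R - (R - m i0)) ≤ 3 ^ R := Nat.pow_le_pow_right (by norm_num) (by omega)
        have e3 : 0 < 3 ^ R := by positivity
        simp [Fin.sum_univ_succ, wt, ql, q1, q2, h2, pow_succ]
        omega
      · have := loc_q hR π hπ
        exact ⟨this.1, this.2.1, fun _ => this.2.2⟩
    · by_cases h1 : ∃ i, l i ≠ 0 ∧ m i + 2 < R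
      · obtain ⟨i0, h0, h1⟩ := h1
        have h3 : l i0 ≠ 2 := fun h => h2 ⟨i0, h⟩
        have hR : R = 2 + m i0 + (R - m i0 - 2) := by omega
        refine Sol.proj (lam := pl) good_p i0 (hG.1 i0) h0 (by simp [p0, p1, p2])
          (ih _ _ _ _ _ _ (hG.glue good_p i0 hR) (lt_of_lt_of_le (wt_sum R m l i0 _ _ ?_)
            (by omega))) fun π hπ => ?_
        · have e1 : R - m i0 = R - (1 + m i0) + 1 := by omega
          have e3 : 0 < 3 ^ (R - (1 + m i0)) := by positivity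
          simp [Fin.sum_univ_succ, wt, pl, p0, p1, p2, h0, h3]
          rw [e1, pow_succ]
          omega
        · have := loc_p hR π hπ
          exact ⟨this.1, this.2, fun h => absurd h h3⟩
      · push Not at h1 h2
        exact base h hG fun i => ⟨h2 i, h1 i⟩

end Pool.Agent.Lib.MP_ba72f5_co.Cover
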