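import Pool.Agent.Lib.MP_ba72f5_co.Near

set_option autoImplicit false

open Finset Sum

namespace Pool.Agent.Lib.MP_ba72f5_co.Cover

open Classical in
lemma fib {V E : Type} [Fintype V] [Fintype E] (ends : E → Sym2 V) (hl : ∀ e, ¬ (ends e).IsDiag)
    (Q : Sym2 V → Prop) : {e | Q (ends e)}.ncard =
      ∑ p : {p : Sym2 V // ¬ p.IsDiag}, if Q p.1 then {e | ends e = p.1}.ncard else 0 := by
  rw [Set.ncard_eq_toFinset_card', Set.toFinset_ofPred,
    card_eq_sum_card_fiberwise (f := fun e => (⟨ends e, hl e⟩ : {p : Sym2 V // ¬ p.IsDiag}))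
      (t := univ) fun _ _ => mem_univ _]
  refine sum_congr rfl fun p _ => ?_
  split_ifs with h
  · rw [Set.ncard_eq_toFinset_card', Set.toFinset_ofPred]
    congr 1
    ext e
    simp only [mem_filter, mem_univ, true_and, Subtype.ext_iff, and_iff_right_iff_imp]
    intro he
    rwa [he]
  · rw [card_eq_zero, filter_eq_empty_iff]
    rintro e he rfl
    exact h (mem_filter.1 he).2

open Classical in
theorem near {k r t : ℕ} (h : Bip (k * r) t) (V E : Type) [Fintype V] [Fintype E]
    (ends : E → Sym2 V) (hG : RGraph r ends) :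
    ∃ M : Fin t → Set E, (∀ i, PerfectMatching ends (M i)) ∧ ∀ a b : V, a ≠ b →
      k * {e | ends e = s(a, b)}.ncard ≤ {i | ∃ e ∈ M i, ends e = s(a, b)}.ncard + 2 ∧
      {i | ∃ e ∈ M i, ends e = s(a, b)}.ncard + k * r ≤
        k * {e | ends e = s(a, b)}.ncard + 2 + t := by
  let I := {p : Sym2 V // ¬ p.IsDiag}
  obtain ⟨x, y, hxy⟩ : ∃ x y : I → V, ∀ p, s(x p, y p) = p.1 :=
    ⟨fun p => p.1.out.1, fun p => p.1.out.2, fun p => p.1.out_eq⟩
  have mem : ∀ v p, (v = x p ∨ v = y p) ↔ v ∈ p.1 := fun v p => by rw [← hxy, Sym2.mem_iff]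
  have hW : WG (k * r) x y fun p => k * {e | ends e = p.1}.ncard := by
    refine ⟨fun p hp => p.2 (by rw [← hxy]; simpa using hp), fun v => ?_, fun X hX => ?_⟩
    · rw [← hG.2.1 v, fib ends hG.1 fun p => v ∈ p, mul_sum]
      refine sum_congr rfl fun p _ => ?_
      rw [mul_ite, mul_zero]
      exact ite_iff (mem v p)
    · refine (Nat.mul_le_mul_left k (hG.2.2 X hX)).trans (le_of_eq ?_)
      rw [fib ends hG.1 fun p => ∃ a ∈ X, ∃ b ∉ X, p = s(a, b), mul_sum]
      refine sum_congr rfl fun p _ => ?_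
      have := cut_iff' (p := x p) (q := y p) X
      rw [hxy] at this
      by_cases h : x p ∈ X ↔ y p ∈ X
      · rw [if_pos h, if_neg fun h' => this.1 h' h, mul_zero]
      · rw [if_neg h, if_pos (this.2 h)]
  obtain ⟨π, h1, h2, h3, h4, -⟩ := main h _ V I x y _ (fun _ => 2) hW (Nat.lt_succ_self _)
  have le1 : ∀ j p, π j p ≤ 1 := fun j p => by
    have := single_le_sum (f := fun i => if x p = x i ∨ x p = y i then π j i else 0)
      (fun _ _ => Nat.zero_le _) (mem_univ p)
    rwa [h1 j (x p), if_pos (Or.inl rfl)] at this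
  have ex : ∀ j p, π j p = 1 → ∃ e, ends e = p.1 := fun j p hp => by
    by_contra hn
    have : {e | ends e = p.1} = ∅ := Set.eq_empty_of_forall_notMem fun e he => hn ⟨e, he⟩
    have := h2 j p (by simp [this])
    omega
  choose f hf using ex
  refine ⟨fun j => {e | ∃ p hp, e = f j p hp}, fun j v => ?_, fun a b hab => ?_⟩
  · obtain ⟨p, -, hp⟩ := exists_ne_zero_of_sum_ne_zero ((h1 j v).trans_ne one_ne_zero)
    have hv : v = x p ∨ v = y p := by
      by_contra hn
      exact hp (if_neg hn)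
    rw [if_pos hv] at hp
    have hp1 : π j p = 1 := by have := le1 j p; omega
    refine ⟨f j p hp1, ⟨⟨p, hp1, rfl⟩, by rw [hf]; exact (mem v p).1 hv⟩, ?_⟩
    rintro e ⟨⟨q, hq, rfl⟩, hv'⟩
    rw [hf] at hv'
    obtain rfl : q = p := by
      by_contra hne
      have := add_le_sum (s := univ) (f := fun i => if v = x i ∨ v = y i then π j i else 0)
        (fun _ _ => Nat.zero_le _) (mem_univ q) (mem_univ p) hne
      rw [h1 j v, if_pos hv, if_pos ((mem v q).2 hv'), hp1, hq] at this
      omega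
    rfl
  · let p : I := ⟨s(a, b), by simpa using hab⟩
    have hu : {j | ∃ e ∈ {e | ∃ p hp, e = f j p hp}, ends e = s(a, b)}.ncard = ∑ j, π j p := by
      rw [Set.ncard_eq_toFinset_card', Set.toFinset_ofPred, card_filter]
      refine sum_congr rfl fun j _ => ?_
      split_ifs with hj
      · obtain ⟨e, ⟨q, hq, rfl⟩, he⟩ := hj
        obtain rfl : q = p := Subtype.ext ((hf j q hq).symm.trans he)
        exact hq.symm
      · have := le1 j p
        by_contra hn
        have hp : π j p = 1 := by omega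
        exact hj ⟨f j p hp, ⟨p, hp, rfl⟩, hf j p hp⟩
    rw [hu]
    exact ⟨h4 p rfl, h3 p two_ne_zero⟩

end Pool.Agent.Lib.MP_ba72f5_co.Cover
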