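import Pool.Agent.Lib.MP_ba72f5_co.CoverDefs

set_option autoImplicit false

open Finset Sum

namespace Pool.Agent.Lib.MP_ba72f5_co.Cover

variable {V I : Type}

open Classical in
/-- weighted form of an `R`-graph: bundle `i` consists of `m i` parallel edges `x i y i` -/
def WG [Fintype I] (R : ℕ) (x y : I → V) (m : I → ℕ) : Prop :=
  (∀ i, x i ≠ y i) ∧ (∀ v, (∑ i, if v = x i ∨ v = y i then m i else 0) = R) ∧
    ∀ X : Finset V, Odd X.card → R ≤ ∑ i, if x i ∈ X ↔ y i ∈ X then 0 else m i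

open Classical in
lemma WG.even_cut [Fintype I] {R : ℕ} {x y : I → V} {m : I → ℕ} (hG : WG R x y m)
    (X : Finset V) (hX : Even X.card) (i0 : I) (h0 : ¬ (x i0 ∈ X ↔ y i0 ∈ X)) :
    m i0 ≤ ∑ i ∈ univ.erase i0, if x i ∈ X ↔ y i ∈ X then 0 else m i := by
  have hne : y i0 ≠ x i0 := (hG.1 i0).symm
  obtain ⟨Y, hY, h1, h2⟩ : ∃ Y : Finset V, Odd Y.card ∧ (∀ a, a ≠ x i0 → (a ∈ Y ↔ a ∈ X)) ∧
      (x i0 ∈ Y ↔ x i0 ∉ X) := by
    by_cases hx : x i0 ∈ X
    · refine ⟨X.erase (x i0), ?_, fun a ha => by simp [ha], by simp [hx]⟩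
      have := card_erase_add_one hx
      rw [Nat.odd_iff]; rw [Nat.even_iff] at hX; omega
    · refine ⟨insert (x i0) X, ?_, fun a ha => by simp [ha], by simp [hx]⟩
      rw [card_insert_of_notMem hx]
      exact hX.add_one
  have h3 := hG.2.2 Y hY
  have h4 := hG.2.1 (x i0)
  rw [← add_sum_erase univ _ (mem_univ i0)] at h3 h4
  rw [if_pos (Or.inl rfl)] at h4
  rw [if_pos (by rw [h1 _ hne, h2]; tauto)] at h3
  have h5 : (∑ i ∈ univ.erase i0, if x i ∈ Y ↔ y i ∈ Y then 0 else m i) ≤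
      (∑ i ∈ univ.erase i0, if x i ∈ X ↔ y i ∈ X then 0 else m i) +
        ∑ i ∈ univ.erase i0, if x i0 = x i ∨ x i0 = y i then m i else 0 := by
    rw [← sum_add_distrib]
    refine sum_le_sum fun i _ => ?_
    by_cases h : x i0 = x i ∨ x i0 = y i
    · rw [if_pos h]; split_ifs <;> omega
    · rw [if_neg h]
      push Not at h
      simp [h1 _ h.1.symm, h1 _ h.2.symm]
  omega

/-- local vertices of a gadget; `6` and `7` are the old ends -/
def jo (p q : V) (j : Fin 8) : V ⊕ Fin 6 :=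
  if h : j.val < 6 then inr ⟨j.val, h⟩ else if j.val = 6 then inl p else inl q

def ct (A B : Fin 10 → Fin 8) (w : Fin 10 → ℕ) (β : Fin 8 → Bool) : ℕ :=
  ∑ k, if β (A k) = β (B k) then 0 else w k

def dg (A B : Fin 10 → Fin 8) (w : Fin 10 → ℕ) (j : Fin 6) : ℕ :=
  ∑ k, if j.val = (A k).val ∨ j.val = (B k).val then w k else 0

def cs6 (β : Fin 8 → Bool) : ℕ := ∑ j : Fin 6, if β (j.castLE (by norm_num)) then 1 else 0

def CutOK (A B : Fin 10 → Fin 8) (w0 w1 w2 : Fin 10 → ℕ) (c : ℕ) (β : Fin 8 → Bool) : Prop :=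
  (cs6 β % 2 = 0 → β 6 ≠ β 7 → 1 ≤ ct A B w1 β) ∧
    (cs6 β % 2 = 1 → c ≤ ct A B w0 β ∧ 1 ≤ ct A B w2 β ∧ (β 6 = β 7 → 1 ≤ ct A B w1 β))

instance (A B : Fin 10 → Fin 8) (w0 w1 w2 : Fin 10 → ℕ) (c : ℕ) (β : Fin 8 → Bool) :
    Decidable (CutOK A B w0 w1 w2 c β) := by unfold CutOK; infer_instance

/-- finite conditions on a gadget with multiplicities `w0 + a * w1 + b * w2` -/
def Good (A B : Fin 10 → Fin 8) (w0 w1 w2 : Fin 10 → ℕ) (c : ℕ) : Prop :=
  (A 0 = 6 ∧ A 1 = 7 ∧ w0 0 = 0 ∧ w0 1 = 0 ∧ w1 0 = 1 ∧ w1 1 = 1 ∧ w2 0 = 0 ∧ w2 1 = 0) ∧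
  (∀ k, (B k).val < 6 ∧ A k ≠ B k ∧ (k ≠ 0 → k ≠ 1 → (A k).val < 6)) ∧
  (∀ j, dg A B w0 j = c ∧ dg A B w1 j = 1 ∧ dg A B w2 j = 1) ∧
  ∀ b0 b1 b2 b3 b4 b5 b6 b7 : Bool, CutOK A B w0 w1 w2 c ![b0, b1, b2, b3, b4, b5, b6, b7]

instance (A B : Fin 10 → Fin 8) (w0 w1 w2 : Fin 10 → ℕ) (c : ℕ) :
    Decidable (Good A B w0 w1 w2 c) := by unfold Good; infer_instance

def pA : Fin 10 → Fin 8 := ![6, 7, 0, 1, 4, 3, 2, 1, 0, 0]
def pB : Fin 10 → Fin 8 := ![2, 5, 3, 4, 5, 5, 3, 2, 2, 1]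
def p0 : Fin 10 → ℕ := ![0, 0, 1, 1, 1, 1, 0, 1, 1, 0]
def p1 : Fin 10 → ℕ := ![1, 1, 1, 1, 0, 0, 0, 0, 0, 0]
def p2 : Fin 10 → ℕ := ![0, 0, 0, 0, 1, 0, 1, 0, 0, 1]
def qA : Fin 10 → Fin 8 := ![6, 7, 0, 1, 2, 3, 4, 0, 0, 0]
def qB : Fin 10 → Fin 8 := ![0, 5, 1, 2, 3, 4, 5, 1, 1, 1]
def q1 : Fin 10 → ℕ := ![1, 1, 0, 1, 0, 1, 0, 0, 0, 0]
def q2 : Fin 10 → ℕ := ![0, 0, 1, 0, 1, 0, 1, 0, 0, 0]

lemma good_p : Good pA pB p0 p1 p2 2 := by decide +kernel
lemma good_q : Good qA qB (fun _ => 0) q1 q2 0 := by decide +kernel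

lemma jo_inr (p q : V) (j : Fin 6) (i : Fin 8) : inr j = jo p q i ↔ j.val = i.val := by
  unfold jo
  have := j.2
  split_ifs with h1 h2
  · simp [Fin.ext_iff]
  · simp only [false_iff]; omega
  · simp only [false_iff]; omega

lemma jo_lt (p q a : V) {i : Fin 8} (h : i.val < 6) : inl a ≠ jo p q i := by
  simp [jo, h]

def nx (x : I → V) (p q : V) (A : Fin 10 → Fin 8) : I ⊕ Fin 10 → V ⊕ Fin 6 :=
  Sum.elim (fun i => inl (x i)) fun k => jo p q (A k)

open Classical in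
noncomputable def nm (m : I → ℕ) (i0 : I) (w : Fin 10 → ℕ) : I ⊕ Fin 10 → ℕ :=
  Sum.elim (fun i => if i = i0 then 0 else m i) w

section
variable [Fintype I] {A B : Fin 10 → Fin 8} {w0 w1 w2 : Fin 10 → ℕ} {c : ℕ} {x y : I → V}

open Classical in
lemma sum_inr (p q : V) (g : I ⊕ Fin 10 → ℕ) (j : Fin 6) :
    (∑ i, if inr j = nx x p q A i ∨ inr j = nx y p q B i then g i else 0) =
      dg A B (fun k => g (inr k)) j := by
  rw [Fintype.sum_sum_type]
  simp only [nx, Sum.elim_inl, Sum.elim_inr, jo_inr, dg]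
  simp

open Classical in
lemma sum_inl (hg : Good A B w0 w1 w2 c) (p q : V) (g : I ⊕ Fin 10 → ℕ) (a : V) :
    (∑ i, if inl a = nx x p q A i ∨ inl a = nx y p q B i then g i else 0) =
      (∑ i, if a = x i ∨ a = y i then g (inl i) else 0) +
        ((if a = p then g (inr 0) else 0) + if a = q then g (inr 1) else 0) := by
  rw [Fintype.sum_sum_type]
  congr 1
  · simp [nx]
  · rw [Fintype.sum_eq_add 0 1 (by decide)]
    · have e6 : jo p q 6 = inl p := rfl
      have e7 : jo p q 7 = inl q := rfl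
      simp [nx, jo_lt p q a (hg.2.1 0).1, jo_lt p q a (hg.2.1 1).1, hg.1.1, hg.1.2.1, e6, e7]
    · rintro k ⟨h0, h1⟩
      simp [nx, jo_lt p q a (hg.2.1 k).1, jo_lt p q a ((hg.2.1 k).2.2 h0 h1)]

open Classical in
lemma sum_upd {p q : V} (hpq : p ≠ q) (i0 : I) (hp : x i0 = p) (hq : y i0 = q) (g : I → ℕ)
    (z : ℕ) (a : V) :
    (∑ i, if a = x i ∨ a = y i then (if i = i0 then z else g i) else 0) =
      (∑ i, if a = x i ∨ a = y i then (if i = i0 then 0 else g i) else 0) +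
        ((if a = p then z else 0) + if a = q then z else 0) := by
  rw [← add_sum_erase univ _ (mem_univ i0), ← add_sum_erase univ _ (mem_univ i0)]
  have : ∀ u : ℕ, (∑ i ∈ univ.erase i0, if a = x i ∨ a = y i then (if i = i0 then u else g i)
      else 0) = ∑ i ∈ univ.erase i0, if a = x i ∨ a = y i then g i else 0 := fun u =>
    sum_congr rfl fun i hi => by rw [if_neg (ne_of_mem_erase hi)]
  rw [this, this, hp, hq]
  by_cases h1 : a = p
  · subst h1; simp [hpq, add_comm]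
  · by_cases h2 : a = q
    · subst h2; simp [h1, add_comm]
    · simp [h1, h2]

open Classical in
lemma WG.glue {R b : ℕ} {m : I → ℕ} (hG : WG R x y m) (hg : Good A B w0 w1 w2 c) (i0 : I)
    (hR : R = c + m i0 + b) :
    WG R (nx x (x i0) (y i0) A) (nx y (x i0) (y i0) B)
      (nm m i0 fun k => w0 k + m i0 * w1 k + b * w2 k) := by
  refine ⟨?_, ?_, fun X hX => ?_⟩
  · rintro (i | k)
    · simpa [nx] using hG.1 i
    · obtain ⟨h1, h2, -⟩ := hg.2.1 k
      have : jo (x i0) (y i0) (B k) = inr ⟨(B k).val, h1⟩ := by simp [jo, h1]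
      intro h
      exact h2 (Fin.ext ((jo_inr _ _ _ _).1 (this.symm.trans h.symm)).symm)
  · rintro (a | j)
    · have h := sum_inl (x := x) (y := y) hg (x i0) (y i0)
        (nm m i0 fun k => w0 k + m i0 * w1 k + b * w2 k) a
      have h2 := sum_upd (hG.1 i0) i0 rfl rfl m (m i0) a
      have h3 := hG.2.1 a
      have h4 : ∀ i, (if i = i0 then m i0 else m i) = m i := fun i => by
        split_ifs with h
        · rw [h]
        · rfl
      obtain ⟨-, -, e1, e2, e3, e4, e5, e6⟩ := hg.1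
      simp only [h4] at h2
      simp only [nm, Sum.elim_inl, Sum.elim_inr, e1, e2, e3, e4, e5, e6, zero_add, mul_one,
        mul_zero, add_zero] at h
      refine Eq.trans ?_ (h.trans (h2.symm.trans h3))
      refine sum_congr rfl fun i _ => ?_
      split_ifs <;> rfl
    · have h := sum_inr (x := x) (y := y) (A := A) (B := B) (x i0) (y i0)
        (nm m i0 fun k => w0 k + m i0 * w1 k + b * w2 k) j
      have h2 : dg A B (fun k => w0 k + m i0 * w1 k + b * w2 k) j =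
          dg A B w0 j + m i0 * dg A B w1 j + b * dg A B w2 j := by
        unfold dg
        rw [mul_sum, mul_sum, ← sum_add_distrib, ← sum_add_distrib]
        refine sum_congr rfl fun k _ => ?_
        split_ifs <;> simp
      obtain ⟨e1, e2, e3⟩ := hg.2.2.1 j
      rw [e1, e2, e3, mul_one, mul_one, ← hR] at h2
      refine Eq.trans ?_ (h.trans h2)
      refine sum_congr rfl fun i _ => ?_
      split_ifs <;> rfl
  · set β : Fin 8 → Bool := fun j => decide (jo (x i0) (y i0) j ∈ X) with hβ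
    set X0 : Finset V := X.toLeft with hX0
    have h1 : (∑ i, if nx x (x i0) (y i0) A i ∈ X ↔ nx y (x i0) (y i0) B i ∈ X then 0 else
        nm m i0 (fun k => w0 k + m i0 * w1 k + b * w2 k) i) =
        (∑ i ∈ univ.erase i0, if x i ∈ X0 ↔ y i ∈ X0 then 0 else m i) +
          (ct A B w0 β + m i0 * ct A B w1 β + b * ct A B w2 β) := by
      rw [Fintype.sum_sum_type]
      congr 1
      · rw [← add_sum_erase univ _ (mem_univ i0)]
        have : nm m i0 (fun k => w0 k + m i0 * w1 k + b * w2 k) (inl i0) = 0 := by simp [nm]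
        rw [this, ite_self, zero_add]
        refine sum_congr rfl fun i hi => if_congr (by simp [nx, hX0]) rfl ?_
        simp [nm, ne_of_mem_erase hi]
      · unfold ct
        rw [mul_sum, mul_sum, ← sum_add_distrib, ← sum_add_distrib]
        refine sum_congr rfl fun k _ => ?_
        have : β (A k) = β (B k) ↔
            (nx x (x i0) (y i0) A (inr k) ∈ X ↔ nx y (x i0) (y i0) B (inr k) ∈ X) := by
          simp [hβ, nx]
        by_cases h : β (A k) = β (B k)
        · rw [if_pos (this.1 h)]; simp [h]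
        · rw [if_neg fun h' => h (this.2 h')]; simp [h, nm]
    have h6 : β 6 = β 7 ↔ (x i0 ∈ X0 ↔ y i0 ∈ X0) := by simp [hβ, hX0, jo]
    have h2 : X.card = X0.card + cs6 β := by
      rw [← card_toLeft_add_card_toRight, cs6, ← card_filter]
      congr 2
      ext j
      simp [hβ, jo]
    have e : β = ![β 0, β 1, β 2, β 3, β 4, β 5, β 6, β 7] := by
      funext j; fin_cases j <;> rfl
    have h3 := hg.2.2.2 (β 0) (β 1) (β 2) (β 3) (β 4) (β 5) (β 6) (β 7)
    rw [← e] at h3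
    refine le_trans ?_ (h1.symm.le.trans (sum_le_sum fun i _ => ?_))
    rotate_left
    · split_ifs <;> rfl
    rw [Nat.odd_iff] at hX
    rcases Nat.mod_two_eq_zero_or_one (cs6 β) with h4 | h4
    · have h5 := hG.2.2 X0 (by rw [Nat.odd_iff]; omega)
      rw [← add_sum_erase univ _ (mem_univ i0)] at h5
      split_ifs at h5 with h7
      · omega
      · have := Nat.mul_le_mul_left (m i0) (h3.1 h4 fun h => h7 (h6.1 h))
        omega
    · obtain ⟨h7, h8, h9⟩ := h3.2 h4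
      have := Nat.mul_le_mul_left b h8
      by_cases h10 : β 6 = β 7
      · have := Nat.mul_le_mul_left (m i0) (h9 h10)
        omega
      · have := hG.even_cut X0 (by rw [Nat.even_iff]; omega) i0 fun h => h10 (h6.2 h)
        omega

end

end Pool.Agent.Lib.MP_ba72f5_co.Cover
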